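import Pool.Agent.U98.TZ.B7

set_option autoImplicit false

/-!
# The law of the shapes of consecutive blocks of rough numbers

`𝓕` is a finite family of sets of `k` shifts which contain `0`. A block of the shape `S` at `n`: the rough numbers in
`[n, n + max S]` are exactly the `n + h`, `h ∈ S`.
-/

namespace Pool.Agent.U98.TZ

open Finset Filter Pool.Agent.H373R2.T7 Pool.Agent.W123.RP Pool.Agent.W123.RU Pool.Agent.TH464.PO Pool.Agent.U98.TY

/-- `n` has no prime factors `p ≤ w` -/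
def Rgh (w n : ℕ) : Prop := ∀ p : ℕ, p.Prime → p ≤ w → ¬ p ∣ n

/-- the rough numbers in `[n, n + max S]` are exactly the `n + h`, `h ∈ S` -/
def Blk (w : ℕ) (S : Finset ℕ) (n : ℕ) : Prop := ∀ h ≤ S.sup id, (Rgh w (n + h) ↔ h ∈ S)

/-- the number of the classes modulo `p` of the elements of `S` -/
def nuS (S : Finset ℕ) (p : ℕ) : ℕ := (S.image (fun h => h % p)).card

/-- the density of the shape `S` -/
noncomputable def dS (w : ℕ) (S : Finset ℕ) : ℝ := ∏ p ∈ (Icc 1 w).filter Nat.Prime, (1 - (nuS S p : ℝ) / p)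

/-- the next block with a shape in `𝓕` -/
noncomputable def nxB (w : ℕ) (𝓕 : Finset (Finset ℕ)) (n : ℕ) : ℕ := sInf {m | n < m ∧ ∃ S ∈ 𝓕, Blk w S m}

/-- the number of the `n ∈ (Z, Z + Y]` for which the blocks at `n` and at the next `l` places have the shapes `σ j`
and the distances are in `(s j, T j]` -/
noncomputable def cB (w : ℕ) (𝓕 : Finset (Finset ℕ)) (l : ℕ) (σ : ℕ → Finset ℕ) (s T : ℕ → ℕ) (Z Y : ℕ) : ℕ :=
  Set.ncard {n : ℕ | Z < n ∧ n ≤ Z + Y ∧ (∀ j ≤ l, Blk w (σ j) ((nxB w 𝓕)^[j] n)) ∧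
    ∀ j < l, s j < (nxB w 𝓕)^[j + 1] n - (nxB w 𝓕)^[j] n ∧ (nxB w 𝓕)^[j + 1] n - (nxB w 𝓕)^[j] n ≤ T j}

/-- the forms of the shape `S` -/
def FS (S : Finset ℕ) : Finset (ℕ × ℤ) := S.image (fun h : ℕ => (1, (h : ℤ)))

lemma mem_FS {S : Finset ℕ} {L : ℕ × ℤ} : L ∈ FS S ↔ ∃ h ∈ S, L = (1, (h : ℤ)) := by
  unfold FS
  rw [mem_image]
  constructor
  · rintro ⟨h, hh, rfl⟩
    exact ⟨h, hh, rfl⟩
  · rintro ⟨h, hh, rfl⟩
    exact ⟨h, hh, rfl⟩

lemma form_iff (p n h : ℕ) : (p : ℤ) ∣ ((1 : ℕ) : ℤ) * n + (h : ℤ) ↔ p ∣ n + h := by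
  have e : ((1 : ℕ) : ℤ) * n + (h : ℤ) = ((n + h : ℕ) : ℤ) := by push_cast; ring
  rw [e]
  exact Int.natCast_dvd_natCast

lemma QS_FS (S : Finset ℕ) (p n : ℕ) : QS (FS S) p n ↔ ∃ h ∈ S, p ∣ n + h := by
  unfold QS
  constructor
  · rintro ⟨L, hL, hd⟩
    obtain ⟨h, hh, rfl⟩ := mem_FS.1 hL
    exact ⟨h, hh, (form_iff p n h).1 hd⟩
  · rintro ⟨h, hh, hd⟩
    exact ⟨_, mem_FS.2 ⟨h, hh, rfl⟩, (form_iff p n h).2 hd⟩

lemma ng_inj (p h h' : ℕ) (hp : 0 < p) : ng p h = ng p h' ↔ h % p = h' % p := by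
  constructor
  · intro he
    have h1 := ng_dvd p h hp
    have h2 := ng_dvd p h' hp
    rw [← he] at h2
    have h3 : ng p h + h ≡ ng p h + h' [MOD p] :=
      (Nat.modEq_zero_iff_dvd.2 h1).trans (Nat.modEq_zero_iff_dvd.2 h2).symm
    exact Nat.ModEq.add_left_cancel' _ h3
  · intro he
    unfold ng
    rw [he]

lemma nuB_FS (S : Finset ℕ) (p : ℕ) (hp : p.Prime) : nuB (QS (FS S)) p = nuS S p := by
  classical
  have h1 : nuB (QS (FS S)) p = ((range p).filter (fun r => ∃ h ∈ S, p ∣ r + h)).card := by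
    unfold nuB
    congr 1
    ext r
    rw [mem_filter, mem_filter, QS_FS]
  rw [h1, pat_image S p hp.pos]
  unfold nuS
  -- both images have the same cardinality
  apply Finset.card_nbij' (fun r => (p - r) % p) (fun r => (p - r) % p)
  · intro r hr
    rw [Finset.mem_coe, mem_image] at hr
    obtain ⟨h, hh, rfl⟩ := hr
    rw [Finset.mem_coe, mem_image]
    refine ⟨h, hh, ?_⟩
    show h % p = (p - (p - h % p) % p) % p
    have h3 : h % p < p := Nat.mod_lt _ hp.pos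
    rcases Nat.eq_zero_or_pos (h % p) with h4 | h4
    · rw [h4]
      simp
    · rw [Nat.mod_eq_of_lt (show p - h % p < p by omega)]
      have : p - (p - h % p) = h % p := by omega
      rw [this, Nat.mod_eq_of_lt h3]
  · intro r hr
    rw [Finset.mem_coe, mem_image] at hr
    obtain ⟨h, hh, rfl⟩ := hr
    rw [Finset.mem_coe, mem_image]
    exact ⟨h, hh, rfl⟩
  · intro r hr
    rw [Finset.mem_coe, mem_image] at hr
    obtain ⟨h, hh, rfl⟩ := hr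
    have h3 : ng p h < p := Nat.mod_lt _ hp.pos
    rcases Nat.eq_zero_or_pos (ng p h) with h4 | h4
    · rw [h4]
      simp
    · simp only
      rw [Nat.mod_eq_of_lt (show p - ng p h < p by omega)]
      have : p - (p - ng p h) = ng p h := by omega
      rw [this, Nat.mod_eq_of_lt h3]
  · intro r hr
    rw [Finset.mem_coe, mem_image] at hr
    obtain ⟨h, hh, rfl⟩ := hr
    have h3 : h % p < p := Nat.mod_lt _ hp.pos
    rcases Nat.eq_zero_or_pos (h % p) with h4 | h4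
    · rw [h4]
      simp
    · simp only
      rw [Nat.mod_eq_of_lt (show p - h % p < p by omega)]
      have : p - (p - h % p) = h % p := by omega
      rw [this, Nat.mod_eq_of_lt h3]

lemma nuS_large (S : Finset ℕ) (H p : ℕ) (hS : ∀ h ∈ S, h ≤ H) (hp : H < p) : nuS S p = S.card := by
  unfold nuS
  apply card_image_of_injOn
  intro a ha b hb hab
  rw [Finset.mem_coe] at ha hb
  simp only at hab
  have h1 := hS a ha
  have h2 := hS b hb
  rw [Nat.mod_eq_of_lt (by omega), Nat.mod_eq_of_lt (by omega)] at hab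
  exact hab

/-- the primorial -/
def prm (N : ℕ) : ℕ := ∏ p ∈ pz N, p

lemma prm_pos (N : ℕ) : 1 ≤ prm N := Nat.one_le_iff_ne_zero.2 (prod_ne_zero_iff.2 fun _ hp => (mem_pz.1 hp).2.ne_zero)

lemma prime_prm (N p : ℕ) (hp : p.Prime) : p ∣ prm N ↔ p ≤ N := by
  unfold prm
  constructor
  · intro h
    obtain ⟨a, ha, hd⟩ := (Prime.dvd_finsetProd_iff hp.prime _).1 h
    have := (Nat.prime_dvd_prime_iff_eq hp (mem_pz.1 ha).2).1 hd
    rw [this]
    exact (mem_pz.1 ha).1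
  · intro h
    exact dvd_prod_of_mem _ (mem_pz.2 ⟨h, hp⟩)

/-- the shape of the kind `κ` -/
noncomputable def shp (𝓕 : Finset (Finset ℕ)) (κ : ℕ) : Finset ℕ :=
  if h : κ < 𝓕.card then (𝓕.equivFin.symm ⟨κ, h⟩).1 else {0}

lemma shp_mem (𝓕 : Finset (Finset ℕ)) (κ : ℕ) (h : κ < 𝓕.card) : shp 𝓕 κ ∈ 𝓕 := by
  unfold shp
  rw [dif_pos h]
  exact (𝓕.equivFin.symm ⟨κ, h⟩).2

lemma shp_inj (𝓕 : Finset (Finset ℕ)) (κ κ' : ℕ) (h : κ < 𝓕.card) (h' : κ' < 𝓕.card) (he : shp 𝓕 κ = shp 𝓕 κ') :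
    κ = κ' := by
  unfold shp at he
  rw [dif_pos h, dif_pos h'] at he
  have := 𝓕.equivFin.symm.injective (Subtype.ext he)
  exact Fin.mk.inj_iff.1 this

lemma shp_surj (𝓕 : Finset (Finset ℕ)) (S : Finset ℕ) (hS : S ∈ 𝓕) : ∃ κ < 𝓕.card, shp 𝓕 κ = S := by
  refine ⟨𝓕.equivFin ⟨S, hS⟩, (𝓕.equivFin ⟨S, hS⟩).2, ?_⟩
  unfold shp
  rw [dif_pos (𝓕.equivFin ⟨S, hS⟩).2]
  simp

section

variable {k H : ℕ} {𝓕 : Finset (Finset ℕ)}

/-- the kinds of the family -/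
lemma kinds_family (hk : ∀ S ∈ 𝓕, S.card = k ∧ 0 ∈ S ∧ ∀ h ∈ S, h ≤ H) (h𝓕 : 1 ≤ 𝓕.card) (N : ℕ) (hN1 : H + 1 ≤ N)
    (hN2 : 𝓕.card ≤ N) : Kinds (H + 1) (prm N) 𝓕.card (fun κ => FS (shp 𝓕 κ)) (fun _ => k) where
  hA := by omega
  hr := h𝓕
  rq := by
    intro p hp hpr
    rw [prime_prm N p hp]
    exact (Nat.le_of_dvd h𝓕 hpr).trans hN2
  bd := by
    intro κ hκ L hL
    obtain ⟨h, hh, rfl⟩ := mem_FS.1 hL
    obtain ⟨_, _, h3⟩ := hk _ (shp_mem 𝓕 κ hκ)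
    have := h3 h hh
    refine ⟨le_rfl, by omega, by positivity, ?_⟩
    show (h : ℤ) ≤ ((H + 1 : ℕ) : ℤ)
    exact_mod_cast (by omega : h ≤ H + 1)
  base := by
    intro κ hκ
    exact mem_FS.2 ⟨0, (hk _ (shp_mem 𝓕 κ hκ)).2.1, rfl⟩
  om := by
    intro κ hκ p hp hpq
    rw [prime_prm N p hp] at hpq
    obtain ⟨h1, _, h3⟩ := hk _ (shp_mem 𝓕 κ hκ)
    rw [nuB_FS _ p hp, nuS_large _ H p h3 (by omega), h1]
  adm := by
    intro p hp hpq
    rw [prime_prm N p hp] at hpq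
    obtain ⟨h1, _, h3⟩ := hk _ (shp_mem 𝓕 0 h𝓕)
    have : shp 𝓕 0 ⊆ range (H + 1) := by
      intro h hh
      rw [mem_range]
      have := h3 h hh
      omega
    have := card_le_card this
    rw [h1, card_range] at this
    omega
  dist := by
    intro κ hκ κ' hκ' hne
    have hne' : shp 𝓕 κ ≠ shp 𝓕 κ' := fun he => hne (shp_inj 𝓕 κ κ' hκ hκ' he)
    have hex : ∃ h ∈ shp 𝓕 κ, h ∉ shp 𝓕 κ' := by
      by_contra hcon
      push Not at hcon
      apply hne'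
      apply Finset.eq_of_subset_of_card_le hcon
      rw [(hk _ (shp_mem 𝓕 κ hκ)).1, (hk _ (shp_mem 𝓕 κ' hκ')).1]
    obtain ⟨h, hh, hh'⟩ := hex
    left
    refine ⟨_, mem_FS.2 ⟨h, hh, rfl⟩, ?_⟩
    intro L' hL'
    obtain ⟨h', hh'', rfl⟩ := mem_FS.1 hL'
    simp only
    intro hcon
    apply hh'
    have : (h' : ℤ) = h := by push_cast at hcon; linarith
    have h5 : h' = h := by exact_mod_cast this
    rw [← h5]
    exact hh''

lemma hs_iff (w κ n : ℕ) : Hs (fun κ => FS (shp 𝓕 κ)) w κ n ↔ ∀ h ∈ shp 𝓕 κ, Rgh w (n + h) := by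
  unfold Hs Rgh
  constructor
  · intro h1 h hh p hp hpw hd
    exact h1 _ (mem_FS.2 ⟨h, hh, rfl⟩) p hp hpw ((form_iff p n h).2 hd)
  · intro h1 L hL p hp hpw hd
    obtain ⟨h, hh, rfl⟩ := mem_FS.1 hL
    exact h1 h hh p hp hpw ((form_iff p n h).1 hd)

lemma blk_uniq (hk : ∀ S ∈ 𝓕, S.card = k ∧ 0 ∈ S ∧ ∀ h ∈ S, h ≤ H) (w n : ℕ) (S S' : Finset ℕ) (hS : S ∈ 𝓕)
    (hS' : S' ∈ 𝓕) (h1 : Blk w S n) (h2 : Blk w S' n) : S = S' := by
  have key : ∀ S S' : Finset ℕ, S ∈ 𝓕 → S' ∈ 𝓕 → Blk w S n → Blk w S' n → S.sup id ≤ S'.sup id → S = S' := by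
    intro S S' hS hS' h1 h2 hle
    apply Finset.eq_of_subset_of_card_le
    · intro h hh
      have h3 : h ≤ S.sup id := Finset.le_sup (f := id) hh
      exact (h2 h (h3.trans hle)).1 ((h1 h h3).2 hh)
    · rw [(hk S hS).1, (hk S' hS').1]
  rcases le_total (S.sup id) (S'.sup id) with h | h
  · exact key S S' hS hS' h1 h2 h
  · exact (key S' S hS' hS h2 h1 h).symm

/-- the number of the residues of the shape `S` -/
lemma card_res (N κ : ℕ) : (((Rk (fun κ => FS (shp 𝓕 κ)) (prm N) κ (range (prm N))).card : ℕ) : ℝ) / (prm N : ℝ) =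
    ∏ p ∈ pz N, (1 - (nuS (shp 𝓕 κ) p : ℝ) / p) := by
  classical
  have h1 : (Rk (fun κ => FS (shp 𝓕 κ)) (prm N) κ (range (prm N))).card =
      ∏ p ∈ pz N, ((range p).filter (fun a => ∀ h ∈ shp 𝓕 κ, ¬ p ∣ a + h)).card := by
    rw [← crt_card (fun p a => ∀ h ∈ shp 𝓕 κ, ¬ p ∣ a + h) (pz N) (fun p hp => (mem_pz.1 hp).2)]
    unfold Rk
    congr 1
    ext c
    rw [mem_filter, mem_filter, mem_range, mem_range]
    have hprm : ∏ p ∈ pz N, p = prm N := rfl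
    rw [hprm]
    constructor
    · rintro ⟨a1, _, a3⟩
      refine ⟨a1, ?_⟩
      intro p hp h hh hd
      have hpp := (mem_pz.1 hp).2
      refine a3 p hpp ((prime_prm N p hpp).2 (mem_pz.1 hp).1) _ (mem_FS.2 ⟨h, hh, rfl⟩) ?_
      rw [form_iff, Pool.Agent.U98.TY.dvd_mod_iff]
      exact hd
    · rintro ⟨a1, a2⟩
      refine ⟨a1, a1, ?_⟩
      intro p hp hpq L hL hd
      obtain ⟨h, hh, rfl⟩ := mem_FS.1 hL
      rw [form_iff, Pool.Agent.U98.TY.dvd_mod_iff] at hd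
      exact a2 p (mem_pz.2 ⟨(prime_prm N p hp).1 hpq, hp⟩) h hh hd
  have h2 : ∀ p ∈ pz N, (((range p).filter (fun a => ∀ h ∈ shp 𝓕 κ, ¬ p ∣ a + h)).card : ℝ) =
      (p : ℝ) * (1 - (nuS (shp 𝓕 κ) p : ℝ) / p) := by
    intro p hp
    have hpp := (mem_pz.1 hp).2
    have hp0 : (p : ℝ) ≠ 0 := by exact_mod_cast hpp.ne_zero
    have h3 : ((range p).filter (fun a => ∀ h ∈ shp 𝓕 κ, ¬ p ∣ a + h)).card + nuS (shp 𝓕 κ) p = p := by
      have h4 : ((range p).filter (fun a => ∃ h ∈ shp 𝓕 κ, p ∣ a + h)).card = nuS (shp 𝓕 κ) p := by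
        rw [← nuB_FS _ p hpp]
        unfold nuB
        congr 1
        ext a
        rw [mem_filter, mem_filter, QS_FS]
      have h5 := Finset.card_filter_add_card_filter_not (s := range p) (fun a => ∃ h ∈ shp 𝓕 κ, p ∣ a + h)
      rw [card_range, h4] at h5
      have h6 : (range p).filter (fun a => ¬ ∃ h ∈ shp 𝓕 κ, p ∣ a + h) =
          (range p).filter (fun a => ∀ h ∈ shp 𝓕 κ, ¬ p ∣ a + h) := by
        ext a
        rw [mem_filter, mem_filter]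
        push Not
        rfl
      rw [h6] at h5
      omega
    have h7 : (((range p).filter (fun a => ∀ h ∈ shp 𝓕 κ, ¬ p ∣ a + h)).card : ℝ) + nuS (shp 𝓕 κ) p = p := by
      exact_mod_cast h3
    rw [mul_sub, mul_one, mul_div_cancel₀ _ hp0]
    linarith
  rw [h1, Nat.cast_prod, Finset.prod_congr rfl h2, Finset.prod_mul_distrib]
  have h3 : (prm N : ℝ) = ∏ p ∈ pz N, (p : ℝ) := by
    unfold prm
    rw [Nat.cast_prod]
  have h4 : (0 : ℝ) < prm N := by exact_mod_cast prm_pos N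
  rw [← h3, mul_comm, mul_div_assoc, div_self h4.ne', mul_one]

/-- the density in terms of the residues -/
lemma dS_eq (hk : ∀ S ∈ 𝓕, S.card = k ∧ 0 ∈ S ∧ ∀ h ∈ S, h ≤ H) (N w κ : ℕ) (hN1 : H + 1 ≤ N) (hNw : N ≤ w)
    (hκ : κ < 𝓕.card) : dS w (shp 𝓕 κ) =
      (((Rk (fun κ => FS (shp 𝓕 κ)) (prm N) κ (range (prm N))).card : ℕ) : ℝ) / (prm N : ℝ) *
      ∏ p ∈ (Icc 1 w).filter (fun p => p.Prime ∧ ¬ p ∣ prm N), (1 - (k : ℝ) / p) := by
  classical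
  rw [card_res]
  unfold dS
  rw [← Finset.prod_filter_mul_prod_filter_not ((Icc 1 w).filter Nat.Prime) (fun p => p ≤ N)]
  congr 1
  · apply prod_congr _ (fun _ _ => rfl)
    ext p
    rw [mem_filter, mem_filter, mem_Icc, mem_pz]
    constructor
    · rintro ⟨⟨_, h2⟩, h3⟩
      exact ⟨h3, h2⟩
    · rintro ⟨h1, h2⟩
      exact ⟨⟨⟨h2.one_lt.le, by omega⟩, h2⟩, h1⟩
  · have h1 : ((Icc 1 w).filter Nat.Prime).filter (fun p => ¬ p ≤ N) =
        (Icc 1 w).filter (fun p => p.Prime ∧ ¬ p ∣ prm N) := by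
      ext p
      rw [mem_filter, mem_filter, mem_filter]
      constructor
      · rintro ⟨⟨h1, h2⟩, h3⟩
        exact ⟨h1, h2, by rw [prime_prm N p h2]; exact h3⟩
      · rintro ⟨h1, h2, h3⟩
        rw [prime_prm N p h2] at h3
        exact ⟨⟨h1, h2⟩, h3⟩
    rw [h1]
    apply prod_congr rfl
    intro p hp
    rw [mem_filter] at hp
    have h2 := hp.2.2
    rw [prime_prm N p hp.2.1] at h2
    obtain ⟨h3, _, h4⟩ := hk _ (shp_mem 𝓕 κ hκ)
    rw [nuS_large _ H p h4 (by omega), h3]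

end

open Classical in
/-- **The law of the shapes of consecutive blocks.** -/
theorem law_family (k l : ℕ) (𝓕 : Finset (Finset ℕ)) (hk : ∀ S ∈ 𝓕, S.card = k ∧ 0 ∈ S)
    (hadm : ∃ S ∈ 𝓕, ∀ p : ℕ, p.Prime → nuS S p < p) (ε : ℝ) (hε : 0 < ε) :
    ∃ K w₀ : ℕ, ∀ w : ℕ, w₀ ≤ w → ∀ Z Y : ℕ, w ^ K ≤ Y → ∀ (σ : ℕ → Finset ℕ) (s T : ℕ → ℕ), (∀ j ≤ l, σ j ∈ 𝓕) →
      (∀ j < l, s j ≤ T j) → ∀ D : ℝ, D = ∑ S ∈ 𝓕, dS w S →
      |(cB w 𝓕 l σ s T Z Y : ℝ) - D * Y * (∏ j ∈ range (l + 1), dS w (σ j) / D) *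
          ∏ j ∈ range l, (Real.exp (-(D * s j)) - Real.exp (-(D * T j)))| ≤ ε * (D * Y) := by
  obtain ⟨H, hH⟩ : ∃ H : ℕ, H = 𝓕.sup (fun S => S.sup id) := ⟨_, rfl⟩
  have hk' : ∀ S ∈ 𝓕, S.card = k ∧ 0 ∈ S ∧ ∀ h ∈ S, h ≤ H := by
    intro S hS
    refine ⟨(hk S hS).1, (hk S hS).2, ?_⟩
    intro h hh
    have h1 : h ≤ S.sup id := Finset.le_sup (f := id) hh
    have h2 : S.sup id ≤ H := by rw [hH]; exact Finset.le_sup (f := fun S : Finset ℕ => S.sup id) hS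
    exact h1.trans h2
  obtain ⟨S0, hS0, hadm0⟩ := hadm
  have h𝓕 : 1 ≤ 𝓕.card := Nat.one_le_iff_ne_zero.2 (Finset.card_ne_zero.2 ⟨S0, hS0⟩)
  obtain ⟨N, hN⟩ : ∃ N : ℕ, N = H + 1 + 𝓕.card := ⟨_, rfl⟩
  have hN1 : H + 1 ≤ N := by omega
  have hN2 : 𝓕.card ≤ N := by omega
  obtain ⟨q, hq⟩ : ∃ q, q = prm N := ⟨_, rfl⟩
  obtain ⟨r, hr⟩ : ∃ r, r = 𝓕.card := ⟨_, rfl⟩
  have hK := kinds_family hk' h𝓕 N hN1 hN2
  rw [← hq, ← hr] at hK
  have hq1 : 1 ≤ q := by rw [hq]; exact prm_pos N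
  have hr1 : 1 ≤ r := by rw [hr]; exact h𝓕
  have hq0 : (0 : ℝ) < q := by exact_mod_cast hq1
  obtain ⟨KK, hKK⟩ : ∃ KK : ℕ → Finset (ℕ × ℤ), KK = fun κ => FS (shp 𝓕 κ) := ⟨_, rfl⟩
  rw [← hKK] at hK
  -- the total number of residues
  have hRsum := card_Bk (K := KK) (q := q) hr1
  have hcardS : ∀ κ, (((Rk KK q κ (range q)).card : ℕ) : ℝ) / (q : ℝ) = ∏ p ∈ pz N, (1 - (nuS (shp 𝓕 κ) p : ℝ) / p) := by
    intro κ
    rw [hKK, hq]
    exact card_res N κ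
  have hB1 : 1 ≤ (Bk KK q r).card := by
    obtain ⟨κ0, hκ0, hsh⟩ := shp_surj 𝓕 S0 hS0
    have h1 := hcardS κ0
    have h2 : 0 < ∏ p ∈ pz N, (1 - (nuS (shp 𝓕 κ0) p : ℝ) / p) := by
      apply prod_pos
      intro p hp
      have hpp := (mem_pz.1 hp).2
      have hp0 : (0 : ℝ) < p := by exact_mod_cast hpp.pos
      rw [sub_pos, div_lt_one hp0, hsh]
      exact_mod_cast hadm0 p hpp
    rw [← h1] at h2
    have h3 : 0 < (Rk KK q κ0 (range q)).card := by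
      rcases Nat.eq_zero_or_pos (Rk KK q κ0 (range q)).card with h4 | h4
      · rw [h4] at h2
        simp at h2
      · exact h4
    rw [hRsum]
    calc 1 ≤ (Rk KK q κ0 (range q)).card := h3
      _ ≤ _ := Finset.single_le_sum (f := fun κ => (Rk KK q κ (range q)).card) (fun _ _ => Nat.zero_le _)
          (mem_range.2 (by rw [hr]; exact hκ0))
  obtain ⟨ε1, hε1, K0, y1, hlaw⟩ := law_kinds l hq1 hK hB1 ε hε
  -- additional rough numbers
  have hbd : ∀ κ < r, ∀ L ∈ KK κ, 1 ≤ L.1 ∧ L.1 ≤ H + 1 ∧ |L.2| ≤ ((H + 1 : ℕ) : ℤ) := by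
    intro κ hκ L hL
    obtain ⟨b1, b2, b3, b4⟩ := hK.bd κ hκ L hL
    exact ⟨b1, b2, by rw [abs_of_nonneg b3]; exact b4⟩
  have hex : ∀ κ h : ℕ, ∃ K' y' : ℕ, κ < r → h ≤ H → h ∉ shp 𝓕 κ → ∀ y : ℕ, y' ≤ y → ∀ Z Y : ℕ, y ^ K' ≤ Y →
      ∀ V : ℝ, V = ∏ p ∈ (Icc 1 y).filter (fun p => p.Prime ∧ ¬ p ∣ q), (1 - (k : ℝ) / p) →
      ∀ F : Finset ℕ, F ⊆ Ioc Z (Z + Y) → (∀ n ∈ F, Hs KK y κ n ∧ Rgh y (n + h)) →
      (F.card : ℝ) ≤ ε1 / (H + 1) * (V * Y) := by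
    intro κ h
    by_cases hc : κ < r ∧ h ≤ H ∧ h ∉ shp 𝓕 κ
    · obtain ⟨hκ, hhH, hh⟩ := hc
      obtain ⟨K', y', h1⟩ := rare_form (H + 1) q 0 (KK κ) (1, (h : ℤ)) (fun _ => k) hq1 (hbd κ hκ)
        ⟨le_rfl, by omega, by
          show |(h : ℤ)| ≤ ((H + 1 : ℕ) : ℤ)
          rw [abs_of_nonneg (by positivity)]
          exact_mod_cast (by omega : h ≤ H + 1)⟩ (hK.om κ hκ) hK.adm (by
          intro L hL
          rw [hKK] at hL
          obtain ⟨h', hh', rfl⟩ := mem_FS.1 hL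
          simp only
          intro hcon
          apply hh
          have h5 : (h : ℤ) = h' := by push_cast at hcon; linarith
          have h6 : h = h' := by exact_mod_cast h5
          rw [h6]
          exact hh') (ε1 / (H + 1)) (by positivity)
      refine ⟨K', y', ?_⟩
      intro _ _ _ y hy Z Y hY V hV F hF hF2
      apply h1 y hy Z Y hY V hV F hF
      intro n hn
      obtain ⟨h2, h3⟩ := hF2 n hn
      refine ⟨h2, ?_⟩
      intro p hp _ hpy hd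
      simp only at hd
      exact h3 p hp hpy ((form_iff p n h).1 hd)
    · refine ⟨0, 0, ?_⟩
      intro h1 h2 h3
      exact absurd ⟨h1, h2, h3⟩ hc
  choose K' y' hex' using hex
  obtain ⟨Ks, hKs⟩ : ∃ Ks, Ks = ∑ κ ∈ range r, ∑ h ∈ range (H + 1), K' κ h := ⟨_, rfl⟩
  obtain ⟨ys, hys⟩ : ∃ ys, ys = ∑ κ ∈ range r, ∑ h ∈ range (H + 1), y' κ h := ⟨_, rfl⟩
  have hle : ∀ (f : ℕ → ℕ → ℕ), ∀ κ < r, ∀ h ≤ H, f κ h ≤ ∑ κ ∈ range r, ∑ h ∈ range (H + 1), f κ h := by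
    intro f κ hκ h hh
    calc f κ h ≤ ∑ h ∈ range (H + 1), f κ h :=
          Finset.single_le_sum (f := fun h => f κ h) (fun _ _ => Nat.zero_le _) (mem_range.2 (by omega))
      _ ≤ _ := Finset.single_le_sum (f := fun κ => ∑ h ∈ range (H + 1), f κ h) (fun _ _ => Nat.zero_le _)
          (mem_range.2 hκ)
  refine ⟨K0 + Ks, max (max y1 ys) (max N 1), ?_⟩
  intro w hw Z Y hY σ s T hσ hsT D hD
  have b1 : y1 ≤ w := (le_max_left _ _).trans ((le_max_left _ _).trans hw)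
  have b2 : ys ≤ w := (le_max_right _ _).trans ((le_max_left _ _).trans hw)
  have b3 : N ≤ w := (le_max_left _ _).trans ((le_max_right _ _).trans hw)
  have b4 : 1 ≤ w := (le_max_right _ _).trans ((le_max_right _ _).trans hw)
  have hY1 : w ^ K0 ≤ Y := (Nat.pow_le_pow_right b4 (by omega)).trans hY
  obtain ⟨V, hV⟩ : ∃ V : ℝ, V = ∏ p ∈ (Icc 1 w).filter (fun p => p.Prime ∧ ¬ p ∣ q), (1 - (k : ℝ) / p) := ⟨_, rfl⟩
  have hV0 : 0 < V := by
    rw [hV]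
    apply prod_pos
    intro p hp
    rw [mem_filter] at hp
    have hp0 : (0 : ℝ) < p := by exact_mod_cast hp.2.1.pos
    rw [sub_pos, div_lt_one hp0]
    exact_mod_cast hK.adm p hp.2.1 hp.2.2
  have hdS : ∀ κ < r, dS w (shp 𝓕 κ) = (((Rk KK q κ (range q)).card : ℕ) : ℝ) / (q : ℝ) * V := by
    intro κ hκ
    rw [hV, hKK, hq]
    exact dS_eq hk' N w κ hN1 b3 (by rw [← hr]; exact hκ)
  -- indices of the shapes
  choose! ι hι1 hι2 using shp_surj 𝓕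
  obtain ⟨M, hM⟩ : ∃ M : ℕ → ℕ → Prop, M = fun κ n => Blk w (shp 𝓕 κ) n := ⟨_, rfl⟩
  have hMsub : ∀ κ < r, ∀ n, M κ n → Hs KK w κ n := by
    intro κ _ n hn
    rw [hM] at hn
    rw [hKK, hs_iff]
    intro h hh
    exact (hn h (Finset.le_sup (f := id) hh)).2 hh
  have hMu : ∀ κ < r, ∀ κ' < r, ∀ n, M κ n → M κ' n → κ = κ' := by
    intro κ hκ κ' hκ' n h1 h2
    rw [hM] at h1 h2
    rw [hr] at hκ hκ'
    exact shp_inj 𝓕 κ κ' hκ hκ' (blk_uniq hk' w n _ _ (shp_mem 𝓕 κ hκ) (shp_mem 𝓕 κ' hκ') h1 h2)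
  have hMrare : ∀ κ < r, ∀ F : Finset ℕ, F ⊆ Ioc Z (Z + Y) → (∀ n ∈ F, Hs KK w κ n ∧ ¬ M κ n) →
      (F.card : ℝ) ≤ ε1 * (V * Y) := by
    intro κ hκ F hF hF2
    have hcov : F ⊆ (range (H + 1)).biUnion (fun h => F.filter (fun n => h ∉ shp 𝓕 κ ∧ Rgh w (n + h))) := by
      intro n hn
      obtain ⟨h1, h2⟩ := hF2 n hn
      rw [hKK, hs_iff] at h1
      rw [hM] at h2
      unfold Blk at h2
      push Not at h2
      obtain ⟨h, hh, h3⟩ := h2
      rw [mem_biUnion]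
      have hhH : h ≤ H := by
        have : (shp 𝓕 κ).sup id ≤ H := by
          apply Finset.sup_le
          intro x hx
          exact (hk' _ (shp_mem 𝓕 κ (by rw [← hr]; exact hκ))).2.2 x hx
        omega
      refine ⟨h, mem_range.2 (by omega), mem_filter.2 ⟨hn, ?_⟩⟩
      rcases h3 with ⟨h4, h5⟩ | ⟨h4, h5⟩
      · exact ⟨h5, h4⟩
      · exact absurd (h1 h h5) h4
    have h1 : (F.card : ℝ) ≤ ∑ h ∈ range (H + 1), ((F.filter (fun n => h ∉ shp 𝓕 κ ∧ Rgh w (n + h))).card : ℝ) := by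
      have := (card_le_card hcov).trans Finset.card_biUnion_le
      exact_mod_cast this
    refine h1.trans ?_
    have h2 : ∀ h ∈ range (H + 1), ((F.filter (fun n => h ∉ shp 𝓕 κ ∧ Rgh w (n + h))).card : ℝ) ≤
        ε1 / (H + 1) * (V * Y) := by
      intro h hh
      rw [mem_range] at hh
      by_cases hm : h ∈ shp 𝓕 κ
      · have : F.filter (fun n => h ∉ shp 𝓕 κ ∧ Rgh w (n + h)) = ∅ := by
          rw [filter_eq_empty_iff]
          rintro n _ ⟨h3, _⟩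
          exact h3 hm
        rw [this, card_empty, Nat.cast_zero]
        positivity
      · have hKle := hle K' κ hκ h (by omega)
        have hyle := hle y' κ hκ h (by omega)
        rw [← hKs] at hKle
        rw [← hys] at hyle
        apply hex' κ h hκ (by omega) hm w (hyle.trans b2) Z Y
          ((Nat.pow_le_pow_right b4 (by omega)).trans hY) V hV _ ((filter_subset _ _).trans hF)
        intro n hn
        rw [mem_filter] at hn
        exact ⟨(hF2 n hn.1).1, hn.2.2⟩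
    refine (Finset.sum_le_sum h2).trans ?_
    rw [Finset.sum_const, card_range, nsmul_eq_mul]
    push_cast
    apply le_of_eq
    field_simp
  -- the law
  have hσr : ∀ j ≤ l, ι (σ j) < r := by
    intro j hj
    rw [hr]
    exact hι1 _ (hσ j hj)
  have hmain := hlaw w b1 Z Y hY1 V hV M hMsub hMu hMrare (fun j => ι (σ j)) (fun _ => range q) s T hσr hsT
    ((Bk KK q r).card : ℝ) (((Bk KK q r).card : ℝ) / q * V) rfl rfl
  have hR0 : (0 : ℝ) < (Bk KK q r).card := by exact_mod_cast hB1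
  have hDD : D = ((Bk KK q r).card : ℝ) / q * V := by
    rw [hD, hRsum]
    push_cast
    rw [Finset.sum_div, Finset.sum_mul]
    have h1 : ∑ S ∈ 𝓕, dS w S = ∑ κ ∈ range r, dS w (shp 𝓕 κ) := by
      symm
      apply Finset.sum_bij (fun κ _ => shp 𝓕 κ)
      · intro κ hκ
        rw [mem_range, hr] at hκ
        exact shp_mem 𝓕 κ hκ
      · intro κ hκ κ' hκ' he
        rw [mem_range, hr] at hκ hκ'
        exact shp_inj 𝓕 κ κ' hκ hκ' he
      · intro S hS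
        refine ⟨ι S, ?_, hι2 S hS⟩
        rw [mem_range, hr]
        exact hι1 S hS
      · intro κ _
        rfl
    rw [h1]
    apply Finset.sum_congr rfl
    intro κ hκ
    rw [mem_range] at hκ
    exact hdS κ hκ
  rw [← hDD] at hmain
  have hD0 : 0 < D := by rw [hDD]; positivity
  have hprod : ∏ j ∈ range (l + 1), ((Rk KK q (ι (σ j)) (range q)).card : ℝ) / ((Bk KK q r).card : ℝ) =
      ∏ j ∈ range (l + 1), dS w (σ j) / D := by
    apply prod_congr rfl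
    intro j hj
    rw [mem_range] at hj
    have h1 := hdS (ι (σ j)) (hσr j (by omega))
    rw [hι2 _ (hσ j (by omega))] at h1
    rw [h1, hDD]
    field_simp
  rw [hprod] at hmain
  have hcount : cK r q l M (fun j => ι (σ j)) (fun _ => range q) s T Z Y = cB w 𝓕 l σ s T Z Y := by
    have hN' : ∀ n, Nk r M n ↔ ∃ S ∈ 𝓕, Blk w S n := by
      intro n
      unfold Nk
      rw [hM]
      constructor
      · rintro ⟨κ, hκ, h⟩
        exact ⟨_, shp_mem 𝓕 κ (by rw [← hr]; exact hκ), h⟩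
      · rintro ⟨S, hS, h⟩
        refine ⟨ι S, by rw [hr]; exact hι1 S hS, ?_⟩
        simp only
        rw [hι2 S hS]
        exact h
    have hnx : nxt (Nk r M) = nxB w 𝓕 := by
      funext n
      unfold nxt nxB
      congr 1
      ext m
      simp only [Set.mem_ofPred_eq]
      rw [hN' m]
    unfold cK cB
    rw [hnx]
    congr 1
    ext n
    simp only [Set.mem_ofPred_eq]
    have hMj : ∀ j ≤ l, ∀ m, M (ι (σ j)) m ↔ Blk w (σ j) m := by
      intro j hj m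
      rw [hM]
      simp only
      rw [hι2 _ (hσ j hj)]
    constructor
    · rintro ⟨a1, a2, _, a4, a5⟩
      exact ⟨a1, a2, fun j hj => (hMj j hj _).1 (a4 j hj).1, a5⟩
    · rintro ⟨a1, a2, a4, a5⟩
      refine ⟨a1, a2, ?_, ?_, a5⟩
      · rw [hN']
        exact ⟨σ 0, hσ 0 (Nat.zero_le _), a4 0 (Nat.zero_le _)⟩
      · intro j hj
        exact ⟨(hMj j hj _).2 (a4 j hj), mem_range.2 (Nat.mod_lt _ hq1)⟩
  rw [hcount] at hmain
  exact hmain

end Pool.Agent.U98.TZ
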