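import Mathlib
import Pool.Agent.U98.TZ.B8
import Pool.Agent.R463.EX9

set_option autoImplicit false

/-!
# Exact blocks of rough numbers with a prime at a given place

A restatement of `R463.EX.prime_rough` with the densities `dS`.
-/

namespace Pool.Agent.U98.TZ

open Finset Pool.Agent.U98.TY Pool.Agent.H373R2.T7 Pool.Agent.TH464.PO Pool.Agent.W123.RP

/-- the number of the `n ∈ (u, u + Y]` such that the rough numbers in `[n, n + L]` are the numbers `n + i`, `i ∈ S`, and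
`n + b` is prime -/
noncomputable def pcL (w : ℕ) (S : Finset ℕ) (b L u Y : ℕ) : ℕ :=
  Set.ncard {n : ℕ | u < n ∧ n ≤ u + Y ∧ (∀ i ≤ L, (Rgh w (n + i) ↔ i ∈ S)) ∧ (n + b).Prime}

open Classical in
theorem prime_block (g : ℕ) (hg : 1 ≤ g) (x0 ε δ : ℝ) (hε : 0 < ε) (hδ : 0 < δ) (hδ1 : δ ≤ 1) :
    ∃ r w₀ : ℕ, ∀ w : ℕ, w₀ ≤ w → ∀ X : ℕ, w ^ r ≤ X → ∀ S : Finset ℕ, S.card = g → 0 ∈ S →
      ∀ b ∈ S, ∀ L : ℕ, S ⊆ range (L + 1) → L * Vz w ≤ x0 →
      ∀ u Y : ℕ, δ * X ≤ u → δ * X ≤ Y → u + Y ≤ X →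
        |(pcL w S b L u Y : ℝ) * Real.log X - Y * (dS w S / Vz w) * Real.exp (-(L * Vz w))| ≤
          ε * (Y * (dS w S / Vz w) * Real.exp (-(L * Vz w))) := by
  obtain ⟨r, y0, hmain⟩ := Pool.Agent.R463.EX.prime_rough g hg x0 ε δ hε hδ hδ1
  refine ⟨r, y0, ?_⟩
  intro w hw X hX S hS h0 b hb L hL hLV u Y hu hY huY
  have hVQ : Vq Pool.Agent.R463.EX.Qi w = Vz w := Pool.Agent.R463.EX.Vz_Qi w
  have h1 := hmain w hw X hX S hS h0 b hb L hL (by rw [hVQ]; exact hLV) u Y hu hY huY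
  have hcount : Pool.Agent.R463.EX.exP 1 b Pool.Agent.R463.EX.Qi S L w u Y = pcL w S b L u Y := by
    unfold Pool.Agent.R463.EX.exP pcL
    rw [← Set.ncard_coe_finset]
    congr 1
    ext n
    rw [Finset.mem_coe, mem_filter, mem_Ioc, one_mul]
    have hSf : ∀ m, Pool.Agent.TH464.PO.Sf Pool.Agent.R463.EX.Qi w m ↔ Rgh w m := by
      intro m
      unfold Pool.Agent.TH464.PO.Sf Rgh Pool.Agent.R463.EX.Qi
      constructor
      · intro h2 p hp hpw
        exact h2 p (mem_pz.2 ⟨hpw, hp⟩)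
      · intro h2 p hp
        exact h2 p (mem_pz.1 hp).2 (mem_pz.1 hp).1
    simp only [hSf]
    constructor
    · rintro ⟨⟨a1, a2⟩, a3, a4⟩
      exact ⟨a1, a2, fun i hi => a4 i hi, a3⟩
    · rintro ⟨a1, a2, a3, a4⟩
      exact ⟨⟨a1, a2⟩, a4, fun i hi => a3 i hi⟩
  have hVH : Vq (Pool.Agent.TH464.PO.QH Pool.Agent.R463.EX.Qi S) w = dS w S := by
    unfold Vq dS
    apply prod_congr rfl
    intro p hp
    rw [Pool.Agent.R463.EX.nuB_QH_Qi S p (mem_pz.1 hp).2]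
    rfl
  rw [hcount, hVH, hVQ] at h1
  exact h1

/-- `L` is at most `w` if `L * V` is bounded -/
theorem len_le (x0 : ℝ) : ∃ w₀ : ℕ, ∀ w : ℕ, w₀ ≤ w → ∀ L : ℕ, L * Vz w ≤ x0 → L ≤ w := by
  obtain ⟨c1, C1, hc1, hC1, hVz⟩ := Pool.Agent.W123.RP.Vz_bounds
  have h := (Real.isLittleO_log_id_atTop.comp_tendsto tendsto_natCast_atTop_atTop).bound
    (show (0 : ℝ) < 1 / (|x0 / c1| + 1) by positivity)
  obtain ⟨w1, hw1⟩ := Filter.eventually_atTop.1 h
  refine ⟨max w1 3, ?_⟩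
  intro w hw L hL
  have b1 : w1 ≤ w := (le_max_left _ _).trans hw
  have b2 : 3 ≤ w := (le_max_right _ _).trans hw
  have hw0 : (3 : ℝ) ≤ w := by exact_mod_cast b2
  have hl0 : 0 < Real.log (w : ℝ) := Real.log_pos (by linarith)
  have h2 := (hVz w (by omega)).1
  have h3 := hw1 w b1
  simp only [Function.comp_def, id] at h3
  rw [Real.norm_of_nonneg hl0.le, Real.norm_of_nonneg (by linarith), one_div, inv_mul_eq_div,
    le_div_iff₀ (by positivity)] at h3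
  have h4 : (L : ℝ) * (c1 / Real.log w) ≤ x0 := le_trans (mul_le_mul_of_nonneg_left h2 (Nat.cast_nonneg L)) hL
  have h5 : (L : ℝ) * c1 ≤ x0 * Real.log w := by
    rw [mul_div_assoc', div_le_iff₀ hl0] at h4
    exact h4
  have h6 : (L : ℝ) ≤ x0 / c1 * Real.log w := by
    rw [div_mul_eq_mul_div, le_div_iff₀ hc1]
    exact h5
  have h7 : x0 / c1 * Real.log w ≤ |x0 / c1| * Real.log w := mul_le_mul_of_nonneg_right (le_abs_self _) hl0.le
  have h8 : (L : ℝ) ≤ w := by nlinarith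
  exact_mod_cast h8

end Pool.Agent.U98.TZ
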