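import Mathlib
import Pool.Agent.U98.TZ.E1

set_option autoImplicit false

/-!
# The sieve conditions for the numbers `n` and `2 k n + 1`

The inverse modulo `p` turns the conditions for `n` and `2 k n + 1`, `k ∈ T`, into the conditions for `n` and
`n + 2 k`, `k ∈ T`.
-/

namespace Pool.Agent.U98.TZ

open Finset Filter Pool.Agent.H373R2.T7 Pool.Agent.W123.RP Pool.Agent.W123.RU Pool.Agent.TH464.PO
open Pool.Agent.R463.PP Pool.Agent.Y879.PR Pool.Agent.R463.EX

/-- one of the numbers `n`, `2 k n + 1`, `k ∈ T`, is divisible by `p` -/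
def QM (T : Finset ℕ) (p n : ℕ) : Prop := p ∣ n ∨ ∃ k ∈ T, p ∣ 2 * k * n + 1

/-- the set of the `2 k`, `k ∈ T` -/
def dT (T : Finset ℕ) : Finset ℕ := T.image (fun k => 2 * k)

lemma qm_iff (T : Finset ℕ) (p : ℕ) (hp : p.Prime) (r : ℕ) :
    QM T p r ↔ QH Qi ({0} ∪ dT T) p ((r : ZMod p)⁻¹).val := by
  have := Fact.mk hp
  unfold QM QH Qi
  have hcast : ∀ h : ℕ, p ∣ ((r : ZMod p)⁻¹).val + h ↔ (r : ZMod p)⁻¹ + (h : ZMod p) = 0 := by
    intro h
    rw [← ZMod.natCast_eq_zero_iff]
    push_cast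
    rw [ZMod.natCast_zmod_val]
  have h0 : p ∣ r ↔ (r : ZMod p) = 0 := (ZMod.natCast_eq_zero_iff r p).symm
  have h1 : ∀ k : ℕ, p ∣ 2 * k * r + 1 ↔ (2 * k : ZMod p) * r + 1 = 0 := by
    intro k
    rw [← ZMod.natCast_eq_zero_iff]
    push_cast
    rfl
  simp only [hcast, h0, h1]
  constructor
  · rintro (h | ⟨k, hk, h⟩)
    · exact ⟨0, by simp, by rw [h]; simp⟩
    · have hr : (r : ZMod p) ≠ 0 := by
        intro hr
        rw [hr] at h
        simp at h
      refine ⟨2 * k, mem_union_right _ (mem_image_of_mem _ hk), ?_⟩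
      push_cast
      have : (r : ZMod p)⁻¹ + 2 * k = (r : ZMod p)⁻¹ * (2 * k * r + 1) := by
        field_simp
        ring
      rw [this, h, mul_zero]
  · rintro ⟨h, hh, he⟩
    unfold dT at hh
    rw [mem_union, mem_singleton, mem_image] at hh
    rcases hh with rfl | ⟨k, hk, rfl⟩
    · left
      simpa using he
    · by_cases hr : (r : ZMod p) = 0
      · left; exact hr
      · right
        refine ⟨k, hk, ?_⟩
        push_cast at he
        have : (2 * k : ZMod p) * r + 1 = r * ((r : ZMod p)⁻¹ + 2 * k) := by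
          field_simp
          ring
        rw [this, he, mul_zero]

open Classical in
lemma nuB_QM (T : Finset ℕ) (p : ℕ) (hp : p.Prime) : nuB (QM T) p = nuB (QH Qi ({0} ∪ dT T)) p := by
  have := Fact.mk hp
  unfold nuB
  have hinv : ∀ r : ℕ, r < p → ((((((r : ZMod p)⁻¹).val : ℕ) : ZMod p))⁻¹).val = r := by
    intro r hr
    rw [ZMod.natCast_zmod_val, inv_inv, ZMod.val_natCast_of_lt hr]
  refine Finset.card_bij' (fun (r : ℕ) _ => ((r : ZMod p)⁻¹).val) (fun (r : ℕ) _ => ((r : ZMod p)⁻¹).val) ?_ ?_ ?_ ?_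
  · intro r hr
    rw [mem_filter] at hr ⊢
    exact ⟨mem_range.2 (ZMod.val_lt _), (qm_iff T p hp r).1 hr.2⟩
  · intro r hr
    rw [mem_filter, mem_range] at hr
    rw [mem_filter]
    refine ⟨mem_range.2 (ZMod.val_lt _), (qm_iff T p hp _).2 ?_⟩
    rw [hinv r hr.1]
    exact hr.2
  · intro r hr
    rw [mem_filter, mem_range] at hr
    exact hinv r hr.1
  · intro r hr
    rw [mem_filter, mem_range] at hr
    exact hinv r hr.1

lemma Vq_QM (T : Finset ℕ) (y : ℕ) : Vq (QM T) y = Vq (QH Qi ({0} ∪ dT T)) y := by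
  unfold Vq
  apply prod_congr rfl
  intro p hp
  rw [nuB_QM T p (mem_pz.1 hp).2]

lemma perB_QM (T : Finset ℕ) : PerB (QM T) (T.card + 1) := by
  refine ⟨?_, ?_⟩
  · intro p n
    have h : ∀ k : ℕ, (p ∣ 2 * k * n + 1 ↔ p ∣ 2 * k * (n % p) + 1) := by
      intro k
      have h1 : 2 * k * n + 1 ≡ 2 * k * (n % p) + 1 [MOD p] :=
        Nat.ModEq.add_right 1 (Nat.ModEq.mul_left _ (Nat.mod_modEq n p).symm)
      exact h1.dvd_iff dvd_rfl
    unfold QM
    simp only [h, Nat.dvd_mod_iff dvd_rfl]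
  · intro p hp
    rw [nuB_QM T p hp, nuB_QH_Qi _ p hp]
    refine card_image_le.trans ?_
    refine (card_union_le _ _).trans ?_
    unfold dT
    have := card_image_le (s := T) (f := fun k => 2 * k)
    rw [card_singleton]
    omega

lemma base_QM (T : Finset ℕ) (c : ℕ) (hc : T.card + 1 ≤ c) : Base 1 0 c (QM T) := by
  refine ⟨⟨(perB_QM T).per, fun p hp => ((perB_QM T).few p hp).trans hc⟩, ?_, ?_⟩
  · intro p n hp hp1
    exact absurd (Nat.dvd_one.1 hp1) hp.one_lt.ne'
  · intro p n _ _ hn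
    rw [one_mul, add_zero] at hn
    exact Or.inl hn

lemma sf_QM (T : Finset ℕ) (y n : ℕ) : Sf (QM T) y n ↔ Sf Qi y n ∧ ∀ k ∈ T, Sf Qi y (2 * k * n + 1) := by
  unfold Sf QM Qi
  constructor
  · intro h
    exact ⟨fun p hp hd => h p hp (Or.inl hd), fun k hk p hp hd => h p hp (Or.inr ⟨k, hk, hd⟩)⟩
  · rintro ⟨h1, h2⟩ p hp (hd | ⟨k, hk, hd⟩)
    · exact h1 p hp hd
    · exact h2 k hk p hp hd

open Classical in
/-- the number of the multipliers `k ∈ W` for which `2 k n + 1` has no prime factors `≤ y` -/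
noncomputable def NM (y : ℕ) (W : Finset ℕ) (n : ℕ) : ℕ := (W.filter (fun k => Sf Qi y (2 * k * n + 1))).card

open Classical in
lemma omM (T S : Finset ℕ) (y u Y : ℕ) :
    Om 1 0 (QM (T ∪ S)) y u Y = (Om 1 0 (QM T) y u Y).filter (fun n => ∀ k ∈ S, Sf Qi y (2 * k * n + 1)) := by
  unfold Om
  rw [Finset.filter_filter]
  apply Finset.filter_congr
  intro m _
  rw [sf_QM, sf_QM]
  constructor
  · rintro ⟨h0, h1, h2⟩
    exact ⟨⟨h0, h1, fun x hx => h2 x (mem_union_left _ hx)⟩, fun x hx => h2 x (mem_union_right _ hx)⟩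
  · rintro ⟨⟨h0, h1, h2⟩, h3⟩
    refine ⟨h0, h1, fun x hx => ?_⟩
    rcases mem_union.1 hx with h | h
    · exact h2 x h
    · exact h3 x h

open Classical in
lemma momM_eq (T W : Finset ℕ) (y u Y k : ℕ) :
    ∑ n ∈ Om 1 0 (QM T) y u Y, ((NM y W n).choose k : ℝ) =
      ∑ S ∈ powersetCard k W, ((Om 1 0 (QM (T ∪ S)) y u Y).card : ℝ) := by
  have h1 : ∀ S ∈ powersetCard k W, ((Om 1 0 (QM (T ∪ S)) y u Y).card : ℝ) =
      ∑ n ∈ Om 1 0 (QM T) y u Y, if (∀ h ∈ S, Sf Qi y (2 * h * n + 1)) then (1 : ℝ) else 0 := by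
    intro S _
    rw [omM, Finset.sum_ite, Finset.sum_const_zero, add_zero, Finset.sum_const, nsmul_eq_mul, mul_one]
  rw [Finset.sum_congr rfl h1, Finset.sum_comm]
  apply Finset.sum_congr rfl
  intro m _
  rw [Finset.sum_ite, Finset.sum_const_zero, add_zero, Finset.sum_const, nsmul_eq_mul, mul_one]
  unfold NM
  rw [← Finset.card_powersetCard]
  congr 2
  ext S
  rw [mem_filter, mem_powersetCard, mem_powersetCard]
  constructor
  · rintro ⟨a1, a2⟩
    exact ⟨⟨fun h hh => (mem_filter.1 (a1 hh)).1, a2⟩, fun h hh => (mem_filter.1 (a1 hh)).2⟩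
  · rintro ⟨⟨a1, a2⟩, a3⟩
    exact ⟨fun h hh => mem_filter.2 ⟨a1 hh, a3 h hh⟩, a2⟩

/-- the numbers `2 k - 1` and `2 k`, `k ∈ W` -/
def dbl (K : ℕ) (W : Finset ℕ) : Finset ℕ := (Icc 1 (2 * K)).filter (fun h => (h + 1) / 2 ∈ W)

lemma dbl_card (K : ℕ) (W : Finset ℕ) (hW : W ⊆ Icc 1 K) : (dbl K W).card = 2 * W.card := by
  classical
  have h1 : dbl K W = W.image (fun k => 2 * k) ∪ W.image (fun k => 2 * k - 1) := by
    ext h
    unfold dbl
    rw [mem_filter, mem_Icc, mem_union, mem_image, mem_image]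
    constructor
    · rintro ⟨⟨a1, a2⟩, a3⟩
      rcases Nat.even_or_odd' h with ⟨c, hc | hc⟩
      · left
        refine ⟨(h + 1) / 2, a3, by omega⟩
      · right
        refine ⟨(h + 1) / 2, a3, by omega⟩
    · rintro (⟨k, hk, rfl⟩ | ⟨k, hk, rfl⟩)
      · have := mem_Icc.1 (hW hk)
        refine ⟨by omega, ?_⟩
        rwa [show (2 * k + 1) / 2 = k by omega]
      · have := mem_Icc.1 (hW hk)
        refine ⟨by omega, ?_⟩
        rwa [show (2 * k - 1 + 1) / 2 = k by omega]
  rw [h1, card_union_of_disjoint, card_image_of_injective, card_image_of_injOn]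
  · omega
  · intro a ha b hb hab
    have h2 := mem_Icc.1 (hW (mem_coe.1 ha))
    have h3 := mem_Icc.1 (hW (mem_coe.1 hb))
    simp only at hab
    omega
  · intro a b hab
    simp only at hab
    omega
  · rw [Finset.disjoint_left]
    intro h h2 h3
    rw [mem_image] at h2 h3
    obtain ⟨a, _, rfl⟩ := h2
    obtain ⟨b, hb, h4⟩ := h3
    have := mem_Icc.1 (hW hb)
    omega

/-- a set of shifts with an odd element is not admissible -/
lemma odd_zero (S : Finset ℕ) (y : ℕ) (hy : 2 ≤ y) (h : ℕ) (hh : h ∈ S) (hodd : h % 2 = 1) :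
    Vq (QH Qi ({0} ∪ S)) y = 0 := by
  unfold Vq
  apply Finset.prod_eq_zero (mem_pz.2 ⟨hy, Nat.prime_two⟩)
  rw [nuB_QH_Qi _ 2 Nat.prime_two]
  have h1 : (({0} ∪ S).image (fun x => x % 2)) = {0, 1} := by
    ext x
    rw [mem_image, mem_insert, mem_singleton]
    constructor
    · rintro ⟨a, _, rfl⟩
      omega
    · rintro (rfl | rfl)
      · exact ⟨0, by simp, rfl⟩
      · exact ⟨h, mem_union_right _ hh, hodd⟩
  rw [h1]
  norm_num

/-- **The sum over the multipliers is a sum over sets of shifts.** -/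
lemma sum_dbl (K : ℕ) (T W : Finset ℕ) (hW : W ⊆ Icc 1 K) (y k : ℕ) (hy : 2 ≤ y) :
    ∑ S ∈ powersetCard k W, Vq (QM (T ∪ S)) y =
      ∑ S ∈ powersetCard k (dbl K W), Vq (QH Qi (({0} ∪ dT T) ∪ S)) y := by
  classical
  have hinj : Set.InjOn dT (powersetCard k W : Set (Finset ℕ)) := by
    intro a _ b _ hab
    exact Finset.image_injective (fun x y h => by
      have h' : 2 * x = 2 * y := h
      omega) hab
  have h1 : ∑ S ∈ powersetCard k W, Vq (QM (T ∪ S)) y =
      ∑ S ∈ (powersetCard k W).image dT, Vq (QH Qi (({0} ∪ dT T) ∪ S)) y := by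
    rw [Finset.sum_image hinj]
    apply Finset.sum_congr rfl
    intro S _
    rw [Vq_QM]
    congr 2
    unfold dT
    rw [Finset.image_union, Finset.union_assoc]
  rw [h1]
  apply Finset.sum_subset
  · intro S hS
    rw [mem_image] at hS
    obtain ⟨T, hT, rfl⟩ := hS
    rw [mem_powersetCard] at hT ⊢
    refine ⟨?_, ?_⟩
    · intro h hh
      unfold dT at hh
      rw [mem_image] at hh
      obtain ⟨k', hk', rfl⟩ := hh
      have h2 := mem_Icc.1 (hW (hT.1 hk'))
      unfold dbl
      rw [mem_filter, mem_Icc]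
      refine ⟨by omega, ?_⟩
      rw [show (2 * k' + 1) / 2 = k' by omega]
      exact hT.1 hk'
    · unfold dT
      rw [card_image_of_injective _ (fun x y h => by
        have h' : 2 * x = 2 * y := h
        omega)]
      exact hT.2
  · intro S hS hS2
    rw [mem_powersetCard] at hS
    by_cases hodd : ∃ h ∈ S, h % 2 = 1
    · obtain ⟨h, hh, h3⟩ := hodd
      rw [Finset.union_assoc]
      exact odd_zero (dT T ∪ S) y hy h (mem_union_right _ hh) h3
    · exfalso
      apply hS2
      push Not at hodd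
      rw [mem_image]
      refine ⟨S.image (fun h => h / 2), ?_, ?_⟩
      · rw [mem_powersetCard]
        refine ⟨?_, ?_⟩
        · intro a ha
          rw [mem_image] at ha
          obtain ⟨h, hh, rfl⟩ := ha
          have h2 := hS.1 hh
          unfold dbl at h2
          rw [mem_filter] at h2
          have h3 := hodd h hh
          rw [show h / 2 = (h + 1) / 2 by omega]
          exact h2.2
        · rw [card_image_of_injOn]
          · exact hS.2
          · intro a ha b hb hab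
            have h2 := hodd a (mem_coe.1 ha)
            have h3 := hodd b (mem_coe.1 hb)
            simp only at hab
            omega
      · unfold dT
        rw [Finset.image_image]
        ext x
        rw [mem_image]
        simp only [Function.comp]
        constructor
        · rintro ⟨a, ha, rfl⟩
          have h2 := hodd a ha
          rwa [show 2 * (a / 2) = a by omega]
        · intro hx
          have h2 := hodd x hx
          exact ⟨x, hx, by omega⟩

lemma dT_card (T : Finset ℕ) : (dT T).card = T.card := by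
  unfold dT
  exact card_image_of_injective _ (fun x y h => by
    have h' : 2 * x = 2 * y := h
    omega)

lemma hT_card (L : ℕ) (T : Finset ℕ) (hT : T ⊆ Icc 1 L) : ({0} ∪ dT T).card = T.card + 1 := by
  rw [card_union_of_disjoint, card_singleton, dT_card]
  · omega
  · rw [Finset.disjoint_singleton_left]
    intro h
    unfold dT at h
    rw [mem_image] at h
    obtain ⟨k, hk, h1⟩ := h
    have := mem_Icc.1 (hT hk)
    omega

lemma dbl_disj (L : ℕ) (T W : Finset ℕ) (hd : Disjoint T W) : Disjoint ({0} ∪ dT T) (dbl L W) := by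
  rw [Finset.disjoint_left]
  intro h h1 h2
  unfold dbl at h2
  rw [mem_filter, mem_Icc] at h2
  rw [mem_union, mem_singleton] at h1
  rcases h1 with h1 | h1
  · omega
  · unfold dT at h1
    rw [mem_image] at h1
    obtain ⟨k, hk, rfl⟩ := h1
    have h3 := h2.2
    rw [show (2 * k + 1) / 2 = k by omega] at h3
    exact Finset.disjoint_left.1 hd hk h3

end Pool.Agent.U98.TZ
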