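import Mathlib
import Pool.Agent.U98.TZ.F1

set_option autoImplicit false

/-!
# The Poisson law for the numbers `2 k p + 1` without small prime factors, over the primes `p`
-/

namespace Pool.Agent.U98.TZ

open Finset Filter Pool.Agent.H373R2.T7 Pool.Agent.W123.RP Pool.Agent.W123.RU Pool.Agent.TH464.PO
open Pool.Agent.R463.PP Pool.Agent.Y879.PR Pool.Agent.R463.EX

open Classical in
lemma large_Qi (T y t : ℕ) (ht : t ∈ Icc 1 T) : (pz y).filter (fun p : ℕ => T < p ∧ CoG Qi p t) = ∅ := by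
  rw [mem_Icc] at ht
  rw [Finset.filter_eq_empty_iff]
  rintro p hp ⟨hTp, m, h5, h6⟩
  unfold Qi at h5 h6
  have h7 : p ∣ t := (Nat.dvd_add_right h5).1 h6
  have := Nat.le_of_dvd (by omega) h7
  omega

lemma Vq_QM_empty (y : ℕ) : Vq (QM ∅) y = Vz y := by
  rw [← Vz_Qi]
  unfold Vq
  apply prod_congr rfl
  intro p hp
  rw [nuB_congr (QM ∅) Qi p]
  intro r _
  unfold QM Qi
  constructor
  · rintro (h | ⟨k, hk, _⟩)
    · exact h
    · exact absurd hk (Finset.notMem_empty k)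
  · exact Or.inl

open Classical in
/-- **Binomial moments.** -/
theorem momentM (g k : ℕ) (η δ : ℝ) (hη : 0 < η) (hη1 : η ≤ 1) (hδ : 0 < δ) (hδ1 : δ ≤ 1) (C : ℕ → ℝ)
    (hC : ∀ w, 0 ≤ C w) :
    ∃ (K T0 : ℕ), ∀ U : ℕ, ∃ x0 : ℕ, ∀ X y R : ℕ, x0 ≤ y → y ^ K ≤ X → T0 ≤ R →
      ∀ (L : ℕ) (T W : Finset ℕ), T.card = g → T ⊆ Icc 1 L → W ⊆ Icc 1 L → Disjoint T W → 2 * L ≤ R →
      (∀ w m : ℕ, |(((dbl L W).filter (fun h => Sf Qi w (m + h))).card : ℝ) - (dbl L W).card * Vq Qi w| ≤ C w) →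
      ∀ u Y : ℕ, δ * X ≤ u → δ * X ≤ Y → u + Y ≤ X →
      |(∑ n ∈ Om 1 0 (QM T) y u Y, ((NM y W n).choose (k + 1) : ℝ)) * Real.log X -
        Y / Vz y * Vq (QM T) y * ((2 * W.card * Vz y) ^ (k + 1) / (k + 1).factorial)| ≤
        η * (Y / Vz y * Vq (QM T) y * ((R * Vz y) ^ (k + 1) / (k + 1).factorial)) +
          (R : ℝ) ^ (k + 1) * (X / Real.log X ^ U) := by
  obtain ⟨K, hK, hcount⟩ := prime_count 1 (g + k + 2) squarefree_one (η / 4) δ (by positivity) (by linarith)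
    hδ hδ1
  obtain ⟨w, η', T0, hη', hsing⟩ := sing_rel 1 (g + 1) k (η / 4) (by positivity) (by linarith) C hC
  refine ⟨K, T0, ?_⟩
  intro U
  obtain ⟨x0, hx0⟩ := hcount U
  refine ⟨max x0 (max w 3), ?_⟩
  intro X y R hy hyX hR L T W hTg hT hW hdis hLR hwin u Y hu hY huY
  have hy0 : x0 ≤ y := (le_max_left _ _).trans hy
  have hyw : w ≤ y := ((le_max_left _ _).trans (le_max_right _ _)).trans hy
  have hy3 : 3 ≤ y := ((le_max_right _ _).trans (le_max_right _ _)).trans hy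
  have hyX' : y ≤ X := (Nat.le_self_pow (by omega) y).trans hyX
  have hX1 : (1 : ℝ) ≤ X := by exact_mod_cast (by omega : 1 ≤ X)
  have hl0 : 0 ≤ Real.log X := Real.log_nonneg hX1
  have hdT : dbl L W ⊆ Icc 1 R := by
    intro h hh
    unfold dbl at hh
    rw [mem_filter, mem_Icc] at hh
    rw [mem_Icc]
    omega
  have s0 := hsing R hR Qi perB_Qi adm_Qi y hyw (by
    intro t ht
    rw [large_Qi R y t ht, Finset.card_empty, Nat.cast_zero]
    positivity) ({0} ∪ dT T) (by rw [hT_card L T hT, hTg]) (by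
    intro h hh
    rw [mem_union, mem_singleton] at hh
    rw [mem_range]
    rcases hh with hh | hh
    · omega
    · unfold dT at hh
      rw [mem_image] at hh
      obtain ⟨k', hk', rfl⟩ := hh
      have := mem_Icc.1 (hT hk')
      omega) (dbl L W) hdT (dbl_disj L T W hdis) hwin
  rw [← sum_dbl L T W hW y (k + 1) (by omega), ← Vq_QM, Vz_Qi, dbl_card L W hW] at s0
  have hVz := Pool.Agent.H373R2.T7.Vz_pos y
  obtain ⟨P, hP⟩ : ∃ P : ℝ, P = Vq (QM T) y := ⟨_, rfl⟩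
  have hP0 : 0 ≤ P := by rw [hP]; exact Vq_nonneg _ y
  obtain ⟨S, hS⟩ : ∃ S, S = ∑ S ∈ powersetCard (k + 1) W, Vq (QM (T ∪ S)) y := ⟨_, rfl⟩
  obtain ⟨Z, hZ⟩ : ∃ Z : ℝ, Z = (R * Vz y) ^ (k + 1) / (k + 1).factorial := ⟨_, rfl⟩
  obtain ⟨z, hz⟩ : ∃ z : ℝ, z = (2 * W.card * Vz y) ^ (k + 1) / (k + 1).factorial := ⟨_, rfl⟩
  obtain ⟨E, hE⟩ : ∃ E : ℝ, E = X / Real.log X ^ U := ⟨_, rfl⟩
  obtain ⟨G, hG⟩ : ∃ G : ℝ, G = Y / Vz y := ⟨_, rfl⟩
  have hG0 : 0 ≤ G := by rw [hG]; exact div_nonneg (Nat.cast_nonneg _) hVz.le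
  have hE0 : 0 ≤ E := by rw [hE]; positivity
  have hZ0 : 0 ≤ Z := by rw [hZ]; positivity
  have hWR : (2 * W.card : ℝ) ≤ R := by
    have h1 := card_le_card hdT
    rw [dbl_card L W hW, Nat.card_Icc, Nat.add_sub_cancel] at h1
    exact_mod_cast h1
  have hWR' : (W.card : ℝ) ≤ R := by
    have : (0 : ℝ) ≤ W.card := Nat.cast_nonneg _
    linarith
  have hzZ : z ≤ Z := by
    rw [hz, hZ]
    apply div_le_div_of_nonneg_right _ (by positivity)
    apply pow_le_pow_left₀ (by positivity)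
    exact mul_le_mul_of_nonneg_right hWR hVz.le
  have e0 : ((2 * W.card : ℕ) : ℝ) = 2 * W.card := by push_cast; rfl
  rw [e0, ← hS, ← hZ, ← hz, ← hP] at s0
  rw [← hZ, ← hz, ← hE, ← hP, ← hG, momM_eq, Finset.sum_mul]
  have h1 : |∑ S ∈ powersetCard (k + 1) W, ((Om 1 0 (QM (T ∪ S)) y u Y).card : ℝ) * Real.log X -
      G * S| ≤ η / 4 * (G * S) + (R : ℝ) ^ (k + 1) * E := by
    have e : G * S = ∑ S ∈ powersetCard (k + 1) W, (Y : ℝ) * (Vq (QM (T ∪ S)) y / Vz y) := by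
      rw [hS, hG, Finset.mul_sum]
      apply Finset.sum_congr rfl
      intros
      ring
    rw [e, ← Finset.sum_sub_distrib]
    refine (Finset.abs_sum_le_sum_abs _ _).trans ?_
    have h2 : ∀ S ∈ powersetCard (k + 1) W,
        |((Om 1 0 (QM (T ∪ S)) y u Y).card : ℝ) * Real.log X -
          (Y : ℝ) * (Vq (QM (T ∪ S)) y / Vz y)| ≤
        η / 4 * (Y * (Vq (QM (T ∪ S)) y / Vz y)) + E := by
      intro S hS
      rw [mem_powersetCard] at hS
      rw [hE]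
      exact hx0 X y hy0 hyX 0 (Nat.zero_le _) (Nat.coprime_one_left 0) (QM (T ∪ S))
        (base_QM (T ∪ S) (g + k + 2) (by
          have := card_union_le T S
          omega)) u Y hu hY huY
    refine (Finset.sum_le_sum h2).trans ?_
    rw [Finset.sum_add_distrib, ← Finset.mul_sum, Finset.sum_const, nsmul_eq_mul]
    have h3 : ((powersetCard (k + 1) W).card : ℝ) ≤ (R : ℝ) ^ (k + 1) := by
      rw [card_powersetCard]
      calc ((W.card.choose (k + 1) : ℕ) : ℝ) ≤ ((W.card ^ (k + 1) : ℕ) : ℝ) := by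
            exact_mod_cast Nat.choose_le_pow _ (k + 1)
        _ = (W.card : ℝ) ^ (k + 1) := by push_cast; rfl
        _ ≤ _ := pow_le_pow_left₀ (Nat.cast_nonneg _) hWR' _
    have h4 := mul_le_mul_of_nonneg_right h3 hE0
    linarith
  have h5 : |G * S - G * (P * z)| ≤ η / 4 * (G * (P * Z)) := by
    rw [← mul_sub, abs_mul, abs_of_nonneg hG0]
    calc G * |S - P * z| ≤ G * (η / 4 * (P * Z)) := mul_le_mul_of_nonneg_left s0 hG0
      _ = _ := by ring
  have h8 : 0 ≤ G * (P * Z) := by positivity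
  have h6 : G * S ≤ 2 * (G * (P * Z)) := by
    have h7 := (abs_le.1 h5).2
    have h9 : G * (P * z) ≤ G * (P * Z) := by gcongr
    nlinarith
  have h9 := abs_sub_le (∑ S ∈ powersetCard (k + 1) W,
      ((Om 1 0 (QM (T ∪ S)) y u Y).card : ℝ) * Real.log X) (G * S) (G * (P * z))
  have h10 : η / 4 * (G * S) ≤ η / 4 * (2 * (G * (P * Z))) :=
    mul_le_mul_of_nonneg_left h6 (by positivity)
  have h11 : 0 ≤ η * (G * (P * Z)) := by positivity
  have e1 : G * P * z = G * (P * z) := by ring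
  have e2 : G * P * Z = G * (P * Z) := by ring
  rw [e1, e2]
  linarith

open Classical in
/-- **The Poisson law.** -/
theorem lawM (g C : ℕ) (x0 ε δ : ℝ) (hx0 : 0 ≤ x0) (hε : 0 < ε) (hε1 : ε ≤ 1) (hδ : 0 < δ) (hδ1 : δ ≤ 1)
    (Cw : ℕ → ℝ) (hCw : ∀ w, 0 ≤ Cw w) :
    ∃ (K y0 : ℕ), ∀ X y : ℕ, y0 ≤ y → y ^ K ≤ X →
      ∀ (L : ℕ) (T W : Finset ℕ), T.card = g → T ⊆ Icc 1 L → W ⊆ Icc 1 L → Disjoint T W → 2 * L * Vz y ≤ x0 →
      (∀ w m : ℕ, |(((dbl L W).filter (fun h => Sf Qi w (m + h))).card : ℝ) - (dbl L W).card * Vq Qi w| ≤ Cw w) →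
      1 / Real.log X ^ C ≤ Vq (QM T) y →
      ∀ u Y : ℕ, δ * X ≤ u → δ * X ≤ Y → u + Y ≤ X →
      |((Om 1 0 (QM T) y u Y).card : ℝ) * Real.log X - Y * (Vq (QM T) y / Vz y)| ≤
        ε * (Y * (Vq (QM T) y / Vz y)) ∧
      ∀ A : Finset ℕ, |(((Om 1 0 (QM T) y u Y).filter (fun n => NM y W n ∈ A)).card : ℝ) -
        (Om 1 0 (QM T) y u Y).card *
          ∑ j ∈ A, Real.exp (-(2 * W.card * Vz y)) * (2 * W.card * Vz y) ^ j / j.factorial| ≤
        ε * (Om 1 0 (QM T) y u Y).card := by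
  obtain ⟨R, η, hη, htv⟩ := law_tv x0 ε hx0 hε
  obtain ⟨X1, hX1⟩ : ∃ X1 : ℝ, X1 = (2 + x0) ^ R := ⟨_, rfl⟩
  have hX1pos : 1 ≤ X1 := by rw [hX1]; exact one_le_pow₀ (by linarith)
  obtain ⟨η1, hη1⟩ : ∃ η1 : ℝ, η1 = min (ε / 4) (η / (8 * X1)) := ⟨_, rfl⟩
  have hη10 : 0 < η1 := by rw [hη1]; positivity
  have hη11 : η1 ≤ ε / 4 := by rw [hη1]; exact min_le_left _ _
  have hη12 : 8 * (η1 * X1) ≤ η := by
    have : η1 ≤ η / (8 * X1) := by rw [hη1]; exact min_le_right _ _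
    rw [le_div_iff₀ (by positivity)] at this
    linarith
  obtain ⟨c1, C1, hc1, hC1, hVzb⟩ := Vz_bounds
  obtain ⟨B, hB⟩ : ∃ B : ℝ, B = (x0 + 1) / c1 + 1 := ⟨_, rfl⟩
  have hB1 : 1 ≤ B := by
    rw [hB]
    have : 0 ≤ (x0 + 1) / c1 := by positivity
    linarith
  obtain ⟨U, hU⟩ : ∃ U : ℕ, U = R + C + 1 := ⟨_, rfl⟩
  obtain ⟨K00, hK00, hcount⟩ := prime_count 1 (g + 1) squarefree_one η1 δ hη10 (by linarith) hδ hδ1
  obtain ⟨y00, hcount⟩ := hcount U
  choose K T0 hmom using fun k => momentM g k η1 δ hη10 (by linarith) hδ hδ1 Cw hCw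
  choose y0 hy0 using fun k => hmom k U
  have hlogX : Tendsto (fun X : ℕ => Real.log (X : ℝ)) atTop atTop :=
    Real.tendsto_log_atTop.comp tendsto_natCast_atTop_atTop
  obtain ⟨Tb, hTb⟩ : ∃ Tb : ℕ, Tb = ∑ k ∈ range (R + 1), T0 k := ⟨_, rfl⟩
  obtain ⟨Z1, hZ1⟩ := eventually_atTop.1 ((hlogX.eventually_ge_atTop (B ^ R / (η1 * δ))).and
    ((hlogX.eventually_ge_atTop 1).and (hlogX.eventually_ge_atTop (C1 * Tb))))
  refine ⟨(∑ k ∈ range (R + 1), K k) + K00 + 1, (∑ k ∈ range (R + 1), y0 k) + y00 + Z1 + 3, ?_⟩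
  intro X y hy hyX L TT W hTg hTL hW hdis hx hwin hVlow u Y hu hY huY
  have hy3 : 3 ≤ y := by omega
  have hyX' : y ≤ X := (Nat.le_self_pow (by omega) y).trans hyX
  obtain ⟨z1, z2, -⟩ := hZ1 X (by omega)
  obtain ⟨-, -, z3⟩ := hZ1 y (by omega)
  obtain ⟨T, hT⟩ : ∃ T : ℕ, T = 2 * L + Tb := ⟨_, rfl⟩
  obtain ⟨l, hl⟩ : ∃ l, l = Real.log X := ⟨_, rfl⟩
  have hyr : (3 : ℝ) ≤ y := by exact_mod_cast hy3
  have hly : 0 < Real.log (y : ℝ) := Real.log_pos (by linarith)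
  have hlyX : Real.log (y : ℝ) ≤ Real.log X := Real.log_le_log (by linarith) (by exact_mod_cast hyX')
  have hcount0 := hcount X y (by omega) ((Nat.pow_le_pow_right (by omega) (by omega)).trans hyX) 0
    (Nat.zero_le _) (Nat.coprime_one_left 0) (QM TT) (base_QM TT (g + 1) (by omega)) u Y hu hY huY
  obtain ⟨V, hV⟩ : ∃ V, V = Vz y := ⟨_, rfl⟩
  have hV0 : 0 < V := by rw [hV]; exact Pool.Agent.H373R2.T7.Vz_pos y
  have hV1 : V ≤ 1 := by rw [hV]; exact Pool.Agent.H373R2.T7.Vz_le_one y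
  obtain ⟨P, hP⟩ : ∃ P, P = Vq (QM TT) y := ⟨_, rfl⟩
  rw [← hl] at z1 z2 hcount0 hlyX hVlow ⊢
  rw [← hP] at hVlow hcount0 ⊢
  rw [← hV] at hx hcount0 ⊢
  have hl0 : 0 < l := by linarith
  obtain ⟨hlow, hup⟩ := hVzb y (by omega)
  rw [← hV] at hlow hup
  have hP0 : 0 < P := lt_of_lt_of_le (by positivity) hVlow
  obtain ⟨M, hM⟩ : ∃ M : ℝ, M = Y * (P / V) := ⟨_, rfl⟩
  have hXr : (1 : ℝ) ≤ X := by exact_mod_cast (by omega : 1 ≤ X)
  have hYr : 0 < (Y : ℝ) := lt_of_lt_of_le (by positivity) hY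
  have hM0 : 0 < M := by rw [hM]; positivity
  have hMlow : δ * X * (1 / l ^ C) ≤ M := by
    rw [hM]
    apply mul_le_mul hY _ (by positivity) hYr.le
    refine hVlow.trans ?_
    rw [le_div_iff₀ hV0]
    nlinarith
  obtain ⟨x, hxdef⟩ : ∃ x, x = 2 * W.card * V := ⟨_, rfl⟩
  have hWL : (W.card : ℝ) ≤ L := by
    have := card_le_card hW
    rw [Nat.card_Icc, Nat.add_sub_cancel] at this
    exact_mod_cast this
  have hx0' : x ≤ x0 := by
    rw [hxdef]
    refine le_trans ?_ hx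
    apply mul_le_mul_of_nonneg_right _ hV0.le
    linarith
  have hx00 : 0 ≤ x := by
    rw [hxdef]
    positivity
  have hT0r : (0 : ℝ) ≤ T := Nat.cast_nonneg _
  have hTV : (T : ℝ) * V ≤ x0 + 1 := by
    have h1 : (Tb : ℝ) * V ≤ 1 := by
      calc (Tb : ℝ) * V ≤ Tb * (C1 / Real.log y) := mul_le_mul_of_nonneg_left hup (Nat.cast_nonneg _)
        _ = C1 * Tb / Real.log y := by ring
        _ ≤ 1 := by
          rw [div_le_one hly]
          exact z3
    rw [hT]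
    push_cast
    nlinarith
  have hTup : (T : ℝ) ≤ B * l := by
    have h1 : (T : ℝ) * (c1 / Real.log y) ≤ x0 + 1 := (mul_le_mul_of_nonneg_left hlow hT0r).trans hTV
    rw [← mul_div_assoc, div_le_iff₀ hly] at h1
    have h2 : (T : ℝ) ≤ (x0 + 1) / c1 * Real.log y := by
      rw [div_mul_eq_mul_div, le_div_iff₀ hc1]
      exact h1
    have h3 : (x0 + 1) / c1 * Real.log y ≤ B * l := by
      rw [hB]
      have h4 : 0 ≤ (x0 + 1) / c1 := by positivity
      nlinarith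
    exact h2.trans h3
  -- the error terms
  have hEk : ∀ k ≤ R, (T : ℝ) ^ k * (X / l ^ U) ≤ η1 * M := by
    intro k hk
    have h1 : (T : ℝ) ^ k ≤ (B * l) ^ R := by
      calc (T : ℝ) ^ k ≤ (B * l) ^ k := pow_le_pow_left₀ hT0r hTup _
        _ ≤ (B * l) ^ R := by
          apply pow_le_pow_right₀ _ hk
          nlinarith
    have h2 : B ^ R ≤ l * (η1 * δ) := by
      rwa [div_le_iff₀ (by positivity)] at z1
    calc (T : ℝ) ^ k * (X / l ^ U) ≤ (B * l) ^ R * (X / l ^ U) := by gcongr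
      _ = B ^ R * (l ^ R * X / l ^ U) := by rw [mul_pow]; ring
      _ ≤ (l * (η1 * δ)) * (l ^ R * X / l ^ U) := by gcongr
      _ = η1 * (δ * X * (1 / l ^ C)) := by
          rw [hU, pow_add, pow_add, pow_one]
          field_simp
      _ ≤ η1 * M := by gcongr
  have hmk : ∀ k ≤ R, ∀ z : ℝ, 0 ≤ z → z ≤ x0 + 1 → z ^ k / (k.factorial : ℝ) ≤ X1 := by
    intro k hk z hz0 hz1
    have hf1 : (1 : ℝ) ≤ k.factorial := by exact_mod_cast Nat.factorial_pos k
    calc z ^ k / (k.factorial : ℝ) ≤ z ^ k := div_le_self (by positivity) hf1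
      _ ≤ (2 + x0) ^ k := pow_le_pow_left₀ hz0 (by linarith) _
      _ ≤ (2 + x0) ^ R := pow_le_pow_right₀ (by linarith) hk
      _ = X1 := hX1.symm
  obtain ⟨Nn, hN⟩ : ∃ Nn : ℝ, Nn = (Om 1 0 (QM TT) y u Y).card := ⟨_, rfl⟩
  have hzero : |Nn * l - M| ≤ 2 * (η1 * M) := by
    have h1 := hEk 0 (Nat.zero_le _)
    rw [pow_zero, one_mul] at h1
    rw [← hN, ← hM] at hcount0
    linarith
  rw [← hN, ← hM]
  have hz := abs_le.1 hzero
  have hfirst : |Nn * l - M| ≤ ε * M := by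
    refine hzero.trans ?_
    nlinarith
  refine ⟨hfirst, ?_⟩
  have hMN : M ≤ 2 * (Nn * l) := by nlinarith
  have hmain : ∀ k ≤ R, |(∑ n ∈ Om 1 0 (QM TT) y u Y, ((NM y W n).choose k : ℝ)) * l -
      M * (x ^ k / k.factorial)| ≤ 2 * (η1 * (M * X1)) := by
    intro k hk
    rcases k with _ | k
    · have e0 : ∑ n ∈ Om 1 0 (QM TT) y u Y, ((NM y W n).choose 0 : ℝ) = Nn := by
        rw [hN]
        simp
      rw [e0]
      simp only [pow_zero, Nat.factorial_zero, Nat.cast_one, div_one, mul_one]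
      refine hzero.trans ?_
      have : η1 * (M * 1) ≤ η1 * (M * X1) := by gcongr
      linarith
    · have hkR : k ∈ range (R + 1) := mem_range.2 (by omega)
      have hKk : K k ≤ ∑ k ∈ range (R + 1), K k := Finset.single_le_sum (fun _ _ => Nat.zero_le _) hkR
      have hyk : y0 k ≤ ∑ k ∈ range (R + 1), y0 k := Finset.single_le_sum (fun _ _ => Nat.zero_le _) hkR
      have hTk : T0 k ≤ ∑ k ∈ range (R + 1), T0 k := Finset.single_le_sum (fun _ _ => Nat.zero_le _) hkR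
      rw [← hTb] at hTk
      have h1 := hy0 k X y T (by omega)
        ((Nat.pow_le_pow_right (by omega) (by omega)).trans hyX) (by omega) L TT W hTg hTL hW hdis (by omega) hwin
        u Y hu hY huY
      rw [← hl, ← hV, ← hP, ← hxdef] at h1
      have e : (Y : ℝ) / V * P = M := by
        rw [hM]; ring
      rw [e] at h1
      refine h1.trans ?_
      have h2 := hmk (k + 1) hk (T * V) (by positivity) hTV
      have h3 := hEk (k + 1) hk
      have h4 : η1 * (M * ((T * V) ^ (k + 1) / ((k + 1).factorial : ℝ))) ≤ η1 * (M * X1) := by gcongr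
      have h5 : η1 * (M * 1) ≤ η1 * (M * X1) := by gcongr
      linarith
  rw [← hxdef]
  intro A
  have hN0 : 0 ≤ Nn := by rw [hN]; exact Nat.cast_nonneg _
  have hfin := htv (Om 1 0 (QM TT) y u Y) (NM y W) x hx00 hx0' (by
    intro k hk
    rw [← hN]
    have h1 := hmain k hk
    have h2 := hmk k hk x hx00 (by linarith)
    obtain ⟨mk, hmkdef⟩ : ∃ mk : ℝ, mk = x ^ k / (k.factorial : ℝ) := ⟨_, rfl⟩
    obtain ⟨S, hS⟩ : ∃ S : ℝ, S = ∑ n ∈ Om 1 0 (QM TT) y u Y, ((NM y W n).choose k : ℝ) := ⟨_, rfl⟩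
    rw [← hmkdef] at h1 h2 ⊢
    rw [← hS] at h1 ⊢
    have hmk0 : 0 ≤ mk := by rw [hmkdef]; positivity
    have h3 : |(S - Nn * mk) * l| ≤ η * Nn * l := by
      have e : (S - Nn * mk) * l = (S * l - M * mk) + mk * (M - Nn * l) := by ring
      rw [e]
      refine (abs_add_le _ _).trans ?_
      have h4 : |mk * (M - Nn * l)| ≤ X1 * (2 * (η1 * M)) := by
        rw [abs_mul, abs_of_nonneg hmk0]
        apply mul_le_mul h2 _ (abs_nonneg _) (by linarith)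
        rw [abs_sub_comm]
        exact hzero
      have h7 : 4 * (η1 * X1) * M ≤ 4 * (η1 * X1) * (2 * (Nn * l)) := by gcongr
      have h8 : 8 * (η1 * X1) * (Nn * l) ≤ η * (Nn * l) := by gcongr
      linarith
    rw [abs_mul, abs_of_pos hl0] at h3
    exact le_of_mul_le_mul_right h3 hl0) A
  rw [← hN] at hfin
  exact hfin

end Pool.Agent.U98.TZ
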