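import Mathlib
import Pool.Agent.U98.TZ.F2

set_option autoImplicit false

/-!
# Exact patterns of multipliers, and unions of intervals
-/

namespace Pool.Agent.U98.TZ

open Finset Filter Pool.Agent.H373R2.T7 Pool.Agent.W123.RP Pool.Agent.W123.RU Pool.Agent.TH464.PO
open Pool.Agent.R463.PP Pool.Agent.Y879.PR Pool.Agent.R463.EX

open Classical in
/-- the number of the primes `n ∈ (u, u + Y]`, `n` free of prime factors `≤ y`, for which the multipliers `k ≤ L` with
`2 k n + 1` free of prime factors `≤ y` are exactly the elements of `T` -/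
noncomputable def exM (T : Finset ℕ) (L y u Y : ℕ) : ℕ :=
  ((Om 1 0 Qi y u Y).filter (fun n => ∀ k ∈ Icc 1 L, (Sf Qi y (2 * k * n + 1) ↔ k ∈ T))).card

open Classical in
lemma exM_eq (T : Finset ℕ) (L y u Y : ℕ) (hT : T ⊆ Icc 1 L) :
    exM T L y u Y = ((Om 1 0 (QM T) y u Y).filter (fun n => NM y (Icc 1 L \ T) n ∈ ({0} : Finset ℕ))).card := by
  have h1 := omM ∅ T y u Y
  have h2 : Om 1 0 (QM ∅) y u Y = Om 1 0 Qi y u Y := by
    unfold Om
    apply Finset.filter_congr
    intro m _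
    rw [sf_QM]
    constructor
    · exact fun h => ⟨h.1, h.2.1⟩
    · exact fun h => ⟨h.1, h.2, fun k hk => absurd hk (Finset.notMem_empty k)⟩
  rw [empty_union, h2] at h1
  unfold exM
  rw [h1, Finset.filter_filter]
  congr 1
  apply Finset.filter_congr
  intro n _
  rw [mem_singleton]
  unfold NM
  rw [Finset.card_eq_zero, Finset.filter_eq_empty_iff]
  constructor
  · intro h
    refine ⟨fun k hk => (h k (hT hk)).2 hk, fun k hk hs => ?_⟩
    rw [Finset.mem_sdiff] at hk
    exact hk.2 ((h k hk.1).1 hs)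
  · rintro ⟨h3, h4⟩ k hk
    refine ⟨fun hs => ?_, fun hh => h3 k hh⟩
    by_contra hcon
    exact h4 (Finset.mem_sdiff.2 ⟨hk, hcon⟩) hs

open Classical in
lemma win_dbl (L : ℕ) (T : Finset ℕ) (hT : T ⊆ Icc 1 L) (w m : ℕ) :
    |(((dbl L (Icc 1 L \ T)).filter (fun h => Sf Qi w (m + h))).card : ℝ) -
      (dbl L (Icc 1 L \ T)).card * Vq Qi w| ≤ Mw w + 4 * T.card := by
  have e : dbl L (Icc 1 L \ T) = Icc 1 (2 * L) \ dbl L T := by
    ext h
    unfold dbl
    simp only [mem_filter, Finset.mem_sdiff, mem_Icc]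
    constructor
    · rintro ⟨h1, h2, h3⟩
      exact ⟨h1, fun h4 => h3 h4.2⟩
    · rintro ⟨h1, h2⟩
      exact ⟨h1, ⟨by omega, by omega⟩, fun h4 => h2 ⟨h1, h4⟩⟩
  rw [e]
  have h1 := windowR Qi 1 perB_Qi (dbl L T) w m (2 * L)
  rw [dbl_card L T hT] at h1
  refine h1.trans ?_
  push_cast
  linarith

open Classical in
lemma exM_zero (T : Finset ℕ) (L y u Y : ℕ) (hT : T ⊆ Icc 1 L) (p : ℕ) (hp : p ∈ pz y) (hnu : nuB (QM T) p = p) :
    exM T L y u Y = 0 := by
  have hall : ∀ n, QM T p n := by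
    intro n
    rw [(perB_QM T).per p n]
    have h1 : (range p).filter (fun r => QM T p r) = range p := by
      apply Finset.eq_of_subset_of_card_le (filter_subset _ _)
      rw [card_range]
      unfold nuB at hnu
      exact hnu.ge
    have h2 : n % p ∈ (range p).filter (fun r => QM T p r) := by
      rw [h1]
      exact mem_range.2 (Nat.mod_lt _ (mem_pz.1 hp).2.pos)
    exact (mem_filter.1 h2).2
  rw [exM_eq T L y u Y hT, Finset.card_eq_zero, Finset.filter_eq_empty_iff]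
  intro n hn
  unfold Om at hn
  rw [mem_filter] at hn
  exact absurd (hall n) (hn.2.2 p hp)

open Classical in
/-- **The exact patterns of multipliers.** -/
theorem pattM (g : ℕ) (x0 ε δ : ℝ) (hε : 0 < ε) (hδ : 0 < δ) (hδ1 : δ ≤ 1) :
    ∃ s y0 : ℕ, ∀ y : ℕ, y0 ≤ y → ∀ X : ℕ, y ^ s ≤ X → ∀ (L : ℕ) (T : Finset ℕ), T.card = g → T ⊆ Icc 1 L →
      2 * L * Vz y ≤ x0 → ∀ u Y : ℕ, δ * X ≤ u → δ * X ≤ Y → u + Y ≤ X →
        |(exM T L y u Y : ℝ) * Real.log X - Y * (Vq (QM T) y / Vz y) * Real.exp (-(2 * L * Vz y))| ≤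
          ε * (Y * (Vq (QM T) y / Vz y) * Real.exp (-(2 * L * Vz y))) := by
  obtain ⟨x1, hx1⟩ : ∃ x1 : ℝ, x1 = max x0 0 := ⟨_, rfl⟩
  have hx10 : 0 ≤ x1 := by rw [hx1]; exact le_max_right _ _
  have hx01 : x0 ≤ x1 := by rw [hx1]; exact le_max_left _ _
  obtain ⟨ε1, hε1⟩ : ∃ ε1 : ℝ, ε1 = min 1 (ε * Real.exp (-x1)) := ⟨_, rfl⟩
  have hex := Real.exp_pos (-x1)
  have hε10 : 0 < ε1 := by rw [hε1]; positivity
  have hε11 : ε1 ≤ 1 := by rw [hε1]; exact min_le_left _ _
  obtain ⟨K, y1, hlaw⟩ := lawM g (g + 2) x1 (ε1 / 4) δ hx10 (by positivity) (by linarith) hδ hδ1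
    (fun w => Mw w + 4 * g) (fun w => by positivity)
  obtain ⟨c1, C1, hc1, hC1, hVz⟩ := Vz_bounds
  obtain ⟨v, hv, hV⟩ := V_lower_unif (g + 1)
  have hlogy : Tendsto (fun y : ℕ => Real.log (y : ℝ)) atTop atTop :=
    Real.tendsto_log_atTop.comp tendsto_natCast_atTop_atTop
  obtain ⟨Y0, hY0⟩ := eventually_atTop.1 (((hlogy.eventually_ge_atTop (C1 * (8 * g) / ε1)).and
    (hlogy.eventually_ge_atTop (1 / v))).and ((hlogy.eventually_ge_atTop 1).and (eventually_ge_atTop (g + 3))))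
  refine ⟨K + 1, max y1 Y0, ?_⟩
  intro y hy X hX L T hTg hT hLx u Y hu hY huY
  obtain ⟨⟨g1, g2⟩, g3, g5⟩ := hY0 y ((le_max_right _ _).trans hy)
  have hy1 : y1 ≤ y := (le_max_left _ _).trans hy
  have hyX : y ≤ X := by
    refine le_trans ?_ hX
    exact Nat.le_self_pow (by omega) y
  have hyr : (3 : ℝ) ≤ y := by
    have : 3 ≤ y := by omega
    exact_mod_cast this
  have hXr : (3 : ℝ) ≤ X := hyr.trans (by exact_mod_cast hyX)
  have hly : 0 < Real.log (y : ℝ) := by linarith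
  have hlyX : Real.log (y : ℝ) ≤ Real.log X := Real.log_le_log (by linarith) (by exact_mod_cast hyX)
  have hlX : 0 < Real.log (X : ℝ) := hly.trans_le hlyX
  obtain ⟨hlow, hup⟩ := hVz y (by omega)
  have hVpos : 0 < Vz y := Pool.Agent.H373R2.T7.Vz_pos y
  by_cases hzero : ∀ p ∈ pz y, nuB (QM T) p < p
  · have hper : PerB (QM T) (g + 1) := by rw [← hTg]; exact perB_QM T
    have hadm : ∀ p : ℕ, p.Prime → nuB (QM T) p < p := by
      intro p hp
      by_cases hpy : p ≤ y
      · exact hzero p (mem_pz.2 ⟨hpy, hp⟩)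
      · have := hper.few p hp
        omega
    have hlow2 : 1 / Real.log X ^ (g + 2) ≤ Vq (QM T) y := by
      have h2 := hV (QM T) hper hadm y (by omega)
      refine le_trans ?_ h2
      rw [div_le_div_iff₀ (by positivity) (by positivity), one_mul]
      rw [div_le_iff₀ hv] at g2
      have h3 : Real.log (y : ℝ) ^ (g + 1) ≤ Real.log (X : ℝ) ^ (g + 1) := pow_le_pow_left₀ hly.le hlyX _
      have h4 : 0 ≤ Real.log (X : ℝ) ^ (g + 1) := by positivity
      calc Real.log (y : ℝ) ^ (g + 1) ≤ Real.log (X : ℝ) ^ (g + 1) * 1 := by linarith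
        _ ≤ Real.log (X : ℝ) ^ (g + 1) * (Real.log y * v) := mul_le_mul_of_nonneg_left g2 h4
        _ ≤ Real.log (X : ℝ) ^ (g + 1) * (Real.log X * v) := by
            apply mul_le_mul_of_nonneg_left _ h4
            exact mul_le_mul_of_nonneg_right hlyX hv.le
        _ = v * Real.log (X : ℝ) ^ (g + 2) := by ring
    have h1 := hlaw X y hy1 ((Nat.pow_le_pow_right (by omega) (by omega)).trans hX) L T (Icc 1 L \ T) hTg hT
      Finset.sdiff_subset Finset.disjoint_sdiff (hLx.trans hx01) (by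
        intro w m
        have h3 := win_dbl L T hT w m
        rw [hTg] at h3
        exact h3) hlow2 u Y hu hY huY
    obtain ⟨a1, a2⟩ := h1
    have a3 := a2 {0}
    rw [← exM_eq T L y u Y hT, Finset.sum_singleton, pow_zero, mul_one, Nat.factorial_zero, Nat.cast_one, div_one] at a3
    obtain ⟨N, hN⟩ : ∃ N : ℝ, N = ((Om 1 0 (QM T) y u Y).card : ℝ) := ⟨_, rfl⟩
    obtain ⟨E, hE⟩ : ∃ E : ℝ, E = (exM T L y u Y : ℝ) := ⟨_, rfl⟩
    obtain ⟨M, hM⟩ : ∃ M : ℝ, M = Y * (Vq (QM T) y / Vz y) := ⟨_, rfl⟩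
    have hM0 : 0 ≤ M := by
      rw [hM]
      exact mul_nonneg (Nat.cast_nonneg _) (div_nonneg (Vq_nonneg _ y) hVpos.le)
    have hN0 : 0 ≤ N := by rw [hN]; exact Nat.cast_nonneg _
    rw [← hN, ← hM] at a1
    rw [← hN, ← hE] at a3
    rw [← hE, ← hM]
    obtain ⟨q, hq⟩ : ∃ q : ℝ, q = Real.exp (-(2 * ((Icc 1 L \ T).card : ℝ) * Vz y)) := ⟨_, rfl⟩
    obtain ⟨e, he⟩ : ∃ e : ℝ, e = Real.exp (-(2 * L * Vz y)) := ⟨_, rfl⟩
    have hcard : ((Icc 1 L \ T).card : ℝ) = L - g := by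
      have h3 : (Icc 1 L \ T).card = L - g := by
        rw [card_sdiff_of_subset hT, Nat.card_Icc, hTg]
        omega
      have h4 : g ≤ L := by
        have := card_le_card hT
        rw [Nat.card_Icc, hTg] at this
        omega
      rw [h3, Nat.cast_sub h4]
    have hqe : |q - e| ≤ ε1 / 4 := by
      rw [hq, he]
      have h4 : (0 : ℝ) ≤ (Icc 1 L \ T).card := Nat.cast_nonneg _
      refine (exp_sub_le _ _ (by positivity) (by positivity)).trans ?_
      rw [hcard, show 2 * ((L : ℝ) - g) * Vz y - 2 * L * Vz y = -(2 * g * Vz y) by ring, abs_neg,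
        abs_of_nonneg (by positivity)]
      have h3 : 2 * (g : ℝ) * Vz y ≤ 2 * g * (C1 / Real.log y) := mul_le_mul_of_nonneg_left hup (by positivity)
      refine h3.trans ?_
      rw [mul_div_assoc', div_le_iff₀ hly]
      rw [div_le_iff₀ hε10] at g1
      linarith
    rw [← hq] at a3
    rw [← he]
    have hq1 : q ≤ 1 := by
      rw [hq]
      apply Real.exp_le_one_iff.2
      have h4 : (0 : ℝ) ≤ (Icc 1 L \ T).card := Nat.cast_nonneg _
      have : 0 ≤ 2 * ((Icc 1 L \ T).card : ℝ) * Vz y := by positivity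
      linarith
    have hq0 : 0 ≤ q := by rw [hq]; exact (Real.exp_pos _).le
    have b1 : |(E - N * q) * Real.log X| ≤ ε1 / 4 * (N * Real.log X) := by
      rw [abs_mul, abs_of_pos hlX]
      calc |E - N * q| * Real.log X ≤ ε1 / 4 * N * Real.log X := mul_le_mul_of_nonneg_right a3 hlX.le
        _ = _ := by ring
    have hNl : N * Real.log X ≤ 2 * M := by
      have := (abs_le.1 a1).2
      nlinarith
    have b2 : |(N * Real.log X - M) * q| ≤ ε1 / 4 * M := by
      rw [abs_mul, abs_of_nonneg hq0]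
      calc |N * Real.log X - M| * q ≤ ε1 / 4 * M * 1 := by
            apply mul_le_mul a1 hq1 hq0 (by positivity)
        _ = _ := by ring
    have b3 : |M * (q - e)| ≤ ε1 / 4 * M := by
      rw [abs_mul, abs_of_nonneg hM0]
      calc M * |q - e| ≤ M * (ε1 / 4) := mul_le_mul_of_nonneg_left hqe hM0
        _ = _ := by ring
    have b4 : E * Real.log X - M * e = (E - N * q) * Real.log X + ((N * Real.log X - M) * q + M * (q - e)) := by ring
    have b5 : |E * Real.log X - M * e| ≤ ε1 * M := by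
      rw [b4]
      refine (abs_add_le _ _).trans ?_
      have b6 := abs_add_le ((N * Real.log X - M) * q) (M * (q - e))
      have b7 : ε1 / 4 * (N * Real.log X) ≤ ε1 / 4 * (2 * M) := mul_le_mul_of_nonneg_left hNl (by positivity)
      linarith
    refine b5.trans ?_
    have b8 : ε1 ≤ ε * e := by
      refine (show ε1 ≤ ε * Real.exp (-x1) by rw [hε1]; exact min_le_right _ _).trans ?_
      apply mul_le_mul_of_nonneg_left _ hε.le
      rw [he]
      exact Real.exp_le_exp.2 (by linarith)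
    calc ε1 * M ≤ ε * e * M := mul_le_mul_of_nonneg_right b8 hM0
      _ = _ := by ring
  · push Not at hzero
    obtain ⟨p, hp, hnu⟩ := hzero
    have hnu' : nuB (QM T) p = p := le_antisymm (nuB_le _ p) hnu
    have hp0 : (0 : ℝ) < p := by exact_mod_cast (mem_pz.1 hp).2.pos
    have hV0 : Vq (QM T) y = 0 := by
      unfold Vq
      apply Finset.prod_eq_zero hp
      rw [hnu', div_self hp0.ne', sub_self]
    rw [exM_zero T L y u Y hT p hp hnu', hV0]
    simp

end Pool.Agent.U98.TZ
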