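import Mathlib
import Pool.Agent.U98.TZ.F3

set_option autoImplicit false

/-!
# Gaps between successive elements and exact patterns
-/

namespace Pool.Agent.U98.TZ

open Finset Filter Pool.Agent.H373R2.T7 Pool.Agent.W123.RP Pool.Agent.W123.RU Pool.Agent.TH464.PO
open Pool.Agent.R463.EX Pool.Agent.U98.TY

/-- the gaps between `0` and the first `l` elements of `G` are in `(s j, T j]` -/
def GapC (l : ℕ) (s T : ℕ → ℕ) (G : ℕ → Prop) : Prop :=
  ∀ j < l, s j < (nxt G)^[j + 1] 0 - (nxt G)^[j] 0 ∧ (nxt G)^[j + 1] 0 - (nxt G)^[j] 0 ≤ T j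

variable {l : ℕ} {s T : ℕ → ℕ} {G G' : ℕ → Prop}

lemma GapC.lt (h : GapC l s T G) (j : ℕ) (hj : j < l) : (nxt G)^[j] 0 < (nxt G)^[j + 1] 0 := by
  have := (h j hj).1
  omega

lemma GapC.le (h : GapC l s T G) (j : ℕ) (hj : j ≤ l) : (nxt G)^[j] 0 ≤ (nxt G)^[l] 0 := by
  obtain ⟨d, hd⟩ : ∃ d, l = j + d := ⟨l - j, by omega⟩
  have key : ∀ e ≤ d, (nxt G)^[j] 0 ≤ (nxt G)^[j + e] 0 := by
    intro e
    induction e with
    | zero => intro _; exact le_rfl
    | succ e ih =>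
      intro he
      have h1 := ih (by omega)
      have h2 := h.lt (j + e) (by omega)
      have h3 : j + (e + 1) = j + e + 1 := by omega
      rw [h3]
      omega
  have := key d le_rfl
  rwa [← hd] at this

lemma GapC.sum (h : GapC l s T G) : (nxt G)^[l] 0 ≤ ∑ j ∈ range l, T j := by
  have key : ∀ j ≤ l, (nxt G)^[j] 0 ≤ ∑ i ∈ range j, T i := by
    intro j
    induction j with
    | zero => intro _; simp
    | succ j ih =>
      intro hj
      have h1 := ih (by omega)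
      have h2 := h j (by omega)
      rw [Finset.sum_range_succ]
      omega
  exact key l le_rfl

lemma GapC.mem (h : GapC l s T G) (j : ℕ) (hj : j < l) : G ((nxt G)^[j + 1] 0) := by
  have h1 := h.lt j hj
  rw [Function.iterate_succ_apply'] at h1 ⊢
  exact nxt_mem G _ h1

lemma gap_agree (h : GapC l s T G) (hG : ∀ k, 1 ≤ k → k ≤ (nxt G)^[l] 0 → (G k ↔ G' k)) :
    ∀ j ≤ l, (nxt G')^[j] 0 = (nxt G)^[j] 0 := by
  intro j
  induction j with
  | zero => intro _; rfl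
  | succ j ih =>
    intro hj
    have h1 := ih (by omega)
    have h2 := h.lt j (by omega)
    have h3 := h.mem j (by omega)
    have h4 := h.le (j + 1) hj
    rw [Function.iterate_succ_apply'] at h2 h3 h4
    rw [Function.iterate_succ_apply', Function.iterate_succ_apply', h1]
    obtain ⟨a, ha⟩ : ∃ a, a = (nxt G)^[j] 0 := ⟨_, rfl⟩
    rw [← ha] at h2 h3 h4 ⊢
    have h5 : G' (nxt G a) := (hG _ (by omega) h4).1 h3
    have h6 := nxt_le G' a _ h2 h5
    have h7 := nxt_lt G' a _ h2 h5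
    have h8 := nxt_mem G' a h7
    have h9 : G (nxt G' a) := (hG _ (by omega) (by omega)).2 h8
    have h10 := nxt_le G a _ h7 h9
    omega

lemma gapC_congr (h : GapC l s T G) (hG : ∀ k, 1 ≤ k → k ≤ (nxt G)^[l] 0 → (G k ↔ G' k)) : GapC l s T G' := by
  intro j hj
  rw [gap_agree h hG (j + 1) (by omega), gap_agree h hG j (by omega)]
  exact h j hj

open Classical in
lemma gap_card (h : GapC l s T G) : ∀ j ≤ l, ((Icc 1 ((nxt G)^[j] 0)).filter G).card = j := by
  intro j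
  induction j with
  | zero => intro _; simp
  | succ j ih =>
    intro hj
    have h1 := ih (by omega)
    have h2 := h.lt j (by omega)
    have h3 := h.mem j (by omega)
    rw [Function.iterate_succ_apply'] at h2 h3 ⊢
    obtain ⟨a, ha⟩ : ∃ a, a = (nxt G)^[j] 0 := ⟨_, rfl⟩
    rw [← ha] at h1 h2 h3 ⊢
    have e : (Icc 1 (nxt G a)).filter G = insert (nxt G a) ((Icc 1 a).filter G) := by
      ext k
      rw [mem_filter, mem_insert, mem_filter, mem_Icc, mem_Icc]
      constructor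
      · rintro ⟨⟨b1, b2⟩, b3⟩
        rcases Nat.lt_or_ge a k with h4 | h4
        · left
          have := nxt_le G a k h4 b3
          omega
        · right
          exact ⟨⟨b1, h4⟩, b3⟩
      · rintro (rfl | ⟨⟨b1, b2⟩, b3⟩)
        · exact ⟨⟨by omega, le_rfl⟩, h3⟩
        · exact ⟨⟨b1, by omega⟩, b3⟩
    rw [e, card_insert_of_notMem, h1]
    rw [mem_filter, mem_Icc]
    rintro ⟨⟨_, b2⟩, _⟩
    omega

open Classical in
/-- the sets of `l` elements with the given gaps -/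
noncomputable def TF (l : ℕ) (s T : ℕ → ℕ) : Finset (Finset ℕ) :=
  (powersetCard l (Icc 1 (∑ j ∈ range l, T j))).filter (fun S => GapC l s T (fun k => k ∈ S))

lemma TF_sup {S : Finset ℕ} (hS : S ∈ TF l s T) : S.sup id = (nxt (fun k => k ∈ S))^[l] 0 := by
  classical
  unfold TF at hS
  rw [mem_filter, mem_powersetCard] at hS
  obtain ⟨⟨h1, h2⟩, h3⟩ := hS
  obtain ⟨e, he⟩ : ∃ e, e = (nxt (fun k => k ∈ S))^[l] 0 := ⟨_, rfl⟩
  have h4 := gap_card h3 l le_rfl
  rw [← he] at h4 ⊢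
  have h5 : (Icc 1 e).filter (fun k => k ∈ S) = S := by
    apply Finset.eq_of_subset_of_card_le
    · intro k hk
      exact (mem_filter.1 hk).2
    · have h4' : ((Icc 1 e).filter (fun k => k ∈ S)).card = l := by convert h4
      rw [h2]
      exact h4'.ge
  apply le_antisymm
  · apply Finset.sup_le
    intro k hk
    rw [← h5] at hk
    exact (mem_Icc.1 (mem_filter.1 hk).1).2
  · rcases Nat.eq_zero_or_pos l with h0 | h0
    · subst h0
      rw [he]
      simp
    · obtain ⟨j, rfl⟩ : ∃ j, l = j + 1 := ⟨l - 1, by omega⟩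
      have h6 := h3.mem j (by omega)
      rw [← he] at h6
      exact Finset.le_sup (f := id) h6

lemma TF_sub {S : Finset ℕ} (hS : S ∈ TF l s T) : S ⊆ Icc 1 (S.sup id) := by
  classical
  intro k hk
  have h1 := hS
  unfold TF at h1
  rw [mem_filter, mem_powersetCard] at h1
  have h2 := mem_Icc.1 (h1.1.1 hk)
  rw [mem_Icc]
  exact ⟨h2.1, Finset.le_sup (f := id) hk⟩

lemma TF_card {S : Finset ℕ} (hS : S ∈ TF l s T) : S.card = l := by
  classical
  unfold TF at hS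
  rw [mem_filter, mem_powersetCard] at hS
  exact hS.1.2

lemma TF_gap {S : Finset ℕ} (hS : S ∈ TF l s T) : GapC l s T (fun k => k ∈ S) := by
  classical
  unfold TF at hS
  rw [mem_filter] at hS
  exact hS.2

lemma TF_le {S : Finset ℕ} (hS : S ∈ TF l s T) : S.sup id ≤ ∑ j ∈ range l, T j := by
  rw [TF_sup hS]
  exact (TF_gap hS).sum

lemma gapC_iff (G : ℕ → Prop) : GapC l s T G ↔ ∃ S ∈ TF l s T, ∀ k ∈ Icc 1 (S.sup id), (G k ↔ k ∈ S) := by
  classical
  constructor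
  · intro h
    obtain ⟨e, he⟩ : ∃ e, e = (nxt G)^[l] 0 := ⟨_, rfl⟩
    obtain ⟨S, hS⟩ : ∃ S, S = (Icc 1 e).filter G := ⟨_, rfl⟩
    have hag : ∀ k, 1 ≤ k → k ≤ (nxt G)^[l] 0 → (G k ↔ (fun k => k ∈ S) k) := by
      intro k hk1 hk2
      simp only
      rw [hS, mem_filter, mem_Icc]
      exact ⟨fun hg => ⟨⟨hk1, by rw [he]; exact hk2⟩, hg⟩, fun hg => hg.2⟩
    have hST : S ∈ TF l s T := by
      unfold TF
      rw [mem_filter, mem_powersetCard]
      refine ⟨⟨?_, ?_⟩, gapC_congr h hag⟩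
      · intro k hk
        rw [hS, mem_filter, mem_Icc] at hk
        rw [mem_Icc]
        have := h.sum
        omega
      · rw [hS, he]
        convert gap_card h l le_rfl
    refine ⟨S, hST, ?_⟩
    intro k hk
    rw [mem_Icc] at hk
    rw [TF_sup hST, gap_agree h hag l le_rfl] at hk
    exact hag k hk.1 hk.2
  · rintro ⟨S, hS, h⟩
    apply gapC_congr (TF_gap hS)
    intro k hk1 hk2
    rw [← TF_sup hS] at hk2
    exact (h k (mem_Icc.2 ⟨hk1, hk2⟩)).symm

lemma TF_uniq (G : ℕ → Prop) (S S' : Finset ℕ) (hS : S ∈ TF l s T) (hS' : S' ∈ TF l s T)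
    (h : ∀ k ∈ Icc 1 (S.sup id), (G k ↔ k ∈ S)) (h' : ∀ k ∈ Icc 1 (S'.sup id), (G k ↔ k ∈ S')) : S = S' := by
  have key : ∀ S0 : Finset ℕ, S0 ∈ TF l s T → (∀ k ∈ Icc 1 (S0.sup id), (G k ↔ k ∈ S0)) →
      S0.sup id = (nxt G)^[l] 0 := by
    intro S0 h0 h1
    rw [TF_sup h0]
    symm
    apply gap_agree (TF_gap h0) _ l le_rfl
    intro k hk1 hk2
    rw [← TF_sup h0] at hk2
    exact (h1 k (mem_Icc.2 ⟨hk1, hk2⟩)).symm
  have e1 := key S hS h
  have e2 := key S' hS' h'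
  ext k
  constructor
  · intro hk
    have h3 := TF_sub hS hk
    have h4 := (h k h3).2 hk
    rw [e1, ← e2] at h3
    exact (h' k h3).1 h4
  · intro hk
    have h3 := TF_sub hS' hk
    have h4 := (h' k h3).2 hk
    rw [e2, ← e1] at h3
    exact (h k h3).1 h4

/-- `G` agrees with `S` up to the last element of `S` -/
def AgS (G : ℕ → Prop) (S : Finset ℕ) : Prop := ∀ k ∈ Icc 1 (S.sup id), (G k ↔ k ∈ S)

open Classical in
/-- **The count as a sum over exact patterns.** -/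
lemma count_gap (l : ℕ) (s T : ℕ → ℕ) (Ω : Finset ℕ) (G : ℕ → ℕ → Prop) :
    (Ω.filter (fun n => GapC l s T (G n))).card =
      ∑ S ∈ TF l s T, (Ω.filter (fun n => AgS (G n) S)).card := by
  rw [← card_biUnion]
  · congr 1
    ext n
    rw [mem_filter, mem_biUnion]
    constructor
    · rintro ⟨h1, h2⟩
      obtain ⟨S, hS, h3⟩ := (gapC_iff (G n)).1 h2
      exact ⟨S, hS, mem_filter.2 ⟨h1, h3⟩⟩
    · rintro ⟨S, hS, h3⟩
      rw [mem_filter] at h3
      exact ⟨h3.1, (gapC_iff (G n)).2 ⟨S, hS, h3.2⟩⟩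
  · intro S hS S' hS' hne
    rw [Function.onFun, Finset.disjoint_left]
    intro n h1 h2
    rw [mem_filter] at h1 h2
    exact hne (TF_uniq (G n) S S' hS hS' h1.2 h2.2)

/-! ### the additive side -/

lemma sf_rgh (w m : ℕ) : Sf Qi w m ↔ Rgh w m := by
  unfold Sf Rgh Qi
  constructor
  · intro h2 p hp hpw
    exact h2 p (mem_pz.2 ⟨hpw, hp⟩)
  · intro h2 p hp
    exact h2 p (mem_pz.1 hp).2 (mem_pz.1 hp).1

lemma rgh_odd (w m : ℕ) (hw : 2 ≤ w) (h : Rgh w m) : m % 2 = 1 := by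
  have := h 2 Nat.prime_two hw
  omega

lemma rgh_big (w m : ℕ) : ∃ q, m < q ∧ Rgh w q := by
  obtain ⟨q, hq1, hq2⟩ := Nat.exists_infinite_primes (m + w + 1)
  refine ⟨q, by omega, ?_⟩
  intro p hp hpw hd
  have := (Nat.prime_dvd_prime_iff_eq hp hq2).1 hd
  omega

lemma nxt_rgh (w m : ℕ) : m < nxt (Rgh w) m ∧ Rgh w (nxt (Rgh w) m) := by
  obtain ⟨q, h1, h2⟩ := rgh_big w m
  have h3 := nxt_lt (Rgh w) m q h1 h2
  exact ⟨h3, nxt_mem (Rgh w) m h3⟩

lemma nxt_half (w n k : ℕ) (hw : 2 ≤ w) (hn : Rgh w n) :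
    nxt (Rgh w) (n + 2 * k) = n + 2 * nxt (fun k => Rgh w (n + 2 * k)) k := by
  have hn2 := rgh_odd w n hw hn
  obtain ⟨h1, h2⟩ := nxt_rgh w (n + 2 * k)
  have h3 := rgh_odd w _ hw h2
  obtain ⟨b, hb⟩ : ∃ b, nxt (Rgh w) (n + 2 * k) = n + 2 * b := ⟨(nxt (Rgh w) (n + 2 * k) - n) / 2, by omega⟩
  rw [hb] at h1 h2 ⊢
  have h4 : k < b := by omega
  have h5 := nxt_le (fun k => Rgh w (n + 2 * k)) k b h4 h2
  have h6 := nxt_lt (fun k => Rgh w (n + 2 * k)) k b h4 h2
  have h7 := nxt_mem (fun k => Rgh w (n + 2 * k)) k h6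
  have h8 := nxt_le (Rgh w) (n + 2 * k) (n + 2 * nxt (fun k => Rgh w (n + 2 * k)) k) (by omega) h7
  omega

lemma iter_half (w n : ℕ) (hw : 2 ≤ w) (hn : Rgh w n) (j : ℕ) :
    (nxt (Rgh w))^[j] n = n + 2 * (nxt (fun k => Rgh w (n + 2 * k)))^[j] 0 := by
  induction j with
  | zero => simp
  | succ j ih => rw [Function.iterate_succ_apply', Function.iterate_succ_apply', ih, nxt_half w n _ hw hn]

lemma blk_zero (w m : ℕ) : Blk w {0} m ↔ Rgh w m := by
  unfold Blk
  rw [Finset.sup_singleton]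
  simp

lemma nxB_eq (w : ℕ) : nxB w {{0}} = nxt (Rgh w) := by
  funext m
  unfold nxB nxt
  congr 1
  ext m'
  simp only [Set.mem_ofPred_eq, mem_singleton, exists_eq_left, blk_zero]

open Classical in
lemma cB_eq (w l : ℕ) (hw : 2 ≤ w) (s T : ℕ → ℕ) (u Y : ℕ) :
    cB w {{0}} l (fun _ => {0}) (fun j => 2 * s j) (fun j => 2 * T j) u Y =
      (((Ioc u (u + Y)).filter (fun n => Sf Qi w n)).filter
        (fun n => GapC l s T (fun k => Sf Qi w (n + 2 * k)))).card := by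
  unfold cB
  rw [← Set.ncard_coe_finset]
  congr 1
  ext n
  rw [Set.mem_ofPred_eq, Finset.mem_coe, mem_filter, mem_filter, mem_Ioc, nxB_eq]
  simp only [blk_zero, sf_rgh]
  constructor
  · rintro ⟨h1, h2, h3, h4⟩
    have hn : Rgh w n := h3 0 (Nat.zero_le _)
    refine ⟨⟨⟨h1, h2⟩, hn⟩, ?_⟩
    intro j hj
    have h5 := h4 j hj
    rw [iter_half w n hw hn, iter_half w n hw hn] at h5
    omega
  · rintro ⟨⟨⟨h1, h2⟩, hn⟩, h4⟩
    refine ⟨h1, h2, ?_, ?_⟩
    · intro j _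
      rcases Nat.eq_zero_or_pos j with h0 | h0
      · subst h0
        exact hn
      · obtain ⟨i, rfl⟩ : ∃ i, j = i + 1 := ⟨j - 1, by omega⟩
        rw [Function.iterate_succ_apply']
        exact (nxt_rgh w _).2
    · intro j hj
      have h5 := h4 j hj
      rw [iter_half w n hw hn, iter_half w n hw hn]
      omega

end Pool.Agent.U98.TZ
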