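import Mathlib
import Pool.Agent.U98.TZ.F4

set_option autoImplicit false

/-!
# The successive multipliers
-/

namespace Pool.Agent.U98.TZ

open Finset Filter Pool.Agent.H373R2.T7 Pool.Agent.W123.RP Pool.Agent.W123.RU Pool.Agent.TH464.PO
open Pool.Agent.R463.EX Pool.Agent.U98.TY Pool.Agent.Y879.PR

open Classical in
lemma exM_ag (S : Finset ℕ) (y u Y : ℕ) :
    ((Om 1 0 Qi y u Y).filter (fun n => AgS (fun k => Sf Qi y (2 * k * n + 1)) S)).card = exM S (S.sup id) y u Y := by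
  unfold exM
  congr 1
  ext n
  constructor
  · intro h
    have h1 := (@Finset.mem_filter _ _ _ _ _).1 h
    exact (@Finset.mem_filter _ _ _ _ _).2 h1
  · intro h
    have h1 := (@Finset.mem_filter _ _ _ _ _).1 h
    exact (@Finset.mem_filter _ _ _ _ _).2 h1

open Classical in
lemma exN_ag (l : ℕ) (s T : ℕ → ℕ) (S : Finset ℕ) (hS : S ∈ TF l s T) (y u Y : ℕ) (hy : 2 ≤ y) :
    (((Ioc u (u + Y)).filter (fun n => Sf Qi y n)).filter
      (fun n => AgS (fun k => Sf Qi y (n + 2 * k)) S)).card = exN Qi ({0} ∪ dT S) (2 * S.sup id) y u Y := by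
  unfold exN
  congr 1
  ext n
  simp only [mem_filter, AgS, mem_Ioc, mem_Icc]
  have hmem : ∀ k, 1 ≤ k → (2 * k ∈ ({0} ∪ dT S) ↔ k ∈ S) := by
    intro k hk
    unfold dT
    rw [mem_union, mem_singleton, mem_image]
    constructor
    · rintro (h | ⟨k', h1, h2⟩)
      · omega
      · have : k' = k := by omega
        rwa [← this]
    · intro h
      exact Or.inr ⟨k, h, rfl⟩
  constructor
  · rintro ⟨⟨⟨h1, h2⟩, h3⟩, h4⟩
    refine ⟨⟨by omega, h2⟩, ?_⟩
    intro h hh
    have hn := rgh_odd y n hy ((sf_rgh y n).1 h3)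
    rcases Nat.even_or_odd' h with ⟨k, hk | hk⟩
    · subst hk
      rcases Nat.eq_zero_or_pos k with h0 | h0
      · subst h0
        constructor
        · intro _
          simp
        · intro _
          simpa using h3
      · rw [hmem k h0]
        exact h4 k ⟨h0, by omega⟩
    · constructor
      · intro hs
        have := rgh_odd y _ hy ((sf_rgh y _).1 hs)
        omega
      · intro hs
        unfold dT at hs
        rw [mem_union, mem_singleton, mem_image] at hs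
        rcases hs with hs | ⟨k', _, hs⟩
        · omega
        · omega
  · rintro ⟨⟨h1, h2⟩, h3⟩
    have h4 : Sf Qi y n := by
      have h5 := (h3 0 (Nat.zero_le _)).2 (by simp)
      simpa using h5
    refine ⟨⟨⟨by omega, h2⟩, h4⟩, ?_⟩
    rintro k ⟨hk1, hk2⟩
    rw [h3 (2 * k) (by omega)]
    exact hmem k hk1

open Classical in
/-- **The joint law of the successive multipliers.** -/
theorem succM (l : ℕ) (x0 ε δ : ℝ) (hε : 0 < ε) (hδ : 0 < δ) (hδ1 : δ ≤ 1) :
    ∃ r y0 : ℕ, ∀ y : ℕ, y0 ≤ y → ∀ X : ℕ, y ^ r ≤ X → ∀ s T : ℕ → ℕ, (∀ j < l, s j ≤ T j) →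
      2 * (∑ j ∈ range l, T j : ℕ) * Vz y ≤ x0 → ∀ u Y : ℕ, δ * X ≤ u → δ * X ≤ Y → u + Y ≤ X →
      |(((Om 1 0 Qi y u Y).filter (fun n => GapC l s T (fun k => Sf Qi y (2 * k * n + 1)))).card : ℝ) * Real.log X -
        Y * ∏ j ∈ range l, (Real.exp (-(2 * s j * Vz y)) - Real.exp (-(2 * T j * Vz y)))| ≤ ε * Y := by
  obtain ⟨e1, he1⟩ : ∃ e1 : ℝ, e1 = min (ε / 16) (1 / 2) := ⟨_, rfl⟩
  have he0 : 0 < e1 := by rw [he1]; positivity
  have hea : e1 ≤ ε / 16 := by rw [he1]; exact min_le_left _ _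
  have heb : e1 ≤ 1 / 2 := by rw [he1]; exact min_le_right _ _
  obtain ⟨s1, y1, hM⟩ := pattM l x0 e1 δ he0 hδ hδ1
  obtain ⟨s2, y2, hA⟩ := patt_rough (l + 1) (by omega) x0 e1 he0
  obtain ⟨s3, y3, hC⟩ := law_family 1 l {{0}} (by
    intro S hS
    rw [mem_singleton] at hS
    subst hS
    exact ⟨card_singleton 0, mem_singleton_self 0⟩) ⟨{0}, mem_singleton_self _, by
    intro p hp
    unfold nuS
    rw [Finset.image_singleton, card_singleton]
    exact hp.one_lt⟩ e1 he0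
  obtain ⟨y4, hy4⟩ : ∃ y4 : ℕ, 1 / δ ≤ y4 := exists_nat_ge _
  refine ⟨s1 + s2 + s3 + 1, y1 + y2 + y3 + y4 + 2, ?_⟩
  intro y hy X hX s T hsT hx u Y hu hY huY
  have hyr : (1 : ℝ) ≤ y := by exact_mod_cast (by omega : 1 ≤ y)
  have hδy : 1 ≤ δ * y := by
    have h1 : 1 / δ ≤ y := hy4.trans (by exact_mod_cast (by omega : y4 ≤ y))
    rw [div_le_iff₀ hδ] at h1
    linarith
  have hYbig : ∀ t ≤ s1 + s2 + s3, y ^ t ≤ Y := by
    intro t ht
    have h1 : (y : ℝ) ^ (s1 + s2 + s3 + 1) ≤ X := by exact_mod_cast hX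
    have h2 : (y : ℝ) ^ t ≤ (y : ℝ) ^ (s1 + s2 + s3) := pow_le_pow_right₀ hyr ht
    have h3 : (y : ℝ) ^ (s1 + s2 + s3) ≤ Y := by
      refine le_trans ?_ hY
      calc (y : ℝ) ^ (s1 + s2 + s3) = (y : ℝ) ^ (s1 + s2 + s3) * 1 := (mul_one _).symm
        _ ≤ (y : ℝ) ^ (s1 + s2 + s3) * (δ * y) := mul_le_mul_of_nonneg_left hδy (by positivity)
        _ = δ * (y : ℝ) ^ (s1 + s2 + s3 + 1) := by ring
        _ ≤ δ * X := mul_le_mul_of_nonneg_left h1 hδ.le
    exact_mod_cast h2.trans h3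
  have hXs : y ^ s1 ≤ X := (Nat.pow_le_pow_right (by omega) (by omega)).trans hX
  obtain ⟨V, hV⟩ : ∃ V, V = Vz y := ⟨_, rfl⟩
  have hV0 : 0 < V := by rw [hV]; exact Pool.Agent.H373R2.T7.Vz_pos y
  have hY0 : (0 : ℝ) ≤ Y := Nat.cast_nonneg _
  rw [count_gap l s T (Om 1 0 Qi y u Y) (fun n k => Sf Qi y (2 * k * n + 1))]
  simp only [exM_ag]
  have hcB := cB_eq y l (by omega) s T u Y
  rw [count_gap l s T _ (fun n k => Sf Qi y (n + 2 * k))] at hcB
  have hcB2 : (cB y {{0}} l (fun _ => {0}) (fun j => 2 * s j) (fun j => 2 * T j) u Y : ℝ) =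
      ∑ S ∈ TF l s T, (exN Qi ({0} ∪ dT S) (2 * S.sup id) y u Y : ℝ) := by
    rw [hcB]
    push_cast
    apply Finset.sum_congr rfl
    intro S hS
    rw [exN_ag l s T S hS y u Y (by omega)]
  obtain ⟨Rr, hRr⟩ : ∃ Rr : ℝ, Rr = ∑ S ∈ TF l s T, (exN Qi ({0} ∪ dT S) (2 * S.sup id) y u Y : ℝ) := ⟨_, rfl⟩
  obtain ⟨Pi0, hPi⟩ : ∃ Pi0 : ℝ, Pi0 = ∏ j ∈ range l, (Real.exp (-(2 * s j * V)) - Real.exp (-(2 * T j * V))) := ⟨_, rfl⟩
  have hPi1 : Pi0 ≤ 1 := by
    rw [hPi]
    apply Finset.prod_le_one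
    · intro j hj
      rw [mem_range] at hj
      have h1 : (s j : ℝ) ≤ T j := by exact_mod_cast hsT j hj
      have h2 : 2 * (s j : ℝ) * V ≤ 2 * T j * V := by gcongr
      have h3 := Real.exp_le_exp.2 (neg_le_neg h2)
      linarith
    · intro j _
      have h1 : Real.exp (-(2 * (s j : ℝ) * V)) ≤ 1 := Real.exp_le_one_iff.2 (by
        have : 0 ≤ 2 * (s j : ℝ) * V := by positivity
        linarith)
      have h2 := Real.exp_pos (-(2 * (T j : ℝ) * V))
      linarith
  have hdS : dS y {0} = V := by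
    rw [hV]
    unfold dS Vz nuS
    apply prod_congr rfl
    intro p _
    rw [Finset.image_singleton, card_singleton, Nat.cast_one]
  have hlaw : |Rr - V * Y * Pi0| ≤ e1 * (V * Y) := by
    have h1 := hC y (by omega) u Y (hYbig s3 (by omega)) (fun _ => {0}) (fun j => 2 * s j) (fun j => 2 * T j)
      (fun j _ => mem_singleton_self _) (fun j hj => Nat.mul_le_mul_left 2 (hsT j hj)) V (by
        rw [Finset.sum_singleton, hdS])
    rw [hcB2, ← hRr] at h1
    have h2 : (∏ j ∈ range (l + 1), dS y ((fun _ : ℕ => ({0} : Finset ℕ)) j) / V) = 1 := by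
      apply Finset.prod_eq_one
      intro j _
      simp only
      rw [hdS, div_self hV0.ne']
    rw [h2, mul_one] at h1
    have h3 : ∏ j ∈ range l, (Real.exp (-(V * ((2 * s j : ℕ) : ℝ))) - Real.exp (-(V * ((2 * T j : ℕ) : ℝ)))) = Pi0 := by
      rw [hPi]
      apply prod_congr rfl
      intro j _
      push_cast
      rw [show V * (2 * (s j : ℝ)) = 2 * s j * V by ring, show V * (2 * (T j : ℝ)) = 2 * T j * V by ring]
    rw [h3] at h1
    exact h1
  have hRup : Rr / V ≤ 2 * Y := by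
    rw [div_le_iff₀ hV0]
    have h1 := (abs_le.1 hlaw).2
    have h2 : V * Y * Pi0 ≤ V * Y * 1 := mul_le_mul_of_nonneg_left hPi1 (by positivity)
    have h3 : e1 * (V * Y) ≤ 1 / 2 * (V * Y) := mul_le_mul_of_nonneg_right heb (by positivity)
    have h4 : 0 ≤ V * Y := by positivity
    nlinarith
  have hmain : |(∑ S ∈ TF l s T, (exM S (S.sup id) y u Y : ℝ)) * Real.log X - Rr / V| ≤ 4 * e1 * (Rr / V) := by
    rw [hRr, Finset.sum_mul, Finset.sum_div, ← Finset.sum_sub_distrib, Finset.mul_sum]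
    refine (Finset.abs_sum_le_sum_abs _ _).trans ?_
    apply Finset.sum_le_sum
    intro S hS
    have hsup := TF_le hS
    have hLx : 2 * (S.sup id : ℕ) * Vz y ≤ x0 := by
      refine le_trans ?_ hx
      rw [← hV]
      have : ((S.sup id : ℕ) : ℝ) ≤ ((∑ j ∈ range l, T j : ℕ) : ℝ) := by exact_mod_cast hsup
      gcongr
    have h1 := hM y (by omega) X hXs (S.sup id) S (TF_card hS) (TF_sub hS) hLx u Y hu hY huY
    have h2 := hA y (by omega) u Y (hYbig s2 (by omega)) ({0} ∪ dT S) (by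
      rw [hT_card (S.sup id) S (TF_sub hS), TF_card hS]) (by simp) (2 * S.sup id) (by
      intro h hh
      rw [mem_union, mem_singleton] at hh
      rw [mem_range]
      rcases hh with hh | hh
      · omega
      · unfold dT at hh
        rw [mem_image] at hh
        obtain ⟨k, hk, rfl⟩ := hh
        have := mem_Icc.1 (TF_sub hS hk)
        omega) (by
      rw [Vz_Qi]
      push_cast
      exact hLx)
    rw [Vz_Qi, ← Vq_QM] at h2
    rw [← hV] at h1 h2
    obtain ⟨P, hP⟩ : ∃ P, P = Vq (QM S) y := ⟨_, rfl⟩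
    have hP0 : 0 ≤ P := by rw [hP]; exact Vq_nonneg _ y
    obtain ⟨q, hq⟩ : ∃ q, q = Real.exp (-(2 * ((S.sup id : ℕ) : ℝ) * V)) := ⟨_, rfl⟩
    have hq0 : 0 < q := by rw [hq]; exact Real.exp_pos _
    have hq2 : Real.exp (-(((2 * S.sup id : ℕ) : ℝ) * V)) = q := by
      rw [hq]
      push_cast
      rfl
    rw [← hP, ← hq] at h1
    rw [← hP, hq2] at h2
    obtain ⟨m, hm⟩ : ∃ m : ℝ, m = Y * (P / V) * q := ⟨_, rfl⟩
    have hm0 : 0 ≤ m := by rw [hm]; positivity
    have hmV : Y * P * q = V * m := by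
      rw [hm]
      field_simp
    rw [← hm] at h1
    rw [hmV] at h2
    obtain ⟨a, ha⟩ : ∃ a : ℝ, a = (exM S (S.sup id) y u Y : ℝ) * Real.log X := ⟨_, rfl⟩
    obtain ⟨b, hb⟩ : ∃ b : ℝ, b = (exN Qi ({0} ∪ dT S) (2 * S.sup id) y u Y : ℝ) / V := ⟨_, rfl⟩
    have h3 : |b - m| ≤ e1 * m := by
      have h4 : b - m = ((exN Qi ({0} ∪ dT S) (2 * S.sup id) y u Y : ℝ) - V * m) / V := by
        rw [hb]
        field_simp
      rw [h4, abs_div, abs_of_pos hV0, div_le_iff₀ hV0]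
      calc _ ≤ e1 * (V * m) := h2
        _ = _ := by ring
    rw [← ha] at h1 ⊢
    rw [← hb]
    have h5 : m ≤ 2 * b := by
      have := (abs_le.1 h3).1
      nlinarith
    have h6 := abs_sub_le a m b
    have h7 : |m - b| = |b - m| := abs_sub_comm _ _
    have h8 : e1 * m ≤ e1 * (2 * b) := mul_le_mul_of_nonneg_left h5 he0.le
    calc |a - b| ≤ |a - m| + |m - b| := h6
      _ ≤ e1 * (2 * b) + e1 * (2 * b) := by rw [h7]; linarith
      _ = 4 * e1 * b := by ring
  rw [← hV]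
  rw [← hPi]
  have hRV : |Rr / V - Y * Pi0| ≤ e1 * Y := by
    have h1 : Rr / V - Y * Pi0 = (Rr - V * Y * Pi0) / V := by field_simp
    rw [h1, abs_div, abs_of_pos hV0, div_le_iff₀ hV0]
    calc _ ≤ e1 * (V * Y) := hlaw
      _ = _ := by ring
  push_cast
  have h9 := abs_sub_le ((∑ S ∈ TF l s T, (exM S (S.sup id) y u Y : ℝ)) * Real.log X) (Rr / V) (Y * Pi0)
  have h10 : 4 * e1 * (Rr / V) ≤ 4 * e1 * (2 * Y) := mul_le_mul_of_nonneg_left hRup (by positivity)
  have h11 : e1 * Y ≤ ε / 16 * Y := mul_le_mul_of_nonneg_right hea hY0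
  have h12 : 0 ≤ ε * Y := by positivity
  nlinarith

/-! ### unions of intervals -/

/-- the union of the intervals `(a j, b j]`, `j < J` -/
def UI (J : ℕ) (a b : ℕ → ℕ) : Finset ℕ := (range J).biUnion (fun j => Ioc (a j) (b j))

lemma mem_UI {J : ℕ} {a b : ℕ → ℕ} {k : ℕ} : k ∈ UI J a b ↔ ∃ j < J, a j < k ∧ k ≤ b j := by
  unfold UI
  simp only [mem_biUnion, mem_range, mem_Ioc]

open Classical in
lemma win_int (L a b : ℕ) (hbL : b ≤ L) (w m : ℕ) :
    |(((dbl L (Ioc a b)).filter (fun h => Sf Qi w (m + h))).card : ℝ) - (dbl L (Ioc a b)).card * Vq Qi w| ≤ Mw w := by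
  have e : dbl L (Ioc a b) = (Icc 1 (2 * (b - a))).image (fun h => h + 2 * a) := by
    ext h
    unfold dbl
    rw [mem_filter, mem_image, mem_Icc, mem_Ioc]
    constructor
    · rintro ⟨h1, h2⟩
      exact ⟨h - 2 * a, mem_Icc.2 (by omega), by omega⟩
    · rintro ⟨h', h1, rfl⟩
      rw [mem_Icc] at h1
      omega
  have hinj : Function.Injective (fun h => h + 2 * a) := fun x y h => by
    have h' : x + 2 * a = y + 2 * a := h
    omega
  have e2 : ((dbl L (Ioc a b)).filter (fun h => Sf Qi w (m + h))).card =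
      ((Icc 1 (2 * (b - a))).filter (fun h => Sf Qi w (m + 2 * a + h))).card := by
    rw [e, Finset.filter_image, card_image_of_injective _ hinj]
    congr 1
    ext h
    rw [mem_filter, mem_filter]
    rw [show m + (h + 2 * a) = m + 2 * a + h by ring]
  have e3 : (dbl L (Ioc a b)).card = 2 * (b - a) := by
    rw [e, card_image_of_injective _ hinj, Nat.card_Icc, Nat.add_sub_cancel]
  rw [e2, e3]
  exact window Qi 1 perB_Qi w (m + 2 * a) (2 * (b - a))

open Classical in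
lemma win_UI (L J : ℕ) (a b : ℕ → ℕ) (hb : ∀ j < J, b j ≤ L) (hab : ∀ i j, i < j → j < J → b i ≤ a j) (w m : ℕ) :
    |(((dbl L (UI J a b)).filter (fun h => Sf Qi w (m + h))).card : ℝ) - (dbl L (UI J a b)).card * Vq Qi w| ≤
      J * Mw w := by
  induction J with
  | zero =>
    have e : dbl L (UI 0 a b) = ∅ := by
      unfold dbl UI
      simp
    rw [e]
    simp
  | succ J ih =>
    have h1 := ih (fun j hj => hb j (by omega)) (fun i j h2 h3 => hab i j h2 (by omega))
    have h2 := win_int L (a J) (b J) (hb J (by omega)) w m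
    have e : dbl L (UI (J + 1) a b) = dbl L (UI J a b) ∪ dbl L (Ioc (a J) (b J)) := by
      ext h
      unfold dbl
      rw [mem_union, mem_filter, mem_filter, mem_filter, mem_UI, mem_UI, mem_Ioc, ← and_or_left]
      apply and_congr_right
      intro _
      constructor
      · rintro ⟨j, hj, h3⟩
        rcases Nat.lt_or_ge j J with h4 | h4
        · exact Or.inl ⟨j, h4, h3⟩
        · have : j = J := by omega
          subst this
          exact Or.inr h3
      · rintro (⟨j, hj, h3⟩ | h3)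
        · exact ⟨j, by omega, h3⟩
        · exact ⟨J, by omega, h3⟩
    have hd : Disjoint (dbl L (UI J a b)) (dbl L (Ioc (a J) (b J))) := by
      rw [Finset.disjoint_left]
      intro h h3 h4
      unfold dbl at h3 h4
      rw [mem_filter, mem_UI] at h3
      rw [mem_filter, mem_Ioc] at h4
      obtain ⟨_, j, hj, h5, h6⟩ := h3
      have := hab j J hj (by omega)
      omega
    rw [e, Finset.filter_union, card_union_of_disjoint hd, card_union_of_disjoint (Finset.disjoint_filter_filter hd)]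
    push_cast
    have h3 := abs_add_le ((((dbl L (UI J a b)).filter (fun h => Sf Qi w (m + h))).card : ℝ) -
      (dbl L (UI J a b)).card * Vq Qi w) ((((dbl L (Ioc (a J) (b J))).filter (fun h => Sf Qi w (m + h))).card : ℝ) -
      (dbl L (Ioc (a J) (b J))).card * Vq Qi w)
    calc _ = |((((dbl L (UI J a b)).filter (fun h => Sf Qi w (m + h))).card : ℝ) -
      (dbl L (UI J a b)).card * Vq Qi w) + ((((dbl L (Ioc (a J) (b J))).filter (fun h => Sf Qi w (m + h))).card : ℝ) -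
      (dbl L (Ioc (a J) (b J))).card * Vq Qi w)| := by congr 1; ring
      _ ≤ _ := h3
      _ ≤ _ := by linarith

open Classical in
/-- **The Poisson law for unions of intervals of multipliers.** -/
theorem unionM (J : ℕ) (x0 ε δ : ℝ) (hx0 : 0 ≤ x0) (hε : 0 < ε) (hδ : 0 < δ) (hδ1 : δ ≤ 1) :
    ∃ r y0 : ℕ, ∀ y : ℕ, y0 ≤ y → ∀ X : ℕ, y ^ r ≤ X → ∀ (L : ℕ) (a b : ℕ → ℕ), (∀ j < J, b j ≤ L) →
      (∀ i j, i < j → j < J → b i ≤ a j) → 2 * L * Vz y ≤ x0 →
      ∀ u Y : ℕ, δ * X ≤ u → δ * X ≤ Y → u + Y ≤ X → ∀ A : Finset ℕ,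
      |(((Om 1 0 Qi y u Y).filter (fun n => NM y (UI J a b) n ∈ A)).card : ℝ) * Real.log X -
        Y * ∑ j ∈ A, Real.exp (-(2 * (UI J a b).card * Vz y)) * (2 * (UI J a b).card * Vz y) ^ j / j.factorial| ≤
        ε * Y := by
  obtain ⟨e1, he1⟩ : ∃ e1 : ℝ, e1 = min (ε / 4) 1 := ⟨_, rfl⟩
  have he0 : 0 < e1 := by rw [he1]; positivity
  have hea : e1 ≤ ε / 4 := by rw [he1]; exact min_le_left _ _
  have heb : e1 ≤ 1 := by rw [he1]; exact min_le_right _ _
  obtain ⟨K, y1, hlaw⟩ := lawM 0 2 x0 e1 δ hx0 he0 heb hδ hδ1 (fun w => J * Mw w) (fun w => by positivity)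
  obtain ⟨v, hv, hVl⟩ := V_lower_unif 1
  have hlogy : Tendsto (fun y : ℕ => Real.log (y : ℝ)) atTop atTop :=
    Real.tendsto_log_atTop.comp tendsto_natCast_atTop_atTop
  obtain ⟨Y0, hY0⟩ := eventually_atTop.1 ((hlogy.eventually_ge_atTop (1 / v)).and (hlogy.eventually_ge_atTop 1))
  refine ⟨K + 1, y1 + Y0 + 3, ?_⟩
  intro y hy X hX L a b hb hab hLx u Y hu hY huY A
  obtain ⟨g2, g3⟩ := hY0 y (by omega)
  have hyX : y ≤ X := by
    refine le_trans ?_ hX
    exact Nat.le_self_pow (by omega) y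
  have hyr : (3 : ℝ) ≤ y := by exact_mod_cast (by omega : 3 ≤ y)
  have hly : 0 < Real.log (y : ℝ) := by linarith
  have hlyX : Real.log (y : ℝ) ≤ Real.log X := Real.log_le_log (by linarith) (by exact_mod_cast hyX)
  have hlX : 0 < Real.log (X : ℝ) := hly.trans_le hlyX
  have hUI : UI J a b ⊆ Icc 1 L := by
    intro k hk
    rw [mem_UI] at hk
    obtain ⟨j, hj, h1, h2⟩ := hk
    have := hb j hj
    rw [mem_Icc]
    omega
  have hlow2 : 1 / Real.log X ^ 2 ≤ Vq (QM ∅) y := by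
    rw [Vq_QM_empty, ← Vz_Qi]
    have h2 := hVl Qi perB_Qi adm_Qi y (by omega)
    refine le_trans ?_ h2
    rw [div_le_div_iff₀ (by positivity) (by positivity), one_mul, pow_one]
    rw [div_le_iff₀ hv] at g2
    calc Real.log (y : ℝ) ≤ Real.log (X : ℝ) * 1 := by linarith
      _ ≤ Real.log (X : ℝ) * (Real.log y * v) := mul_le_mul_of_nonneg_left g2 hlX.le
      _ ≤ Real.log (X : ℝ) * (Real.log X * v) := by
          apply mul_le_mul_of_nonneg_left _ hlX.le
          exact mul_le_mul_of_nonneg_right hlyX hv.le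
      _ = v * Real.log (X : ℝ) ^ 2 := by ring
  obtain ⟨h1, h2⟩ := hlaw X y (by omega) ((Nat.pow_le_pow_right (by omega) (by omega)).trans hX) L ∅ (UI J a b)
    card_empty (empty_subset _) hUI (Finset.disjoint_empty_left _) hLx (win_UI L J a b hb hab) hlow2 u Y hu hY huY
  have h3 := h2 A
  have hom : Om 1 0 (QM ∅) y u Y = Om 1 0 Qi y u Y := by
    unfold Om
    apply Finset.filter_congr
    intro m _
    rw [sf_QM]
    constructor
    · exact fun h => ⟨h.1, h.2.1⟩
    · exact fun h => ⟨h.1, h.2, fun k hk => absurd hk (Finset.notMem_empty k)⟩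
  have hV0 : 0 < Vz y := Pool.Agent.H373R2.T7.Vz_pos y
  rw [hom, Vq_QM_empty, div_self hV0.ne', mul_one] at h1
  rw [hom] at h3
  obtain ⟨N, hN⟩ : ∃ N : ℝ, N = ((Om 1 0 Qi y u Y).card : ℝ) := ⟨_, rfl⟩
  obtain ⟨E, hE⟩ : ∃ E : ℝ, E = (((Om 1 0 Qi y u Y).filter (fun n => NM y (UI J a b) n ∈ A)).card : ℝ) := ⟨_, rfl⟩
  obtain ⟨x, hx⟩ : ∃ x : ℝ, x = 2 * (UI J a b).card * Vz y := ⟨_, rfl⟩
  have hx0' : 0 ≤ x := by rw [hx]; positivity
  obtain ⟨q, hq⟩ : ∃ q : ℝ, q = ∑ j ∈ A, Real.exp (-x) * x ^ j / j.factorial := ⟨_, rfl⟩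
  have hq0 : 0 ≤ q := by
    rw [hq]
    apply Finset.sum_nonneg
    intro j _
    positivity
  have hq1 : q ≤ 1 := by
    rw [hq]
    have h4 : ∑ j ∈ A, x ^ j / (j.factorial : ℝ) ≤ Real.exp x := by
      have h5 := Finset.sum_le_sum_of_subset_of_nonneg (s := A) (t := range (A.sup id + 1))
        (f := fun j => x ^ j / (j.factorial : ℝ)) (by
          intro j hj
          rw [mem_range]
          have := Finset.le_sup (f := id) hj
          simp only [id] at this
          omega) (fun j _ _ => by positivity)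
      exact h5.trans (Real.sum_le_exp_of_nonneg hx0' _)
    calc ∑ j ∈ A, Real.exp (-x) * x ^ j / j.factorial = Real.exp (-x) * ∑ j ∈ A, x ^ j / (j.factorial : ℝ) := by
          rw [Finset.mul_sum]
          apply Finset.sum_congr rfl
          intros
          ring
      _ ≤ Real.exp (-x) * Real.exp x := mul_le_mul_of_nonneg_left h4 (Real.exp_pos _).le
      _ = 1 := by rw [← Real.exp_add, neg_add_cancel, Real.exp_zero]
  rw [← hN] at h1
  rw [← hN, ← hE, ← hx, ← hq] at h3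
  rw [← hE, ← hx, ← hq]
  have hY0 : (0 : ℝ) ≤ Y := Nat.cast_nonneg _
  have b1 : |(E - N * q) * Real.log X| ≤ e1 * (N * Real.log X) := by
    rw [abs_mul, abs_of_pos hlX]
    calc |E - N * q| * Real.log X ≤ e1 * N * Real.log X := mul_le_mul_of_nonneg_right h3 hlX.le
      _ = _ := by ring
  have hNl : N * Real.log X ≤ 2 * Y := by
    have := (abs_le.1 h1).2
    nlinarith
  have b2 : |(N * Real.log X - Y) * q| ≤ e1 * Y := by
    rw [abs_mul, abs_of_nonneg hq0]
    calc |N * Real.log X - Y| * q ≤ e1 * Y * 1 := mul_le_mul h1 hq1 hq0 (by positivity)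
      _ = _ := by ring
  have b4 : E * Real.log X - Y * q = (E - N * q) * Real.log X + (N * Real.log X - Y) * q := by ring
  rw [b4]
  refine (abs_add_le _ _).trans ?_
  have b7 : e1 * (N * Real.log X) ≤ e1 * (2 * Y) := mul_le_mul_of_nonneg_left hNl he0.le
  have b8 : e1 * Y ≤ ε / 4 * Y := mul_le_mul_of_nonneg_right hea hY0
  have b9 : 0 ≤ ε * Y := by positivity
  linarith

end Pool.Agent.U98.TZ
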