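import Mathlib
import Pool.Agent.U98.TZ.F2
import Pool.Agent.R463.PP3

set_option autoImplicit false

/-!
# The sieve conditions for the numbers `n` and `k n + a`, with a fixed `a`
-/

namespace Pool.Agent.U98.TZ

open Finset Filter Pool.Agent.H373R2.T7 Pool.Agent.W123.RP Pool.Agent.W123.RU Pool.Agent.TH464.PO
open Pool.Agent.R463.PP Pool.Agent.Y879.PR Pool.Agent.R463.EX

/-- divisibility by the primes which do not divide `2 a` -/
def Qa (a p m : ℕ) : Prop := ¬ p ∣ 2 * a ∧ p ∣ m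

/-- one of the numbers `n`, `k n + a`, `k ∈ T`, is divisible by `p` -/
def QMa (a : ℕ) (T : Finset ℕ) (p n : ℕ) : Prop := p ∣ n ∨ ∃ k ∈ T, p ∣ k * n + a

/-- `k` is prime to `a` and `k + a` is odd -/
def Good (a k : ℕ) : Prop := Nat.Coprime k a ∧ (k + a) % 2 = 1

lemma good_dvd (a k n p : ℕ) (hk : Good a k) (hp : p.Prime) (hpa : p ∣ 2 * a) (h : p ∣ k * n + a) : p ∣ n := by
  by_cases h1 : p ∣ a
  · have h2 : p ∣ k * n := (Nat.dvd_add_left h1).1 h
    rcases (hp.dvd_mul).1 h2 with h3 | h3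
    · have h4 := Nat.dvd_gcd h3 h1
      rw [hk.1] at h4
      exact absurd (Nat.dvd_one.1 h4) hp.one_lt.ne'
    · exact h3
  · have h2 : p ∣ 2 := ((hp.dvd_mul).1 hpa).resolve_right h1
    have h3 : p = 2 := (Nat.prime_dvd_prime_iff_eq hp Nat.prime_two).1 h2
    subst h3
    have h4 := hk.2
    have h5 : k % 2 = 0 := by omega
    have h6 : (k * n) % 2 = 0 := by rw [Nat.mul_mod, h5, zero_mul, Nat.zero_mod]
    omega

lemma qma_iff (a : ℕ) (T : Finset ℕ) (p : ℕ) (hp : p.Prime) (hpa : ¬ p ∣ 2 * a) (r : ℕ) :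
    QMa a T p r ↔ QH (Qa a) ({0} ∪ T) p ((a : ZMod p) * (r : ZMod p)⁻¹).val := by
  have := Fact.mk hp
  unfold QMa QH Qa
  have ha : (a : ZMod p) ≠ 0 := by
    intro h
    rw [ZMod.natCast_eq_zero_iff] at h
    exact hpa (Dvd.dvd.mul_left h 2)
  have hcast : ∀ h : ℕ, p ∣ ((a : ZMod p) * (r : ZMod p)⁻¹).val + h ↔
      (a : ZMod p) * (r : ZMod p)⁻¹ + (h : ZMod p) = 0 := by
    intro h
    rw [← ZMod.natCast_eq_zero_iff]
    push_cast
    rw [ZMod.natCast_zmod_val]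
  have h0 : p ∣ r ↔ (r : ZMod p) = 0 := (ZMod.natCast_eq_zero_iff r p).symm
  have h1 : ∀ k : ℕ, p ∣ k * r + a ↔ (k : ZMod p) * r + a = 0 := by
    intro k
    rw [← ZMod.natCast_eq_zero_iff]
    push_cast
    rfl
  simp only [hcast, h0, h1, hpa, not_false_eq_true, true_and]
  constructor
  · rintro (h | ⟨k, hk, h⟩)
    · exact ⟨0, by simp, by rw [h]; simp⟩
    · have hr : (r : ZMod p) ≠ 0 := by
        intro hr
        rw [hr, mul_zero, zero_add] at h
        exact ha h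
      refine ⟨k, mem_union_right _ hk, ?_⟩
      have : (a : ZMod p) * (r : ZMod p)⁻¹ + k = (r : ZMod p)⁻¹ * (k * r + a) := by
        field_simp
        ring
      rw [this, h, mul_zero]
  · rintro ⟨h, hh, he⟩
    rw [mem_union, mem_singleton] at hh
    by_cases hr : (r : ZMod p) = 0
    · left; exact hr
    · rcases hh with rfl | hk
      · exfalso
        simp only [Nat.cast_zero, add_zero, mul_eq_zero, inv_eq_zero] at he
        rcases he with he | he
        · exact ha he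
        · exact hr he
      · right
        refine ⟨h, hk, ?_⟩
        have : (h : ZMod p) * r + a = r * ((a : ZMod p) * (r : ZMod p)⁻¹ + h) := by
          field_simp
          ring
        rw [this, he, mul_zero]

open Classical in
lemma nuB_QMa (a : ℕ) (T : Finset ℕ) (p : ℕ) (hp : p.Prime) (hpa : ¬ p ∣ 2 * a) :
    nuB (QMa a T) p = nuB (QH (Qa a) ({0} ∪ T)) p := by
  have := Fact.mk hp
  have ha : (a : ZMod p) ≠ 0 := by
    intro h
    rw [ZMod.natCast_eq_zero_iff] at h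
    exact hpa (Dvd.dvd.mul_left h 2)
  unfold nuB
  have hinv : ∀ r : ℕ, r < p → ((a : ZMod p) * ((((a : ZMod p) * (r : ZMod p)⁻¹).val : ℕ) : ZMod p)⁻¹).val = r := by
    intro r hr
    rw [ZMod.natCast_zmod_val, mul_inv, inv_inv, ← mul_assoc, mul_inv_cancel₀ ha, one_mul, ZMod.val_natCast_of_lt hr]
  refine Finset.card_bij' (fun (r : ℕ) _ => ((a : ZMod p) * (r : ZMod p)⁻¹).val)
    (fun (r : ℕ) _ => ((a : ZMod p) * (r : ZMod p)⁻¹).val) ?_ ?_ ?_ ?_
  · intro r hr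
    rw [mem_filter] at hr ⊢
    exact ⟨mem_range.2 (ZMod.val_lt _), (qma_iff a T p hp hpa r).1 hr.2⟩
  · intro r hr
    rw [mem_filter, mem_range] at hr
    rw [mem_filter]
    refine ⟨mem_range.2 (ZMod.val_lt _), (qma_iff a T p hp hpa _).2 ?_⟩
    rw [hinv r hr.1]
    exact hr.2
  · intro r hr
    rw [mem_filter, mem_range] at hr
    exact hinv r hr.1
  · intro r hr
    rw [mem_filter, mem_range] at hr
    exact hinv r hr.1

lemma nuB_QMa' (a : ℕ) (T : Finset ℕ) (hT : ∀ k ∈ T, Good a k) (p : ℕ) (hp : p.Prime) (hpa : p ∣ 2 * a) :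
    nuB (QMa a T) p = 1 := by
  rw [← nuB_Qi p hp]
  apply nuB_congr
  intro r _
  unfold QMa Qi
  constructor
  · rintro (h | ⟨k, hk, h⟩)
    · exact h
    · exact good_dvd a k r p (hT k hk) hp hpa h
  · exact Or.inl

open Classical in
lemma nuB_Qa_dvd (a : ℕ) (H : Finset ℕ) (p : ℕ) (hpa : p ∣ 2 * a) : nuB (QH (Qa a) H) p = 0 := by
  unfold nuB
  rw [Finset.card_eq_zero, Finset.filter_eq_empty_iff]
  rintro r _ ⟨h, _, h1, _⟩
  exact h1 hpa

lemma perB_Qa (a : ℕ) : PerB (Qa a) 1 := by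
  refine ⟨?_, ?_⟩
  · intro p n
    unfold Qa
    rw [Nat.dvd_mod_iff dvd_rfl]
  · intro p hp
    rw [← nuB_Qi p hp]
    exact nuB_mono' _ _ p (fun m h => h.2)

lemma adm_Qa (a p : ℕ) (hp : p.Prime) : nuB (Qa a) p < p :=
  lt_of_le_of_lt ((perB_Qa a).few p hp) hp.one_lt

lemma perB_QMa (a : ℕ) (T : Finset ℕ) (hT : ∀ k ∈ T, Good a k) : PerB (QMa a T) (T.card + 1) := by
  refine ⟨?_, ?_⟩
  · intro p n
    have h : ∀ k : ℕ, (p ∣ k * n + a ↔ p ∣ k * (n % p) + a) := by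
      intro k
      have h1 : k * n + a ≡ k * (n % p) + a [MOD p] :=
        Nat.ModEq.add_right a (Nat.ModEq.mul_left _ (Nat.mod_modEq n p).symm)
      exact h1.dvd_iff dvd_rfl
    unfold QMa
    simp only [h, Nat.dvd_mod_iff dvd_rfl]
  · intro p hp
    by_cases hpa : p ∣ 2 * a
    · rw [nuB_QMa' a T hT p hp hpa]
      omega
    · rw [nuB_QMa a T p hp hpa]
      refine ((perB_QH (Qa a) 1 (perB_Qa a) ({0} ∪ T)).few p hp).trans ?_
      have := card_union_le ({0} : Finset ℕ) T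
      rw [card_singleton] at this
      omega

lemma base_QMa (a : ℕ) (T : Finset ℕ) (hT : ∀ k ∈ T, Good a k) (c : ℕ) (hc : T.card + 1 ≤ c) :
    Base 1 0 c (QMa a T) := by
  refine ⟨⟨(perB_QMa a T hT).per, fun p hp => ((perB_QMa a T hT).few p hp).trans hc⟩, ?_, ?_⟩
  · intro p n hp hp1
    exact absurd (Nat.dvd_one.1 hp1) hp.one_lt.ne'
  · intro p n _ _ hn
    rw [one_mul, add_zero] at hn
    exact Or.inl hn

/-- the factor of the primes which divide `2 a` -/
noncomputable def cA (a y : ℕ) : ℝ := ∏ p ∈ pz y, (if p ∣ 2 * a then (1 - 1 / (p : ℝ)) else 1)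

lemma Vq_QMa (a : ℕ) (T : Finset ℕ) (hT : ∀ k ∈ T, Good a k) (y : ℕ) :
    Vq (QMa a T) y = cA a y * Vq (QH (Qa a) ({0} ∪ T)) y := by
  unfold Vq cA
  rw [← Finset.prod_mul_distrib]
  apply prod_congr rfl
  intro p hp
  by_cases hpa : p ∣ 2 * a
  · rw [if_pos hpa, nuB_QMa' a T hT p (mem_pz.1 hp).2 hpa, nuB_Qa_dvd a _ p hpa]
    push_cast
    ring
  · rw [if_neg hpa, nuB_QMa a T p (mem_pz.1 hp).2 hpa, one_mul]

lemma Vz_cA (a y : ℕ) : Vz y = cA a y * Vq (QH (Qa a) {0}) y := by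
  have h := Vq_QMa a ∅ (fun k hk => absurd hk (Finset.notMem_empty k)) y
  rw [union_empty] at h
  rw [← h, ← Vz_Qi]
  unfold Vq
  apply prod_congr rfl
  intro p hp
  rw [nuB_congr (QMa a ∅) Qi p]
  intro r _
  unfold QMa Qi
  constructor
  · rintro (h | ⟨k, hk, _⟩)
    · exact h
    · exact absurd hk (Finset.notMem_empty k)
  · exact Or.inl

lemma cA_le_one (a y : ℕ) : cA a y ≤ 1 := by
  unfold cA
  apply Finset.prod_le_one
  · intro p hp
    have h2 : (2 : ℝ) ≤ p := by exact_mod_cast (mem_pz.1 hp).2.two_le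
    split_ifs
    · have : 1 / (p : ℝ) ≤ 1 / 2 := one_div_le_one_div_of_le (by norm_num) h2
      linarith
    · norm_num
  · intro p hp
    split_ifs
    · have : 0 ≤ 1 / (p : ℝ) := by positivity
      linarith
    · exact le_rfl

lemma cA_ge (a y : ℕ) (ha : 1 ≤ a) : (1 / 2 : ℝ) ^ (2 * a) ≤ cA a y := by
  have h1 : cA a y = ∏ p ∈ (pz y).filter (fun p => p ∣ 2 * a), (1 - 1 / (p : ℝ)) := by
    unfold cA
    rw [Finset.prod_filter]
  have h2 : ((pz y).filter (fun p => p ∣ 2 * a)).card ≤ 2 * a := by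
    have h3 : (pz y).filter (fun p => p ∣ 2 * a) ⊆ Icc 1 (2 * a) := by
      intro p hp
      rw [mem_filter] at hp
      rw [mem_Icc]
      exact ⟨(mem_pz.1 hp.1).2.pos, Nat.le_of_dvd (by omega) hp.2⟩
    have h4 := card_le_card h3
    rw [Nat.card_Icc] at h4
    omega
  rw [h1]
  calc (1 / 2 : ℝ) ^ (2 * a) ≤ (1 / 2 : ℝ) ^ ((pz y).filter (fun p => p ∣ 2 * a)).card :=
        pow_le_pow_of_le_one (by norm_num) (by norm_num) h2
    _ = ∏ _p ∈ (pz y).filter (fun p => p ∣ 2 * a), (1 / 2 : ℝ) := by rw [Finset.prod_const]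
    _ ≤ _ := by
        apply Finset.prod_le_prod
        · intro p _
          norm_num
        · intro p hp
          rw [mem_filter] at hp
          have h2 : (2 : ℝ) ≤ p := by exact_mod_cast (mem_pz.1 hp.1).2.two_le
          have : 1 / (p : ℝ) ≤ 1 / 2 := one_div_le_one_div_of_le (by norm_num) h2
          linarith

lemma sf_QMa (a : ℕ) (T : Finset ℕ) (y n : ℕ) :
    Sf (QMa a T) y n ↔ Sf Qi y n ∧ ∀ k ∈ T, Sf Qi y (k * n + a) := by
  unfold Sf QMa Qi
  constructor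
  · intro h
    exact ⟨fun p hp hd => h p hp (Or.inl hd), fun k hk p hp hd => h p hp (Or.inr ⟨k, hk, hd⟩)⟩
  · rintro ⟨h1, h2⟩ p hp (hd | ⟨k, hk, hd⟩)
    · exact h1 p hp hd
    · exact h2 k hk p hp hd

open Classical in
/-- the number of the `k ∈ W` for which `k n + a` has no prime factors `≤ y` -/
noncomputable def NMa (a y : ℕ) (W : Finset ℕ) (n : ℕ) : ℕ := (W.filter (fun k => Sf Qi y (k * n + a))).card

open Classical in
lemma momMa_eq (a : ℕ) (W : Finset ℕ) (y u Y k : ℕ) :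
    ∑ n ∈ Om 1 0 Qi y u Y, ((NMa a y W n).choose k : ℝ) =
      ∑ S ∈ powersetCard k W, ((Om 1 0 (QMa a S) y u Y).card : ℝ) := by
  have h1 : ∀ S ∈ powersetCard k W, ((Om 1 0 (QMa a S) y u Y).card : ℝ) =
      ∑ n ∈ Om 1 0 Qi y u Y, if (∀ h ∈ S, Sf Qi y (h * n + a)) then (1 : ℝ) else 0 := by
    intro S _
    have e : Om 1 0 (QMa a S) y u Y = (Om 1 0 Qi y u Y).filter (fun n => ∀ h ∈ S, Sf Qi y (h * n + a)) := by
      unfold Om
      rw [Finset.filter_filter]
      apply Finset.filter_congr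
      intro m _
      rw [sf_QMa, and_assoc]
    rw [e, Finset.sum_ite, Finset.sum_const_zero, add_zero, Finset.sum_const, nsmul_eq_mul, mul_one]
  rw [Finset.sum_congr rfl h1, Finset.sum_comm]
  apply Finset.sum_congr rfl
  intro m _
  rw [Finset.sum_ite, Finset.sum_const_zero, add_zero, Finset.sum_const, nsmul_eq_mul, mul_one]
  unfold NMa
  rw [← Finset.card_powersetCard]
  congr 2
  ext S
  rw [mem_filter, mem_powersetCard, mem_powersetCard]
  constructor
  · rintro ⟨a1, a2⟩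
    exact ⟨⟨fun h hh => (mem_filter.1 (a1 hh)).1, a2⟩, fun h hh => (mem_filter.1 (a1 hh)).2⟩
  · rintro ⟨⟨a1, a2⟩, a3⟩
    exact ⟨fun h hh => mem_filter.2 ⟨a1 hh, a3 h hh⟩, a2⟩

open Classical in
lemma large_Qa (a T y t : ℕ) (ht : t ∈ Icc 1 T) : (pz y).filter (fun p : ℕ => T < p ∧ CoG (Qa a) p t) = ∅ := by
  rw [mem_Icc] at ht
  rw [Finset.filter_eq_empty_iff]
  rintro p hp ⟨hTp, m, h5, h6⟩
  unfold Qa at h5 h6
  have h7 : p ∣ t := (Nat.dvd_add_right h5.2).1 h6.2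
  have := Nat.le_of_dvd (by omega) h7
  omega

lemma Vq_QH_zero (a y : ℕ) : Vq (QH (Qa a) {0}) y = Vq (Qa a) y := by
  unfold Vq
  apply prod_congr rfl
  intro p hp
  rw [nuB_congr (QH (Qa a) {0}) (Qa a) p]
  intro r _
  unfold QH
  constructor
  · rintro ⟨h, hh, h1⟩
    rw [mem_singleton] at hh
    rw [hh, add_zero] at h1
    exact h1
  · intro h1
    exact ⟨0, mem_singleton_self 0, by rw [add_zero]; exact h1⟩

end Pool.Agent.U98.TZ
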