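import Pool.Agent.U98.TZ.C2
import Pool.Agent.TH464.PW.Quad

set_option autoImplicit false

/-!
# The typed system of `m ^ 2 + 1` for even `m` and `m ^ 2 + 4` for odd `m`
-/

namespace Pool.Agent.U98.TZ

open Finset Filter Pool.Agent.H373R2.T7 Pool.Agent.W123.RP Pool.Agent.W123.RU Pool.Agent.TH464.PO Pool.Agent.U98.TY
open Pool.Agent.R463.PP (Pat GB sq gp Ev nx)

/-- the constant of the type `i` -/
def cc (i : ℕ) : ℕ := if i % 2 = 0 then 1 else 4

/-- the condition of the type `i` -/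
def QQ (q i p m : ℕ) : Prop := ¬ p ∣ q ∧ p ∣ m ^ 2 + cc i

/-- the union of the conditions -/
def UQ (q p m : ℕ) : Prop := ¬ p ∣ q ∧ (p ∣ m ^ 2 + 1 ∨ p ∣ m ^ 2 + 4)

lemma sq_mod (p m a : ℕ) : p ∣ m ^ 2 + a ↔ p ∣ (m % p) ^ 2 + a := by
  rw [Nat.dvd_iff_mod_eq_zero, Nat.dvd_iff_mod_eq_zero, Nat.add_mod, Nat.pow_mod, ← Nat.add_mod]

lemma sq_mod' (p q m a : ℕ) (h : p ∣ q) : p ∣ (m % q) ^ 2 + a ↔ p ∣ m ^ 2 + a := by
  rw [sq_mod p m a, sq_mod p (m % q) a, Nat.mod_mod_of_dvd m h]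

/-- the number of the roots -/
def rts (p a : ℕ) : ℕ := ((range p).filter (fun r => p ∣ r ^ 2 + a)).card

lemma rts_two (p a y : ℕ) (hp : p.Prime) (h2 : p ≠ 2) (hy : ¬ p ∣ y) (hya : p ∣ y ^ 2 + a) : rts p a = 2 := by
  obtain ⟨x, hx⟩ : ∃ x, x = y % p := ⟨_, rfl⟩
  have hxp : x < p := by rw [hx]; exact Nat.mod_lt _ hp.pos
  have hx0 : 0 < x := by
    rw [hx]
    exact Nat.pos_of_ne_zero (fun h => hy (Nat.dvd_of_mod_eq_zero h))
  have hxa : p ∣ x ^ 2 + a := by
    rw [hx]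
    exact (sq_mod p y a).1 hya
  have hodd : p % 2 = 1 := by
    rcases hp.eq_two_or_odd with h | h
    · exact absurd h h2
    · exact h
  have hxa' : (p : ℤ) ∣ (x : ℤ) ^ 2 + a := by exact_mod_cast hxa
  have key : (range p).filter (fun r => p ∣ r ^ 2 + a) = {x, p - x} := by
    ext r
    rw [mem_filter, mem_range, mem_insert, mem_singleton]
    constructor
    · rintro ⟨hr, hd⟩
      have hd' : (p : ℤ) ∣ (r : ℤ) ^ 2 + a := by exact_mod_cast hd
      have h3 : (p : ℤ) ∣ ((r : ℤ) - x) * (r + x) := by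
        have := dvd_sub hd' hxa'
        have e : ((r : ℤ) ^ 2 + a) - ((x : ℤ) ^ 2 + a) = ((r : ℤ) - x) * (r + x) := by ring
        rwa [e] at this
      rcases (Nat.prime_iff_prime_int.1 hp).dvd_or_dvd h3 with h4 | h4
      · left
        have h5 : (r : ℤ) - x = 0 := by
          apply Int.eq_zero_of_abs_lt_dvd h4
          rw [abs_lt]
          constructor <;> omega
        omega
      · right
        have h5 : p ∣ r + x := by exact_mod_cast h4
        obtain ⟨k, hk⟩ := h5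
        have h6 : k = 1 := by
          have h7 : 0 < k := by
            by_contra hcon
            have : k = 0 := by omega
            subst this
            omega
          have h8 : k < 2 := by
            by_contra hcon
            have h9 : p * 2 ≤ p * k := Nat.mul_le_mul_left p (by omega)
            omega
          omega
        subst h6
        omega
    · rintro (rfl | rfl)
      · exact ⟨hxp, hxa⟩
      · refine ⟨by omega, ?_⟩
        have h3 : (p : ℤ) ∣ ((p - x : ℕ) : ℤ) ^ 2 + a := by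
          rw [Nat.cast_sub hxp.le]
          have e : ((p : ℤ) - x) ^ 2 + a = p * (p - 2 * x) + (x ^ 2 + a) := by ring
          rw [e]
          exact dvd_add (dvd_mul_right _ _) hxa'
        exact_mod_cast h3
  unfold rts
  rw [key, card_pair]
  omega

lemma rts_one (p : ℕ) (hp : p.Prime) (h2 : p ≠ 2) : rts p 1 = if p % 4 = 1 then 2 else 0 := by
  have := Fact.mk hp
  split_ifs with h
  · have h1 : IsSquare (-1 : ZMod p) := ZMod.exists_sq_eq_neg_one_iff.2 (by omega)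
    obtain ⟨z, hz⟩ := h1
    have hdv : p ∣ z.val ^ 2 + 1 := by
      rw [← ZMod.natCast_eq_zero_iff]
      push_cast
      rw [ZMod.natCast_zmod_val, pow_two, ← hz]
      ring
    refine rts_two p 1 z.val hp h2 ?_ hdv
    intro hd
    have h3 : p ∣ z.val ^ 2 := hd.trans (dvd_pow_self _ (by norm_num))
    have h4 := (Nat.dvd_add_right h3).1 hdv
    exact hp.one_lt.ne' (Nat.dvd_one.1 h4)
  · unfold rts
    rw [card_eq_zero, filter_eq_empty_iff]
    intro r _ hd
    have h1 : IsSquare (-1 : ZMod p) := by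
      refine ⟨(r : ZMod p), ?_⟩
      have h3 : ((r ^ 2 + 1 : ℕ) : ZMod p) = 0 := (ZMod.natCast_eq_zero_iff _ _).2 hd
      push_cast at h3
      linear_combination -h3
    have h4 := ZMod.exists_sq_eq_neg_one_iff.1 h1
    rcases hp.eq_two_or_odd with h5 | h5
    · exact h2 h5
    · omega

lemma rts_four (p : ℕ) (hp : p.Prime) (h2 : p ≠ 2) : rts p 4 = if p % 4 = 1 then 2 else 0 := by
  have := Fact.mk hp
  have h20 : (2 : ZMod p) ≠ 0 := by
    intro h
    have h3 : ((2 : ℕ) : ZMod p) = 0 := by exact_mod_cast h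
    rw [ZMod.natCast_eq_zero_iff] at h3
    exact h2 ((Nat.prime_dvd_prime_iff_eq hp Nat.prime_two).1 h3)
  split_ifs with h
  · have h1 : IsSquare (-1 : ZMod p) := ZMod.exists_sq_eq_neg_one_iff.2 (by omega)
    obtain ⟨z, hz⟩ := h1
    have hdv1 : p ∣ z.val ^ 2 + 1 := by
      rw [← ZMod.natCast_eq_zero_iff]
      push_cast
      rw [ZMod.natCast_zmod_val, pow_two, ← hz]
      ring
    have hdv : p ∣ (2 * z.val) ^ 2 + 4 := by
      have e : (2 * z.val) ^ 2 + 4 = 4 * (z.val ^ 2 + 1) := by ring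
      rw [e]
      exact dvd_mul_of_dvd_right hdv1 _
    refine rts_two p 4 (2 * z.val) hp h2 ?_ hdv
    intro hd
    rcases hp.dvd_mul.1 hd with h5 | h5
    · exact h2 ((Nat.prime_dvd_prime_iff_eq hp Nat.prime_two).1 h5)
    · have h3 : p ∣ z.val ^ 2 := h5.trans (dvd_pow_self _ (by norm_num))
      have h4 := (Nat.dvd_add_right h3).1 hdv1
      exact hp.one_lt.ne' (Nat.dvd_one.1 h4)
  · unfold rts
    rw [card_eq_zero, filter_eq_empty_iff]
    intro r _ hd
    have h1 : IsSquare (-1 : ZMod p) := by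
      refine ⟨(r : ZMod p) / 2, ?_⟩
      have h3 : ((r ^ 2 + 4 : ℕ) : ZMod p) = 0 := (ZMod.natCast_eq_zero_iff _ _).2 hd
      push_cast at h3
      field_simp
      linear_combination -h3
    have h4 := ZMod.exists_sq_eq_neg_one_iff.1 h1
    rcases hp.eq_two_or_odd with h5 | h5
    · exact h2 h5
    · omega

lemma nuB_QQ_dvd (q i p : ℕ) (h : p ∣ q) : nuB (QQ q i) p = 0 := by
  classical
  unfold nuB
  rw [card_eq_zero, filter_eq_empty_iff]
  intro m _ hm
  exact hm.1 h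

lemma nuB_QQ' (q i p : ℕ) (h : ¬ p ∣ q) : nuB (QQ q i) p = rts p (cc i) := by
  classical
  unfold nuB rts
  congr 1
  ext r
  rw [mem_filter, mem_filter]
  exact ⟨fun h1 => ⟨h1.1, h1.2.2⟩, fun h1 => ⟨h1.1, h, h1.2⟩⟩

lemma nuB_QQ (q i p : ℕ) (hp : p.Prime) (h2q : 2 ∣ q) (h : ¬ p ∣ q) :
    nuB (QQ q i) p = if p % 4 = 1 then 2 else 0 := by
  have h2 : p ≠ 2 := by
    rintro rfl
    exact h h2q
  rw [nuB_QQ' q i p h]
  unfold cc
  split_ifs with h3 h4 h4
  · rw [rts_one p hp h2, if_pos h4]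
  · rw [rts_one p hp h2, if_neg h4]
  · rw [rts_four p hp h2, if_pos h4]
  · rw [rts_four p hp h2, if_neg h4]

lemma rts_le (p a : ℕ) (hp : p.Prime) (h2 : p ≠ 2) (ha : a = 1 ∨ a = 4) : rts p a ≤ 2 := by
  rcases ha with rfl | rfl
  · rw [rts_one p hp h2]
    split_ifs <;> omega
  · rw [rts_four p hp h2]
    split_ifs <;> omega

lemma nuB_UQ (q p : ℕ) (h2q : 2 ∣ q) (hp : p.Prime) : nuB (UQ q) p ≤ 4 := by
  classical
  by_cases h : p ∣ q
  · unfold nuB
    rw [card_eq_zero.2]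
    · omega
    · rw [filter_eq_empty_iff]
      intro m _ hm
      exact hm.1 h
  · have h2 : p ≠ 2 := by
      rintro rfl
      exact h h2q
    have hsub : (range p).filter (fun r => UQ q p r) ⊆
        (range p).filter (fun r => p ∣ r ^ 2 + 1) ∪ (range p).filter (fun r => p ∣ r ^ 2 + 4) := by
      intro r hr
      rw [mem_filter] at hr
      rw [mem_union, mem_filter, mem_filter]
      rcases hr.2.2 with h3 | h3
      · exact Or.inl ⟨hr.1, h3⟩
      · exact Or.inr ⟨hr.1, h3⟩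
    unfold nuB
    refine (card_le_card hsub).trans ((card_union_le _ _).trans ?_)
    have h3 := rts_le p 1 hp h2 (Or.inl rfl)
    have h4 := rts_le p 4 hp h2 (Or.inr rfl)
    unfold rts at h3 h4
    omega

lemma ts_QQ (q : ℕ) (h2q : 2 ∣ q) : TS (QQ q) (UQ q) 5 := by
  classical
  have hper : PerB (UQ q) 5 := by
    constructor
    · intro p n
      unfold UQ
      rw [sq_mod p n 1, sq_mod p n 4]
    · intro p hp
      exact (nuB_UQ q p h2q hp).trans (by norm_num)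
  have hsub : ∀ i p m, QQ q i p m → UQ q p m := by
    rintro i p m ⟨h1, h2⟩
    refine ⟨h1, ?_⟩
    unfold cc at h2
    split_ifs at h2
    · exact Or.inl h2
    · exact Or.inr h2
  constructor
  · intro i
    constructor
    · intro p n
      unfold QQ
      rw [sq_mod p n (cc i)]
    · intro p hp
      refine le_trans ?_ (hper.few p hp)
      unfold nuB
      apply card_le_card
      intro r hr
      rw [mem_filter] at hr ⊢
      exact ⟨hr.1, hsub i p r hr.2⟩
  · exact hper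
  · exact hsub
  · intro i p hp
    by_cases h : p ∣ q
    · rw [nuB_QQ_dvd q i p h, nuB_QQ_dvd q 0 p h]
    · rw [nuB_QQ q i p hp h2q h, nuB_QQ q 0 p hp h2q h]

lemma adm_QQ (q : ℕ) (h2q : 2 ∣ q) (p : ℕ) (hp : p.Prime) : nuB (QQ q 0) p < p := by
  by_cases h : p ∣ q
  · rw [nuB_QQ_dvd q 0 p h]
    exact hp.pos
  · rw [nuB_QQ q 0 p hp h2q h]
    have h2 : p ≠ 2 := by
      rintro rfl
      exact h h2q
    have := hp.two_le
    split_ifs <;> omega

/-- collisions -/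
lemma coll_QQ (q p t : ℕ) (h2q : 2 ∣ q) (hp : p.Prime) (ht : 1 ≤ t) (h : CoG (UQ q) p t) :
    p ∣ t ^ 4 + 4 * t ^ 2 ∨ p ∣ t ^ 4 + 16 * t ^ 2 ∨ p ∣ t ^ 4 + 10 * t ^ 2 + 9 := by
  obtain ⟨m, ⟨_, h1⟩, _, h2⟩ := h
  have key : ∀ a b : ℤ, (p : ℤ) ∣ (m : ℤ) ^ 2 + a → (p : ℤ) ∣ ((m : ℤ) + t) ^ 2 + b →
      (p : ℤ) ∣ ((t : ℤ) ^ 2 + b - a) ^ 2 + 4 * a * t ^ 2 := by
    intro a b ha hb
    obtain ⟨u, hu⟩ := ha
    obtain ⟨v, hv⟩ := hb
    refine ⟨4 * (t : ℤ) ^ 2 * u + (v - u) * ((t : ℤ) ^ 2 + b - a - 2 * m * t), ?_⟩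
    have h3 : (2 * (m : ℤ) * t + t ^ 2 + b - a) = p * (v - u) := by linear_combination hv - hu
    linear_combination (4 * (t : ℤ) ^ 2) * hu + ((t : ℤ) ^ 2 + b - a - 2 * m * t) * h3
  rcases h1 with h1 | h1 <;> rcases h2 with h2 | h2
  · left
    have h3 := key 1 1 (by exact_mod_cast h1) (by exact_mod_cast h2)
    have e : ((t : ℤ) ^ 2 + 1 - 1) ^ 2 + 4 * 1 * t ^ 2 = ((t ^ 4 + 4 * t ^ 2 : ℕ) : ℤ) := by push_cast; ring
    rw [e] at h3
    exact Int.natCast_dvd_natCast.1 h3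
  · right; right
    have h3 := key 1 4 (by exact_mod_cast h1) (by exact_mod_cast h2)
    have e : ((t : ℤ) ^ 2 + 4 - 1) ^ 2 + 4 * 1 * t ^ 2 = ((t ^ 4 + 10 * t ^ 2 + 9 : ℕ) : ℤ) := by push_cast; ring
    rw [e] at h3
    exact Int.natCast_dvd_natCast.1 h3
  · right; right
    have h3 := key 4 1 (by exact_mod_cast h1) (by exact_mod_cast h2)
    have e : ((t : ℤ) ^ 2 + 1 - 4) ^ 2 + 4 * 4 * t ^ 2 = ((t ^ 4 + 10 * t ^ 2 + 9 : ℕ) : ℤ) := by push_cast; ring
    rw [e] at h3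
    exact Int.natCast_dvd_natCast.1 h3
  · right; left
    have h3 := key 4 4 (by exact_mod_cast h1) (by exact_mod_cast h2)
    have e : ((t : ℤ) ^ 2 + 4 - 4) ^ 2 + 4 * 4 * t ^ 2 = ((t ^ 4 + 16 * t ^ 2 : ℕ) : ℤ) := by push_cast; ring
    rw [e] at h3
    exact Int.natCast_dvd_natCast.1 h3

open Polynomial in
/-- the density tends to zero -/
lemma van_QQ (q : ℕ) (hq : 1 ≤ q) (h2q : 2 ∣ q) :
    ∃ Cv : ℝ, 0 < Cv ∧ ∀ y : ℕ, 3 ≤ y → Vq (QQ q 0) y ≤ Cv / Real.log y := by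
  classical
  have hg : ∀ p : ℕ, p.Prime → ¬ ((p : ℤ) ∣ 1 ∧ (p : ℤ) ∣ 0 ∧ (p : ℤ) ∣ 1) := by
    rintro p hp ⟨h1, _⟩
    have : p ∣ 1 := by exact_mod_cast h1
    exact hp.one_lt.ne' (Nat.dvd_one.1 this)
  obtain ⟨f, hf⟩ : ∃ f : Fin 1 → ℤ[X], f = fun _ => Pool.Agent.TH464.PW.quad 1 0 1 := ⟨_, rfl⟩
  have hsys : Poly.Sys f := by
    constructor
    · intro i
      rw [hf]
      apply Pool.Agent.TH464.PW.quad_irr 1 0 1 one_ne_zero hg
      rintro ⟨z, hz⟩
      nlinarith [mul_self_nonneg z]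
    · intro i
      rw [hf]
      simp only
      rw [Pool.Agent.TH464.PW.quad_deg 1 0 1 one_ne_zero]
      norm_num
    · intro i
      rw [hf]
      simp only
      rw [Pool.Agent.TH464.PW.quad_lead 1 0 1 one_ne_zero]
      norm_num
    · intro i j _
      exact Subsingleton.elim i j
    · intro p hp
      refine ⟨0, ?_⟩
      intro i hd
      rw [hf] at hd
      simp only at hd
      rw [Pool.Agent.TH464.PW.quad_eval] at hd
      norm_num at hd
      exact hp.one_lt.ne' (Nat.dvd_one.1 (by exact_mod_cast hd))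
  obtain ⟨v, Cv, _, hCv, hb⟩ := Poly.V_bounds f hsys
  apply van_of (QQ q 0) (Poly.Q f) q (fun p hp => Poly.adm f hsys p hp)
  · intro p hp hpq
    have hnd : ¬ p ∣ q := fun hd => by
      have := Nat.le_of_dvd hq hd
      omega
    unfold nuB
    apply card_le_card
    intro r hr
    rw [mem_filter] at hr ⊢
    refine ⟨hr.1, hnd, ?_⟩
    obtain ⟨i, hi⟩ := hr.2
    rw [hf] at hi
    simp only at hi
    rw [Pool.Agent.TH464.PW.quad_eval] at hi
    have e : (1 : ℤ) * (r : ℤ) ^ 2 + 0 * r + 1 = ((r ^ 2 + cc 0 : ℕ) : ℤ) := by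
      unfold cc
      push_cast
      simp
    rw [e] at hi
    exact Int.natCast_dvd_natCast.1 hi
  · refine ⟨Cv, hCv, ?_⟩
    intro y hy
    have := (hb y hy).2
    rw [Fintype.card_fin, pow_one] at this
    exact this

/-- **The typed system satisfies the conditions.** -/
theorem abs_QQ (q : ℕ) (hq : 1 ≤ q) (h2q : 2 ∣ q) : AbsV 5 0 q 0 12 25 (QQ q) (UQ q) ∅ where
  ts := ts_QQ q h2q
  adm := adm_QQ q h2q
  cop := by
    rintro p _ hpq i m ⟨h1, _⟩
    exact h1 hpq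
  hE := by simp
  van := van_QQ q hq h2q
  pair := by
    intro t ht
    simp at ht
  coll := by
    classical
    intro T y t hT ht1 htT _ F hF
    have ht4 : t ^ 4 ≤ (T + 1) ^ 4 := Nat.pow_le_pow_left (by omega) 4
    have ht2 : t ^ 2 ≤ (T + 1) ^ 4 :=
      (Nat.pow_le_pow_left (show t ≤ T + 1 by omega) 2).trans (Nat.pow_le_pow_right (by omega) (by norm_num))
    have h1 : 1 ≤ (T + 1) ^ 4 := Nat.one_le_pow _ _ (by omega)
    have h5 : 26 * (T + 1) ^ 4 ≤ (T + 1) ^ (4 + 1) := by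
      rw [pow_succ, mul_comm]
      exact Nat.mul_le_mul_left _ (by omega)
    have ht0 : 0 < t ^ 4 := by positivity
    have hsub : F ⊆ (F.filter (fun p => p ∣ t ^ 4 + 4 * t ^ 2) ∪ F.filter (fun p => p ∣ t ^ 4 + 16 * t ^ 2)) ∪
        F.filter (fun p => p ∣ t ^ 4 + 10 * t ^ 2 + 9) := by
      intro p hp
      obtain ⟨a1, a2, a3⟩ := hF p hp
      rw [mem_union, mem_union, mem_filter, mem_filter, mem_filter]
      rcases coll_QQ q p t h2q (mem_pz.1 a1).2 ht1 a3 with h | h | h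
      · exact Or.inl (Or.inl ⟨hp, h⟩)
      · exact Or.inl (Or.inr ⟨hp, h⟩)
      · exact Or.inr ⟨hp, h⟩
    have hc : ∀ N : ℕ, 0 < N → N < (T + 1) ^ (4 + 1) → (F.filter (fun p => p ∣ N)).card ≤ 4 := by
      intro N hN hNT
      apply few_primes T 4 N hN hNT
      intro p hp
      rw [mem_filter] at hp
      obtain ⟨a1, a2, a3⟩ := hF p hp.1
      exact ⟨(mem_pz.1 a1).2, a2, hp.2⟩
    refine (card_le_card hsub).trans ((card_union_le _ _).trans ?_)
    have c1 := hc (t ^ 4 + 4 * t ^ 2) (by omega) (by omega)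
    have c2 := hc (t ^ 4 + 16 * t ^ 2) (by omega) (by omega)
    have c3 := hc (t ^ 4 + 10 * t ^ 2 + 9) (by omega) (by omega)
    have c4 := card_union_le (F.filter (fun p => p ∣ t ^ 4 + 4 * t ^ 2)) (F.filter (fun p => p ∣ t ^ 4 + 16 * t ^ 2))
    omega

end Pool.Agent.U98.TZ
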