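import Pool.Agent.U98.TZ.B3

set_option autoImplicit false

/-!
# The joint law for typed systems of linear forms
-/

namespace Pool.Agent.U98.TZ

open Finset Filter Pool.Agent.H373R2.T7 Pool.Agent.W123.RP Pool.Agent.W123.RU Pool.Agent.TH464.PO Pool.Agent.U98.TY
open Pool.Agent.R463.PP (Pat GB sq gp Ev nx)

open Classical in
/-- the possible residues -/
noncomputable def rsL (q : ℕ) (F : ℕ → Finset (ℕ × ℤ)) : Finset ℕ :=
  (range q).filter (fun b : ℕ => ∀ p : ℕ, p.Prime → p ∣ q → ∀ L ∈ F b, ¬ (p : ℤ) ∣ (L.1 : ℤ) * b + L.2)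

lemma rsL_sub (q : ℕ) (F : ℕ → Finset (ℕ × ℤ)) : rsL q F ⊆ range q := by
  classical
  unfold rsL
  exact filter_subset _ _

/-- all forms of the type of `m` are free of prime factors `≤ y` at `m` -/
def RL (q : ℕ) (F : ℕ → Finset (ℕ × ℤ)) (y m : ℕ) : Prop :=
  ∀ L ∈ F (m % q), ∀ p : ℕ, p.Prime → p ≤ y → ¬ (p : ℤ) ∣ (L.1 : ℤ) * m + L.2

variable {A q : ℕ} {F : ℕ → Finset (ℕ × ℤ)}

lemma lin_mod' (p q m a : ℕ) (b : ℤ) (h : p ∣ q) :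
    (p : ℤ) ∣ (a : ℤ) * (m % q : ℕ) + b ↔ (p : ℤ) ∣ (a : ℤ) * m + b := by
  rw [lin_mod p m a b, lin_mod p (m % q) a b, Nat.mod_mod_of_dvd m h]

lemma gb_lin (hq : 1 ≤ q) (y : ℕ) (hqy : q ≤ y) (m : ℕ) :
    GB (GT (QL q F) q y) q (rsL q F) m ↔ RL q F y m := by
  classical
  unfold GB rsL GT Sf QL RL
  rw [mem_filter, mem_range]
  constructor
  · rintro ⟨⟨-, h1⟩, h2⟩ L hL p hp hpy
    by_cases hpq : p ∣ q
    · rw [← lin_mod' p q m L.1 L.2 hpq]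
      exact h1 p hp hpq L hL
    · intro hd
      exact h2 p (mem_pz.2 ⟨hpy, hp⟩) ⟨hpq, L, hL, hd⟩
  · intro h1
    refine ⟨⟨Nat.mod_lt _ hq, ?_⟩, ?_⟩
    · intro p hp hpq L hL
      rw [lin_mod' p q m L.1 L.2 hpq]
      exact h1 L hL p hp ((Nat.le_of_dvd hq hpq).trans hqy)
    · rintro p hp ⟨_, L, hL, hd⟩
      exact h1 L hL p (mem_pz.1 hp).2 (mem_pz.1 hp).1 hd

lemma Vq_lin (q : ℕ) (F : ℕ → Finset (ℕ × ℤ)) (y : ℕ) : Vq (QL q F 0) y =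
    ∏ p ∈ (Icc 1 y).filter (fun p => p.Prime ∧ ¬ p ∣ q), (1 - (nuB (QL q F 0) p : ℝ) / p) := by
  classical
  unfold Vq
  symm
  apply prod_subset
  · intro p hp
    rw [mem_filter, mem_Icc] at hp
    exact mem_pz.2 ⟨hp.1.2, hp.2.1⟩
  · intro p hp hnot
    obtain ⟨h2, h3⟩ := mem_pz.1 hp
    have h4 : p ∣ q := by
      by_contra hcon
      exact hnot (mem_filter.2 ⟨mem_Icc.2 ⟨h3.one_lt.le, h2⟩, h3, hcon⟩)
    rw [nuB_QL_dvd q F 0 p h4, Nat.cast_zero, zero_div, sub_zero]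

/-- **The joint law of distances and residues for typed systems of linear forms.** -/
theorem law_lin (l : ℕ) (hq : 1 ≤ q) (hF : LinF A q F) (ε : ℝ) (hε : 0 < ε) :
    ∃ K y1 : ℕ, ∀ y : ℕ, y1 ≤ y → ∀ Z Y : ℕ, y ^ K ≤ Y → ∀ b s T : ℕ → ℕ, (∀ j ≤ l, b j ∈ rsL q F) →
      (∀ j < l, s j ≤ T j) → ∀ R d : ℝ, R = (rsL q F).card →
      d = R / q * ∏ p ∈ (Icc 1 y).filter (fun p => p.Prime ∧ ¬ p ∣ q), (1 - (nuB (QL q F 0) p : ℝ) / p) →
      |(cG (RL q F y) q l b s T Z Y : ℝ) -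
        d * Y / R ^ (l + 1) * ∏ j ∈ range l, (Real.exp (-(d * s j)) - Real.exp (-(d * T j)))| ≤
        ε * (d * Y / R ^ (l + 1)) := by
  obtain ⟨K, y1, h⟩ := law_abs l (by omega) hq (abs_lin hq hF) (rsL q F) (rsL_sub q F) ε hε
  refine ⟨K, max y1 q, ?_⟩
  intro y hy Z Y hY b s T hb hsT R d hR hd
  rw [← Vq_lin] at hd
  have hmain := h y ((le_max_left _ _).trans hy) Z Y hY b s T hb hsT R d hR hd
  have hG : GB (GT (QL q F) q y) q (rsL q F) = RL q F y := by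
    funext m
    exact propext (gb_lin hq y ((le_max_right _ _).trans hy) m)
  rw [hG] at hmain
  exact hmain

/-- **The law for sets of residues.** -/
theorem law_linS (l : ℕ) (hq : 1 ≤ q) (hF : LinF A q F) (hB1 : 1 ≤ (rsL q F).card) (ε : ℝ) (hε : 0 < ε) :
    ∃ K y1 : ℕ, ∀ y : ℕ, y1 ≤ y → ∀ Z Y : ℕ, y ^ K ≤ Y → ∀ (S : ℕ → Finset ℕ) (s T : ℕ → ℕ),
      (∀ j ≤ l, S j ⊆ rsL q F) → (∀ j < l, s j ≤ T j) → ∀ R d : ℝ, R = (rsL q F).card →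
      d = R / q * ∏ p ∈ (Icc 1 y).filter (fun p => p.Prime ∧ ¬ p ∣ q), (1 - (nuB (QL q F 0) p : ℝ) / p) →
      |(cS (RL q F y) q l S s T Z Y : ℝ) -
        d * Y * (∏ j ∈ range (l + 1), ((S j).card : ℝ) / R) *
          ∏ j ∈ range l, (Real.exp (-(d * s j)) - Real.exp (-(d * T j)))| ≤ ε * (d * Y) := by
  obtain ⟨K, y1, h⟩ := law_absS l (by omega) hq (abs_lin hq hF) (rsL q F) (rsL_sub q F) hB1 ε hε
  refine ⟨K, max y1 q, ?_⟩
  intro y hy Z Y hY S s T hb hsT R d hR hd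
  rw [← Vq_lin] at hd
  have hmain := h y ((le_max_left _ _).trans hy) Z Y hY S s T hb hsT R d hR hd
  have hG : GB (GT (QL q F) q y) q (rsL q F) = RL q F y := by
    funext m
    exact propext (gb_lin hq y ((le_max_right _ _).trans hy) m)
  rw [hG] at hmain
  exact hmain

end Pool.Agent.U98.TZ
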