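import Pool.Agent.U98.TY.A9

set_option autoImplicit false

/-!
# The joint law for abstract typed systems

A fixed typed system with finitely many exceptional differences `E`, at which pairs have one more forbidden class
modulo all large primes, and with boundedly many large collision primes for the other differences.
-/

namespace Pool.Agent.U98.TZ

open Finset Filter Pool.Agent.H373R2.T7 Pool.Agent.W123.RP Pool.Agent.W123.RU Pool.Agent.TH464.PO Pool.Agent.U98.TY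
open Pool.Agent.R463.PP (Pat GB sq gp Ev nx)

/-- a fixed typed system -/
structure AbsS (c e q p1 Dc T1 : ℕ) (Q : ℕ → ℕ → ℕ → Prop) (U : ℕ → ℕ → Prop) (E : Finset ℕ) : Prop where
  ts : TS Q U c
  adm : ∀ p : ℕ, p.Prime → nuB (Q 0) p < p
  cop : ∀ p : ℕ, p.Prime → p ∣ q → ∀ i m, ¬ Q i p m
  hE : E.card ≤ e
  one : ∀ p : ℕ, p.Prime → p1 < p → 1 ≤ nuB (Q 0) p
  pair : ∀ t ∈ E, 1 ≤ t → ∀ i j p, p.Prime → p1 < p → nuB (Q 0) p + 1 ≤ nuB (P2 Q i j t) p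
  coll : ∀ T y t : ℕ, T1 ≤ T → 1 ≤ t → t ≤ T → t ∉ E → ∀ F : Finset ℕ,
    (∀ p ∈ F, p ∈ pz y ∧ T < p ∧ CoG U p t) → F.card ≤ Dc

variable {c e q p1 Dc T1 : ℕ} {Q : ℕ → ℕ → ℕ → Prop} {U : ℕ → ℕ → Prop} {E : Finset ℕ}

lemma nuB_P2_ge' (hts : TS Q U c) (i j t p : ℕ) (hp : p.Prime) : nuB (Q 0) p ≤ nuB (P2 Q i j t) p := by
  classical
  rw [← hts.same i p hp]
  unfold nuB
  apply card_le_card
  intro r hr
  rw [mem_filter] at hr ⊢
  exact ⟨hr.1, Or.inl hr.2⟩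

lemma Vq_P2' (hS : AbsS c e q p1 Dc T1 Q U E) (i j t y : ℕ) (ht : 1 ≤ t) (htE : t ∈ E) :
    Vq (P2 Q i j t) y ≤ (∏ p ∈ (pz y).filter (fun p => p1 < p), (1 - 1 / (p : ℝ))) * Vq (Q 0) y := by
  have h1 : (∏ p ∈ (pz y).filter (fun p => p1 < p), (1 - 1 / (p : ℝ))) * Vq (Q 0) y =
      ∏ p ∈ pz y, ((if p1 < p then (1 - 1 / (p : ℝ)) else 1) * (1 - (nuB (Q 0) p : ℝ) / p)) := by
    rw [Finset.prod_mul_distrib, Finset.prod_filter]
    rfl
  rw [h1]
  unfold Vq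
  apply Finset.prod_le_prod
  · intro p hp
    exact one_sub_nonneg _ p (mem_pz.1 hp).2
  · intro p hp
    have hpp := (mem_pz.1 hp).2
    have hp0 : (0 : ℝ) < p := by exact_mod_cast hpp.pos
    have hp1 : (1 : ℝ) ≤ p := by exact_mod_cast hpp.one_lt.le
    have h2 : (nuB (Q 0) p : ℝ) ≤ nuB (P2 Q i j t) p := by
      exact_mod_cast nuB_P2_ge' hS.ts i j t p hpp
    split_ifs with h
    · have h3 : ((nuB (Q 0) p + 1 : ℕ) : ℝ) ≤ nuB (P2 Q i j t) p := by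
        exact_mod_cast hS.pair t htE ht i j p hpp h
      obtain ⟨k, hk⟩ : ∃ k : ℝ, k = nuB (Q 0) p := ⟨_, rfl⟩
      have hk0 : 0 ≤ k := by rw [hk]; positivity
      push_cast at h3
      rw [← hk] at h3 ⊢
      have h4 : 1 - (nuB (P2 Q i j t) p : ℝ) / p ≤ 1 - (k + 1) / p := by
        apply sub_le_sub_left
        exact div_le_div_of_nonneg_right h3 hp0.le
      refine h4.trans ?_
      have h5 : (1 - 1 / (p : ℝ)) * (1 - k / p) = 1 - (k + 1) / p + k / (p : ℝ) ^ 2 := by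
        field_simp
        ring
      rw [h5]
      have : 0 ≤ k / (p : ℝ) ^ 2 := by positivity
      linarith
    · rw [one_mul]
      apply sub_le_sub_left
      exact div_le_div_of_nonneg_right h2 hp0.le

open Classical in
/-- **The conditions are satisfied.** -/
theorem ok_abs (hS : AbsS c e q p1 Dc T1 Q U E) (P : ParT) :
    ∃ K y1 : ℕ, ∀ y : ℕ, y1 ≤ y → ∀ Y : ℕ, y ^ K ≤ Y → OkT P c e q Q U E Y y := by
  have hts := hS.ts
  obtain ⟨v, hv, hVlow⟩ := V_lower_unif c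
  obtain ⟨Cv, hCv, hVup⟩ := Vq_upper (Q 0) 1 p1 (fun p hp hpq => hS.one p hp hpq)
  have hκ := P.hκ
  have hx1 := P.hx1
  have hη := P.hη
  have hlog : Tendsto (fun y : ℕ => Real.log (y : ℝ)) atTop atTop :=
    Real.tendsto_log_atTop.comp tendsto_natCast_atTop_atTop
  obtain ⟨T2', hT2'⟩ : ∃ T2' : ℕ, (Dc : ℝ) / P.η ≤ T2' := exists_nat_ge _
  obtain ⟨T2, hT2⟩ : ∃ T2 : ℕ, T2 = P.T0 + T2' + T1 + 1 := ⟨_, rfl⟩
  have hev := (((hlog.eventually_ge_atTop (Cv / P.κ)).and (hlog.eventually_ge_atTop (T2 * Cv / P.κ))).and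
    ((eventually_ge_atTop (P.y0 + 2)).and (R1_small p1 P.η2 P.hη2))).and
    (((logpow_le c (1 / (P.κ * v)) (by positivity)).and
    (logpow_le (2 * c) (P.x1 / (P.κ * v ^ 2)) (by positivity))).and
    ((logpow_le (c * P.R0) ((P.x1 / v) ^ P.R0) (by positivity)).and (hlog.eventually_gt_atTop 0)))
  obtain ⟨y1, hy1⟩ := eventually_atTop.1 hev
  refine ⟨P.K0 + 2, y1, ?_⟩
  intro y hy Y hY
  obtain ⟨⟨⟨g1, g2⟩, g3, g4⟩, ⟨g5, g6⟩, g7, g8⟩ := hy1 y hy
  have hy2 : 2 ≤ y := by omega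
  have hyr : (2 : ℝ) ≤ y := by exact_mod_cast hy2
  obtain ⟨L, hL⟩ : ∃ L : ℝ, L = Real.log y := ⟨_, rfl⟩
  rw [← hL] at g1 g2 g5 g6 g7 g8
  have hlow := hVlow (Q 0) (hts.per 0) hS.adm y hy2
  have hup := hVup y hy2
  have hV0 : 0 < Vq (Q 0) y := Vq_pos (Q 0) hS.adm y
  obtain ⟨V, hV⟩ : ∃ V, V = Vq (Q 0) y := ⟨_, rfl⟩
  rw [← hL, ← hV] at hlow hup
  rw [← hV] at hV0
  rw [pow_one] at hup
  have hyY : y ^ 2 ≤ Y := (Nat.pow_le_pow_right (by omega) (by omega)).trans hY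
  have hyY2 : (y : ℝ) ^ 2 ≤ Y := by exact_mod_cast hyY
  have hY0 : (0 : ℝ) < Y := by nlinarith
  have hyY1 : (y : ℝ) ≤ Y := by nlinarith
  have hLc : 0 < L ^ c := pow_pos g8 c
  have hVL : L * V ≤ Cv := by
    rw [le_div_iff₀ g8] at hup
    linarith
  have hvL : v ≤ V * L ^ c := by
    rw [div_le_iff₀ hLc] at hlow
    exact hlow
  refine ⟨hts, hS.adm, hS.cop, hS.hE, by omega,
    (Nat.pow_le_pow_right (by omega) (by omega)).trans hY, ?_, ?_, ?_, ?_, ?_⟩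
  · rw [← hV]
    rw [div_le_iff₀ hκ] at g1
    by_contra hcon
    rw [not_le] at hcon
    nlinarith
  · -- square root
    rw [← hV]
    have h1 : 1 ≤ P.κ * y * V := by
      rw [div_mul_eq_mul_div, one_mul, div_le_iff₀ (by positivity)] at g5
      have h2 : L ^ c * 1 ≤ L ^ c * (P.κ * y * V) := by
        calc L ^ c * 1 ≤ y * (P.κ * v) := by linarith
          _ ≤ y * (P.κ * (V * L ^ c)) := by gcongr
          _ = _ := by ring
      exact le_of_mul_le_mul_left h2 hLc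
    have h3 : (y : ℝ) ≤ √(Y : ℝ) := Real.le_sqrt_of_sq_le hyY2
    have h4 : √(Y : ℝ) * √(Y : ℝ) = Y := Real.mul_self_sqrt hY0.le
    have hs0 := Real.sqrt_nonneg (Y : ℝ)
    calc √(Y : ℝ) = √(Y : ℝ) * 1 := (mul_one _).symm
      _ ≤ √(Y : ℝ) * (P.κ * y * V) := mul_le_mul_of_nonneg_left h1 hs0
      _ ≤ √(Y : ℝ) * (P.κ * √(Y : ℝ) * V) := by gcongr
      _ = P.κ * ((√(Y : ℝ) * √(Y : ℝ)) * V) := by ring
      _ = _ := by rw [h4]
  · rw [← hV, div_le_iff₀ hV0]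
    rw [div_mul_eq_mul_div, div_le_iff₀ (by positivity)] at g6
    have h2 : L ^ (2 * c) * P.x1 ≤ L ^ (2 * c) * (P.κ * (Y * V) * V) := by
      calc L ^ (2 * c) * P.x1 ≤ y * (P.κ * v ^ 2) := by linarith
        _ ≤ Y * (P.κ * (V * L ^ c) ^ 2) := by gcongr
        _ = L ^ (2 * c) * (P.κ * (Y * V) * V) := by
          rw [mul_comm 2 c, pow_mul]
          ring
    exact le_of_mul_le_mul_left h2 (by positivity)
  · intro T h1 h2
    rw [← hV] at h1 h2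
    have hTT : T2 ≤ T := by
      rw [div_le_iff₀ hκ] at g2
      have h3 : (T2 : ℝ) * Cv ≤ T * Cv := by
        calc (T2 : ℝ) * Cv ≤ L * P.κ := g2
          _ ≤ L * (T * V) := mul_le_mul_of_nonneg_left h1 g8.le
          _ = T * (L * V) := by ring
          _ ≤ T * Cv := mul_le_mul_of_nonneg_left hVL (Nat.cast_nonneg _)
      have h4 := le_of_mul_le_mul_right h3 hCv
      exact_mod_cast h4
    refine ⟨by omega, ?_, ?_⟩
    · have h3 : (T : ℝ) ≤ P.x1 / v * L ^ c := by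
        rw [div_mul_eq_mul_div, le_div_iff₀ hv]
        calc (T : ℝ) * v ≤ T * (V * L ^ c) := by gcongr
          _ = T * V * L ^ c := by ring
          _ ≤ _ := by gcongr
      have h4 : (T : ℝ) ^ P.R0 ≤ Y := by
        calc (T : ℝ) ^ P.R0 ≤ (P.x1 / v * L ^ c) ^ P.R0 := pow_le_pow_left₀ (Nat.cast_nonneg _) h3 _
          _ = (P.x1 / v) ^ P.R0 * L ^ (c * P.R0) := by rw [mul_pow, ← pow_mul]
          _ ≤ y := g7
          _ ≤ Y := hyY1
      exact_mod_cast h4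
    · intro t ht htE
      rw [mem_Icc] at ht
      have h3 : ((((pz y).filter (fun p : ℕ => T < p ∧ CoG U p t)).card : ℕ) : ℝ) ≤ Dc := by
        have := hS.coll T y t (by omega) ht.1 ht.2 htE ((pz y).filter (fun p : ℕ => T < p ∧ CoG U p t)) (by
          intro p hp
          rw [mem_filter] at hp
          exact hp)
        exact_mod_cast this
      refine h3.trans ?_
      rw [div_le_iff₀ hη] at hT2'
      have h4 : (T2' : ℝ) ≤ T := by exact_mod_cast (by omega : T2' ≤ T)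
      calc (Dc : ℝ) ≤ T2' * P.η := hT2'
        _ ≤ T * P.η := mul_le_mul_of_nonneg_right h4 hη.le
        _ = _ := mul_comm _ _
  · intro t ht ht1 i j
    exact (Vq_P2' hS i j t y ht1 ht).trans (mul_le_mul_of_nonneg_right g4 (by rw [← hV]; exact hV0.le))

/-- **The joint law for abstract typed systems.** -/
theorem law_abs (l : ℕ) (hc : 1 ≤ c) (hq : 1 ≤ q) (hS : AbsS c e q p1 Dc T1 Q U E) (B : Finset ℕ)
    (hB : B ⊆ range q) (ε : ℝ) (hε : 0 < ε) :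
    ∃ K y1 : ℕ, ∀ y : ℕ, y1 ≤ y → ∀ Z Y : ℕ, y ^ K ≤ Y → ∀ b s T : ℕ → ℕ, (∀ j ≤ l, b j ∈ B) →
      (∀ j < l, s j ≤ T j) → ∀ R d : ℝ, R = B.card → d = R / q * Vq (Q 0) y →
      |(cG (GB (GT Q q y) q B) q l b s T Z Y : ℝ) -
        d * Y / R ^ (l + 1) * ∏ j ∈ range l, (Real.exp (-(d * s j)) - Real.exp (-(d * T j)))| ≤
        ε * (d * Y / R ^ (l + 1)) := by
  by_cases hR0 : B.card = 0
  · refine ⟨0, 0, ?_⟩
    intro y _ Z Y _ b s T hb
    exfalso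
    have := hb 0 (Nat.zero_le _)
    rw [card_eq_zero] at hR0
    rw [hR0] at this
    simp at this
  have hR1 : 1 ≤ B.card := Nat.one_le_iff_ne_zero.2 hR0
  obtain ⟨R', hR'⟩ : ∃ R' : ℝ, R' = B.card := ⟨_, rfl⟩
  have hR'1 : 1 ≤ R' := by
    rw [hR']
    exact_mod_cast hR1
  obtain ⟨P, hP⟩ := runsT c e q l hc hq B hB hR1 (ε / R' ^ l) (by positivity)
  obtain ⟨K, y1, hok⟩ := ok_abs hS P
  refine ⟨K, y1, ?_⟩
  intro y hy Z Y hY b s T hb hsT R d hR hd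
  have hRR : R = R' := by rw [hR, hR']
  have hmain := hP Q U E Y y (hok y hy Y hY) Z (b 0)
    (hb 0 (Nat.zero_le _)) (fun j => b (j + 1)) s T (fun j hj => hb (j + 1) hj) hsT
  rw [← cG_eq] at hmain
  obtain ⟨V, hV⟩ : ∃ V, V = Vq (Q 0) y := ⟨_, rfl⟩
  rw [← hV] at hmain hd
  unfold gp at hmain
  rw [← hR', ← hRR] at hmain
  rw [← hRR] at hR'1
  have hq0 : (0 : ℝ) < q := by exact_mod_cast hq
  have hR0' : 0 < R := by linarith
  have hd' : d = R * V / q := by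
    rw [hd]
    ring
  rw [hd']
  have e1 : R * V / q * Y / R ^ (l + 1) = Y * V / q / R ^ l := by
    rw [pow_succ]
    field_simp
  rw [e1]
  have e2 : Y * V / q / R ^ l * ∏ j ∈ range l, (Real.exp (-(R * V / q * s j)) - Real.exp (-(R * V / q * T j))) =
      Y * V / q * ((∏ j ∈ range l, (Real.exp (-(R * V / q * s j)) - Real.exp (-(R * V / q * T j)))) / R ^ l) := by
    ring
  rw [e2]
  refine hmain.trans (le_of_eq ?_)
  ring

/-- **The law for sets of residues.** -/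
theorem law_absS (l : ℕ) (hc : 1 ≤ c) (hq : 1 ≤ q) (hS : AbsS c e q p1 Dc T1 Q U E) (B : Finset ℕ)
    (hB : B ⊆ range q) (hB1 : 1 ≤ B.card) (ε : ℝ) (hε : 0 < ε) :
    ∃ K y1 : ℕ, ∀ y : ℕ, y1 ≤ y → ∀ Z Y : ℕ, y ^ K ≤ Y → ∀ (S : ℕ → Finset ℕ) (s T : ℕ → ℕ), (∀ j ≤ l, S j ⊆ B) →
      (∀ j < l, s j ≤ T j) → ∀ R d : ℝ, R = B.card → d = R / q * Vq (Q 0) y →
      |(cS (GB (GT Q q y) q B) q l S s T Z Y : ℝ) -
        d * Y * (∏ j ∈ range (l + 1), ((S j).card : ℝ) / R) *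
          ∏ j ∈ range l, (Real.exp (-(d * s j)) - Real.exp (-(d * T j)))| ≤ ε * (d * Y) := by
  obtain ⟨K, y1, h⟩ := law_abs l hc hq hS B hB ε hε
  refine ⟨K, y1, ?_⟩
  intro y hy Z Y hY S s T hSB hsT R d hR hd
  have hR0 : 0 < R := by
    rw [hR]
    exact_mod_cast hB1
  have hq0 : (0 : ℝ) < q := by exact_mod_cast hq
  have hd0 : 0 ≤ d := by
    rw [hd]
    exact mul_nonneg (by positivity) (Vq_nonneg _ _)
  exact law_sets (GB (GT Q q y) q B) q l B S hSB s T Z Y (d * Y) _ ε R hR hR0 (by positivity) hε.le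
    (fun b hb => h y hy Z Y hY b s T hb hsT R d hR hd)

end Pool.Agent.U98.TZ
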