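import Pool.Agent.U98.TZ.B1

set_option autoImplicit false

/-!
# Rare elements, and the change of the law under the removal of rare elements
-/

namespace Pool.Agent.U98.TZ

open Finset Filter Pool.Agent.H373R2.T7 Pool.Agent.W123.RP Pool.Agent.W123.RU Pool.Agent.TH464.PO Pool.Agent.U98.TY

/-- the conditions modulo the primes above `p2`, shifted -/
def Cut (Q : ℕ → ℕ → Prop) (p2 Z p m : ℕ) : Prop := p2 < p ∧ Q p (m + Z)

lemma nuB_congr (Q Q' : ℕ → ℕ → Prop) (p : ℕ) (h : ∀ r, r < p → (Q p r ↔ Q' p r)) : nuB Q p = nuB Q' p := by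
  classical
  unfold nuB
  congr 1
  ext r
  rw [mem_filter, mem_filter, mem_range]
  constructor
  · rintro ⟨h1, h2⟩
    exact ⟨h1, (h r h1).1 h2⟩
  · rintro ⟨h1, h2⟩
    exact ⟨h1, (h r h1).2 h2⟩

lemma nuB_shift' (Q : ℕ → ℕ → Prop) (c : ℕ) (hQ : PerB Q c) (h p : ℕ) :
    nuB (fun p m => Q p (m + h)) p = nuB Q p := by
  classical
  have h1 := nuB_shift Q c hQ h p
  unfold nuB at h1 ⊢
  convert h1

lemma nuB_cut (Q : ℕ → ℕ → Prop) (c p2 Z p : ℕ) (hQ : PerB Q c) :
    nuB (Cut Q p2 Z) p = if p2 < p then nuB Q p else 0 := by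
  classical
  split_ifs with h
  · rw [← nuB_shift' Q c hQ Z p]
    apply nuB_congr
    intro r _
    exact ⟨fun h1 => h1.2, fun h1 => ⟨h, h1⟩⟩
  · unfold nuB
    rw [card_eq_zero, filter_eq_empty_iff]
    rintro r _ ⟨h1, _⟩
    exact h h1

lemma per_cut (Q : ℕ → ℕ → Prop) (c p2 Z : ℕ) (hQ : PerB Q c) : PerB (Cut Q p2 Z) c := by
  constructor
  · intro p n
    unfold Cut
    apply and_congr_right
    intro _
    rw [hQ.per p (n + Z), hQ.per p (n % p + Z), Nat.mod_add_mod]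
  · intro p hp
    rw [nuB_cut Q c p2 Z p hQ]
    split_ifs
    · exact hQ.few p hp
    · exact Nat.zero_le _

/-- the product for the primes above `p2` -/
lemma Vq_cut (Q0 Q : ℕ → ℕ → Prop) (c p2 : ℕ) (hQ : PerB Q c) (hadm : ∀ p : ℕ, p.Prime → nuB Q0 p < p)
    (hge : ∀ p : ℕ, p.Prime → p2 < p → nuB Q0 p + 1 ≤ nuB Q p) (y Z : ℕ) (hy : p2 ≤ y) :
    Vq (Cut Q p2 Z) y ≤
      (∏ p ∈ (pz y).filter (fun p => p2 < p), (1 - 1 / (p : ℝ))) * (Vq Q0 y / Vq Q0 p2) := by
  have hV2 : 0 < Vq Q0 p2 := Vq_pos Q0 hadm p2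
  have hsplit : Vq Q0 y = Vq Q0 p2 * ∏ p ∈ (pz y).filter (fun p => p2 < p), (1 - (nuB Q0 p : ℝ) / p) := by
    unfold Vq
    rw [← Finset.prod_filter_mul_prod_filter_not (pz y) (fun p => p ≤ p2)]
    congr 1
    · apply Finset.prod_congr _ (fun _ _ => rfl)
      ext p
      rw [mem_filter, mem_pz, mem_pz]
      constructor
      · rintro ⟨⟨h1, h2⟩, h3⟩
        exact ⟨h3, h2⟩
      · rintro ⟨h1, h2⟩
        exact ⟨⟨h1.trans hy, h2⟩, h1⟩
    · apply Finset.prod_congr _ (fun _ _ => rfl)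
      ext p
      rw [mem_filter, mem_filter, not_le]
  rw [hsplit, mul_div_cancel_left₀ _ hV2.ne', ← Finset.prod_mul_distrib]
  have h1 : Vq (Cut Q p2 Z) y = ∏ p ∈ (pz y).filter (fun p => p2 < p), (1 - (nuB Q p : ℝ) / p) := by
    unfold Vq
    rw [Finset.prod_filter]
    apply Finset.prod_congr rfl
    intro p _
    rw [nuB_cut Q c p2 Z p hQ]
    split_ifs
    · rfl
    · simp
  rw [h1]
  apply Finset.prod_le_prod
  · intro p hp
    exact one_sub_nonneg _ p (mem_pz.1 (mem_filter.1 hp).1).2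
  · intro p hp
    rw [mem_filter] at hp
    have hpp := (mem_pz.1 hp.1).2
    have hp0 : (0 : ℝ) < p := by exact_mod_cast hpp.pos
    have h3 : ((nuB Q0 p + 1 : ℕ) : ℝ) ≤ nuB Q p := by exact_mod_cast hge p hpp hp.2
    obtain ⟨k, hk⟩ : ∃ k : ℝ, k = nuB Q0 p := ⟨_, rfl⟩
    have hk0 : 0 ≤ k := by rw [hk]; positivity
    push_cast at h3
    rw [← hk] at h3 ⊢
    have h4 : 1 - (nuB Q p : ℝ) / p ≤ 1 - (k + 1) / p := by
      apply sub_le_sub_left
      exact div_le_div_of_nonneg_right h3 hp0.le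
    refine h4.trans ?_
    have h5 : (1 - 1 / (p : ℝ)) * (1 - k / p) = 1 - (k + 1) / p + k / (p : ℝ) ^ 2 := by
      field_simp
      ring
    rw [h5]
    have : 0 ≤ k / (p : ℝ) ^ 2 := by positivity
    linarith

open Classical in
/-- **Elements with one more sifted class are rare.** -/
theorem rare (Q0 Q : ℕ → ℕ → Prop) (c p2 : ℕ) (hc : 1 ≤ c) (hQ0 : PerB Q0 c) (hQ : PerB Q c)
    (hadm : ∀ p : ℕ, p.Prime → nuB Q0 p < p)
    (hge : ∀ p : ℕ, p.Prime → p2 < p → nuB Q0 p + 1 ≤ nuB Q p) (ε : ℝ) (hε : 0 < ε) :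
    ∃ K y1 : ℕ, ∀ y : ℕ, y1 ≤ y → ∀ Z Y : ℕ, y ^ K ≤ Y → ∀ F : Finset ℕ, F ⊆ Ioc Z (Z + Y) →
      (∀ m ∈ F, Sf Q y m) → (F.card : ℝ) ≤ ε * (Vq Q0 y * Y) := by
  obtain ⟨K, x0, _, hfund⟩ := sys_fund c hc 1 one_pos
  obtain ⟨v, hv, hVlow⟩ := V_lower_unif c
  have hV2 : 0 < Vq Q0 p2 := Vq_pos Q0 hadm p2
  have hlog : Tendsto (fun y : ℕ => Real.log (y : ℝ)) atTop atTop :=
    Real.tendsto_log_atTop.comp tendsto_natCast_atTop_atTop
  have hev := ((R1_small p2 (ε * Vq Q0 p2 / 4) (by positivity)).and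
    (logpow_le c (1 / (ε / 2 * v)) (by positivity))).and (hlog.eventually_gt_atTop 0)
  obtain ⟨y1, hy1⟩ := eventually_atTop.1 hev
  refine ⟨K + 2, max (max y1 x0) (max p2 2), ?_⟩
  intro y hy Z Y hY F hF hsf
  have hyy1 : y1 ≤ y := (le_max_left _ _).trans ((le_max_left _ _).trans hy)
  have hyx0 : x0 ≤ y := (le_max_right _ _).trans ((le_max_left _ _).trans hy)
  have hyp2 : p2 ≤ y := (le_max_left _ _).trans ((le_max_right _ _).trans hy)
  have hy2 : 2 ≤ y := (le_max_right _ _).trans ((le_max_right _ _).trans hy)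
  obtain ⟨⟨g1, g2⟩, g3⟩ := hy1 y hyy1
  have hYK : y ^ K ≤ Y := (Nat.pow_le_pow_right (by omega) (by omega)).trans hY
  have hyY : y ^ 2 ≤ Y := (Nat.pow_le_pow_right (by omega) (by omega)).trans hY
  have hyY2 : (y : ℝ) ^ 2 ≤ Y := by exact_mod_cast hyY
  have hy0 : (0 : ℝ) < y := by exact_mod_cast (by omega : 0 < y)
  have hY0 : (0 : ℝ) < Y := by nlinarith
  have h1 := hfund Y y hyx0 hYK (Cut Q p2 Z) (per_cut Q c p2 Z hQ) Y
  have h2 := (abs_le.1 h1).2
  have e1 : ∏ p ∈ pz y, (1 - (nuB (Cut Q p2 Z) p : ℝ) / p) = Vq (Cut Q p2 Z) y := rfl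
  rw [e1] at h2
  have hF2 : (F.card : ℝ) ≤
      ((((Icc 1 Y).filter (fun n : ℕ => ∀ p ∈ pz y, ¬ Cut Q p2 Z p n)).card : ℕ) : ℝ) := by
    have hinj : F.card ≤ ((Icc 1 Y).filter (fun n : ℕ => ∀ p ∈ pz y, ¬ Cut Q p2 Z p n)).card := by
      apply Finset.card_le_card_of_injOn (fun m => m - Z)
      · intro m hm
        rw [Finset.mem_coe] at hm
        have h3 := hF hm
        rw [mem_Ioc] at h3
        rw [Finset.mem_coe, mem_filter, mem_Icc]
        refine ⟨⟨by show 1 ≤ m - Z; omega, by show m - Z ≤ Y; omega⟩, ?_⟩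
        rintro p hp ⟨_, h4⟩
        have h5 : m - Z + Z = m := by omega
        rw [h5] at h4
        exact hsf m hm p hp h4
      · intro a ha b hb hab
        rw [Finset.mem_coe] at ha hb
        have h3 := hF ha
        have h4 := hF hb
        rw [mem_Ioc] at h3 h4
        simp only at hab
        omega
    exact_mod_cast hinj
  have h3 := Vq_cut Q0 Q c p2 hQ hadm hge y Z hyp2
  obtain ⟨V, hV⟩ : ∃ V, V = Vq Q0 y := ⟨_, rfl⟩
  have hV0 : 0 < V := by rw [hV]; exact Vq_pos Q0 hadm y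
  obtain ⟨L, hL⟩ : ∃ L : ℝ, L = Real.log y := ⟨_, rfl⟩
  rw [← hL] at g2 g3
  have hlow := hVlow Q0 hQ0 hadm y hy2
  rw [← hV, ← hL] at hlow
  rw [← hV] at h3 ⊢
  have hLc : 0 < L ^ c := pow_pos g3 c
  have hvL : v ≤ V * L ^ c := by
    rw [div_le_iff₀ hLc] at hlow
    exact hlow
  have h4 : Vq (Cut Q p2 Z) y ≤ ε / 4 * V := by
    refine h3.trans ((mul_le_mul_of_nonneg_right g1 (by positivity)).trans (le_of_eq ?_))
    field_simp
  have hsq : √(Y : ℝ) ≤ ε / 2 * (V * Y) := by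
    have h5 : 1 ≤ ε / 2 * y * V := by
      rw [div_mul_eq_mul_div, one_mul, div_le_iff₀ (by positivity)] at g2
      have h6 : L ^ c * 1 ≤ L ^ c * (ε / 2 * y * V) := by
        calc L ^ c * 1 ≤ y * (ε / 2 * v) := by linarith
          _ ≤ y * (ε / 2 * (V * L ^ c)) := by gcongr
          _ = _ := by ring
      exact le_of_mul_le_mul_left h6 hLc
    have h7 : (y : ℝ) ≤ √(Y : ℝ) := Real.le_sqrt_of_sq_le hyY2
    have h8 : √(Y : ℝ) * √(Y : ℝ) = Y := Real.mul_self_sqrt hY0.le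
    have hs0 := Real.sqrt_nonneg (Y : ℝ)
    calc √(Y : ℝ) = √(Y : ℝ) * 1 := (mul_one _).symm
      _ ≤ √(Y : ℝ) * (ε / 2 * y * V) := mul_le_mul_of_nonneg_left h5 hs0
      _ ≤ √(Y : ℝ) * (ε / 2 * √(Y : ℝ) * V) := by gcongr
      _ = ε / 2 * (V * (√(Y : ℝ) * √(Y : ℝ))) := by ring
      _ = _ := by rw [h8]
  have h9 : (Y : ℝ) * Vq (Cut Q p2 Z) y ≤ Y * (ε / 4 * V) := mul_le_mul_of_nonneg_left h4 hY0.le
  calc (F.card : ℝ) ≤ _ := hF2
    _ ≤ 2 * (Y * Vq (Cut Q p2 Z) y) + √(Y : ℝ) := by linarith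
    _ ≤ 2 * (Y * (ε / 4 * V)) + ε / 2 * (V * Y) := by linarith
    _ = ε * (V * Y) := by ring

/-! ### removal of elements -/

lemma nxt_mem (G : ℕ → Prop) (m : ℕ) (h : m < nxt G m) : G (nxt G m) := by
  have h2 : {n | m < n ∧ G n}.Nonempty := by
    by_contra hcon
    rw [Set.not_nonempty_iff_eq_empty] at hcon
    unfold nxt at h
    rw [hcon, Nat.sInf_empty] at h
    omega
  exact (Nat.sInf_mem h2).2

lemma nxt_le (G : ℕ → Prop) (m n : ℕ) (h : m < n) (hn : G n) : nxt G m ≤ n := Nat.sInf_le ⟨h, hn⟩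

lemma nxt_lt (G : ℕ → Prop) (m n : ℕ) (h : m < n) (hn : G n) : m < nxt G m :=
  (Nat.sInf_mem (⟨n, h, hn⟩ : {n | m < n ∧ G n}.Nonempty)).1

/-- the successor is injective -/
lemma nxt_inj (G : ℕ → Prop) (m n : ℕ) (hm : G m) (hn : G n) (h1 : m < nxt G m) (h2 : n < nxt G n)
    (h : nxt G m = nxt G n) : m = n := by
  rcases Nat.lt_trichotomy m n with h3 | h3 | h3
  · have := nxt_le G m n h3 hn
    omega
  · exact h3
  · have := nxt_le G n m h3 hm
    omega

/-- the first `j` successors exist -/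
def Up (G : ℕ → Prop) (j m : ℕ) : Prop := G m ∧ ∀ i < j, (nxt G)^[i] m < (nxt G)^[i + 1] m

lemma Up.mem {G : ℕ → Prop} {j m : ℕ} (h : Up G j m) : ∀ i ≤ j, G ((nxt G)^[i] m) := by
  intro i hi
  rcases Nat.eq_zero_or_pos i with h0 | h0
  · subst h0
    exact h.1
  · obtain ⟨k, rfl⟩ : ∃ k, i = k + 1 := ⟨i - 1, by omega⟩
    have h1 := h.2 k (by omega)
    rw [Function.iterate_succ_apply'] at h1 ⊢
    exact nxt_mem G _ h1

lemma Up.mono {G : ℕ → Prop} {j i m : ℕ} (h : Up G j m) (hij : i ≤ j) : Up G i m :=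
  ⟨h.1, fun k hk => h.2 k (by omega)⟩

lemma Up.le {G : ℕ → Prop} {j m : ℕ} (h : Up G j m) : m ≤ (nxt G)^[j] m := by
  induction j with
  | zero => simp
  | succ j ih =>
    have h1 := ih (h.mono (by omega))
    have h2 := h.2 j (by omega)
    omega

lemma Up.inj {G : ℕ → Prop} {j m n : ℕ} (hm : Up G j m) (hn : Up G j n)
    (h : (nxt G)^[j] m = (nxt G)^[j] n) : m = n := by
  induction j with
  | zero => simpa using h
  | succ j ih =>
    apply ih (hm.mono (by omega)) (hn.mono (by omega))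
    have h1 := hm.2 j (by omega)
    have h2 := hn.2 j (by omega)
    rw [Function.iterate_succ_apply'] at h1 h2
    rw [Function.iterate_succ_apply', Function.iterate_succ_apply'] at h
    exact nxt_inj G _ _ (hm.mem j (by omega)) (hn.mem j (by omega)) h1 h2 h

open Classical in
/-- few elements have a `j`th successor outside of the interval -/
lemma card_out (G : ℕ → Prop) (Z Y j : ℕ) :
    ((Ioc Z (Z + Y)).filter (fun m => Up G j m ∧ Z + Y < (nxt G)^[j] m)).card ≤ j := by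
  induction j with
  | zero =>
    rw [Nat.le_zero, card_eq_zero, filter_eq_empty_iff]
    rintro m hm ⟨_, h⟩
    rw [mem_Ioc] at hm
    simp only [Function.iterate_zero, id] at h
    omega
  | succ j ih =>
    have hsub : (Ioc Z (Z + Y)).filter (fun m => Up G (j + 1) m ∧ Z + Y < (nxt G)^[j + 1] m) ⊆
        (Ioc Z (Z + Y)).filter (fun m => Up G j m ∧ Z + Y < (nxt G)^[j] m) ∪
        (Ioc Z (Z + Y)).filter (fun m => Up G (j + 1) m ∧ (nxt G)^[j] m ≤ Z + Y ∧
          Z + Y < (nxt G)^[j + 1] m) := by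
      intro m hm
      rw [mem_filter] at hm
      rw [mem_union, mem_filter, mem_filter]
      by_cases h : Z + Y < (nxt G)^[j] m
      · exact Or.inl ⟨hm.1, hm.2.1.mono (by omega), h⟩
      · exact Or.inr ⟨hm.1, hm.2.1, by omega, hm.2.2⟩
    refine (card_le_card hsub).trans ((card_union_le _ _).trans (Nat.add_le_add ih ?_))
    rw [Finset.card_le_one]
    intro a ha b hb
    rw [mem_filter] at ha hb
    obtain ⟨_, a1, a2, a3⟩ := ha
    obtain ⟨_, b1, b2, b3⟩ := hb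
    apply (a1.mono (show j ≤ j + 1 by omega)).inj (b1.mono (by omega))
    rw [Function.iterate_succ_apply'] at a3 b3
    have ga := a1.mem j (by omega)
    have gb := b1.mem j (by omega)
    rcases Nat.lt_trichotomy ((nxt G)^[j] a) ((nxt G)^[j] b) with h3 | h3 | h3
    · have := nxt_le G _ _ h3 gb
      omega
    · exact h3
    · have := nxt_le G _ _ h3 ga
      omega

open Classical in
/-- few elements have a successor in a small set -/
lemma card_hit (G W : ℕ → Prop) (Z Y j : ℕ) :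
    ((Ioc Z (Z + Y)).filter (fun m => Up G j m ∧ W ((nxt G)^[j] m))).card ≤
      ((Ioc Z (Z + Y)).filter W).card + j := by
  have hsub : (Ioc Z (Z + Y)).filter (fun m => Up G j m ∧ W ((nxt G)^[j] m)) ⊆
      (Ioc Z (Z + Y)).filter (fun m => Up G j m ∧ W ((nxt G)^[j] m) ∧ (nxt G)^[j] m ≤ Z + Y) ∪
      (Ioc Z (Z + Y)).filter (fun m => Up G j m ∧ Z + Y < (nxt G)^[j] m) := by
    intro m hm
    rw [mem_filter] at hm
    rw [mem_union, mem_filter, mem_filter]
    by_cases h : Z + Y < (nxt G)^[j] m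
    · exact Or.inr ⟨hm.1, hm.2.1, h⟩
    · exact Or.inl ⟨hm.1, hm.2.1, hm.2.2, by omega⟩
  refine (card_le_card hsub).trans ((card_union_le _ _).trans (Nat.add_le_add ?_ (card_out G Z Y j)))
  apply Finset.card_le_card_of_injOn (fun m => (nxt G)^[j] m)
  · intro m hm
    rw [Finset.mem_coe, mem_filter, mem_Ioc] at hm
    rw [Finset.mem_coe, mem_filter, mem_Ioc]
    have h5 := hm.2.1.le
    exact ⟨⟨by show Z < (nxt G)^[j] m; omega, hm.2.2.2⟩, hm.2.2.1⟩
  · intro a ha b hb hab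
    rw [Finset.mem_coe, mem_filter] at ha hb
    exact ha.2.1.inj hb.2.1 hab

/-- the iterates agree -/
lemma iter_agree (G G' : ℕ → Prop) (hGG : ∀ m, G' m → G m) (l m : ℕ) (hm : Up G l m)
    (hall : ∀ j ≤ l, G' ((nxt G)^[j] m)) : ∀ j ≤ l, (nxt G')^[j] m = (nxt G)^[j] m := by
  intro j
  induction j with
  | zero => intro _; rfl
  | succ j ih =>
    intro hj
    have h1 := hm.2 j (by omega)
    rw [Function.iterate_succ_apply', ih (by omega), Function.iterate_succ_apply']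
    rw [Function.iterate_succ_apply'] at h1
    have h2 := hall (j + 1) hj
    rw [Function.iterate_succ_apply'] at h2
    apply le_antisymm
    · exact nxt_le G' _ _ h1 h2
    · have h3 := nxt_lt G' _ _ h1 h2
      exact nxt_le G _ _ h3 (hGG _ (nxt_mem G' _ h3))

/-- the patterns of `l + 1` consecutive elements of `G` with properties `F j` -/
noncomputable def cF (G : ℕ → Prop) (l : ℕ) (F : ℕ → ℕ → Prop) (s T : ℕ → ℕ) (Z Y : ℕ) : ℕ :=
  Set.ncard {m : ℕ | Z < m ∧ m ≤ Z + Y ∧ G m ∧ (∀ j ≤ l, F j ((nxt G)^[j] m)) ∧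
    ∀ j < l, s j < (nxt G)^[j + 1] m - (nxt G)^[j] m ∧ (nxt G)^[j + 1] m - (nxt G)^[j] m ≤ T j}

open Classical in
lemma cF_card (G : ℕ → Prop) (l : ℕ) (F : ℕ → ℕ → Prop) (s T : ℕ → ℕ) (Z Y : ℕ) :
    cF G l F s T Z Y = ((Ioc Z (Z + Y)).filter (fun m => G m ∧ (∀ j ≤ l, F j ((nxt G)^[j] m)) ∧
    ∀ j < l, s j < (nxt G)^[j + 1] m - (nxt G)^[j] m ∧ (nxt G)^[j + 1] m - (nxt G)^[j] m ≤ T j)).card := by
  unfold cF
  rw [← Set.ncard_coe_finset]
  congr 1
  ext m
  simp only [Set.mem_ofPred_eq, coe_filter, mem_Ioc]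
  tauto

open Classical in
/-- **The law changes little when rare elements are removed.** -/
theorem pert (G G' : ℕ → Prop) (hGG : ∀ m, G' m → G m) (l : ℕ) (F : ℕ → ℕ → Prop) (s T : ℕ → ℕ) (Z Y : ℕ) :
    |(cF G' l F s T Z Y : ℝ) - cF G l F s T Z Y| ≤
      (l + 1) * (((Ioc Z (Z + Y)).filter (fun m => G m ∧ ¬ G' m)).card + l) := by
  obtain ⟨A, hA⟩ : ∃ A : Finset ℕ, A = (Ioc Z (Z + Y)).filter (fun m => G m ∧ (∀ j ≤ l, F j ((nxt G)^[j] m)) ∧
    ∀ j < l, s j < (nxt G)^[j + 1] m - (nxt G)^[j] m ∧ (nxt G)^[j + 1] m - (nxt G)^[j] m ≤ T j) := ⟨_, rfl⟩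
  obtain ⟨A', hA'⟩ : ∃ A' : Finset ℕ, A' = (Ioc Z (Z + Y)).filter (fun m => G' m ∧
    (∀ j ≤ l, F j ((nxt G')^[j] m)) ∧
    ∀ j < l, s j < (nxt G')^[j + 1] m - (nxt G')^[j] m ∧ (nxt G')^[j + 1] m - (nxt G')^[j] m ≤ T j) := ⟨_, rfl⟩
  rw [cF_card, cF_card, ← hA, ← hA']
  obtain ⟨H, hH⟩ : ∃ H : Finset ℕ, H = (range (l + 1)).biUnion (fun j =>
    (Ioc Z (Z + Y)).filter (fun m => Up G j m ∧ (G ((nxt G)^[j] m) ∧ ¬ G' ((nxt G)^[j] m)))) := ⟨_, rfl⟩
  have hHc : H.card ≤ (l + 1) * (((Ioc Z (Z + Y)).filter (fun m => G m ∧ ¬ G' m)).card + l) := by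
    rw [hH]
    refine (Finset.card_biUnion_le_card_mul _ _
      (((Ioc Z (Z + Y)).filter (fun m => G m ∧ ¬ G' m)).card + l) ?_).trans (by rw [card_range])
    intro j hj
    rw [mem_range] at hj
    have h5 := card_hit G (fun m => G m ∧ ¬ G' m) Z Y j
    have h6 : j ≤ l := by omega
    have h7 := h5.trans (Nat.add_le_add_left h6 _)
    refine le_trans (le_trans (le_of_eq ?_) h7) (le_of_eq ?_) <;> congr!
  -- a common statement
  have key : ∀ m, m ∈ Ioc Z (Z + Y) → G m → m ∉ H → ∀ k ≤ l, Up G k m → ∀ j ≤ k, G' ((nxt G)^[j] m) := by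
    intro m hm _ hmH k hk hup j hj
    by_contra hcon
    apply hmH
    rw [hH, mem_biUnion]
    refine ⟨j, mem_range.2 (by omega), ?_⟩
    rw [mem_filter]
    exact ⟨hm, hup.mono hj, hup.mem j hj, hcon⟩
  have h1 : A ⊆ A' ∪ H := by
    intro m hm
    rw [mem_union]
    by_cases hmH : m ∈ H
    · exact Or.inr hmH
    · left
      rw [hA, mem_filter] at hm
      obtain ⟨m1, m2, m3, m4⟩ := hm
      have hup : Up G l m := ⟨m2, fun j hj => by have := (m4 j hj).1; omega⟩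
      have hall := key m m1 m2 hmH l le_rfl hup
      have hag := iter_agree G G' hGG l m hup hall
      rw [hA', mem_filter]
      refine ⟨m1, hall 0 (Nat.zero_le _), ?_, ?_⟩
      · intro j hj
        rw [hag j hj]
        exact m3 j hj
      · intro j hj
        rw [hag j (by omega), hag (j + 1) (by omega)]
        exact m4 j hj
  have h2 : A' ⊆ A ∪ H := by
    intro m hm
    rw [mem_union]
    by_cases hmH : m ∈ H
    · exact Or.inr hmH
    · left
      rw [hA', mem_filter] at hm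
      obtain ⟨m1, m2, m3, m4⟩ := hm
      have hup' : Up G' l m := ⟨m2, fun j hj => by have := (m4 j hj).1; omega⟩
      have hup : ∀ k ≤ l, Up G k m := by
        intro k
        induction k with
        | zero => intro _; exact ⟨hGG m m2, by intro i hi; omega⟩
        | succ k ih =>
          intro hk
          have hupk := ih (by omega)
          have hall := key m m1 (hGG m m2) hmH k (by omega) hupk
          have hag := iter_agree G G' hGG k m hupk hall
          refine ⟨hGG m m2, ?_⟩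
          intro i hi
          rcases Nat.lt_or_ge i k with h3 | h3
          · exact hupk.2 i h3
          · have hik : i = k := by omega
            subst hik
            have h4 := hup'.2 i (by omega)
            rw [Function.iterate_succ_apply'] at h4 ⊢
            rw [hag i le_rfl] at h4
            exact nxt_lt G _ _ h4 (hGG _ (nxt_mem G' _ h4))
      have hupl := hup l le_rfl
      have hall := key m m1 (hGG m m2) hmH l le_rfl hupl
      have hag := iter_agree G G' hGG l m hupl hall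
      rw [hA, mem_filter]
      refine ⟨m1, hGG m m2, ?_, ?_⟩
      · intro j hj
        rw [← hag j hj]
        exact m3 j hj
      · intro j hj
        rw [← hag j (by omega), ← hag (j + 1) (by omega)]
        exact m4 j hj
  have h3 : A.card ≤ A'.card + H.card := (card_le_card h1).trans (card_union_le _ _)
  have h4 : A'.card ≤ A.card + H.card := (card_le_card h2).trans (card_union_le _ _)
  have h5 : (A.card : ℝ) ≤ A'.card + H.card := by exact_mod_cast h3
  have h6 : (A'.card : ℝ) ≤ A.card + H.card := by exact_mod_cast h4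
  have h7 : (H.card : ℝ) ≤ (l + 1) * (((Ioc Z (Z + Y)).filter (fun m => G m ∧ ¬ G' m)).card + l) := by
    exact_mod_cast hHc
  rw [abs_le]
  constructor <;> linarith

end Pool.Agent.U98.TZ
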