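import Pool.Agent.U98.TZ.B2

set_option autoImplicit false

/-!
# Typed systems of linear forms
-/

namespace Pool.Agent.U98.TZ

open Finset Filter Pool.Agent.H373R2.T7 Pool.Agent.W123.RP Pool.Agent.W123.RU Pool.Agent.TH464.PO Pool.Agent.U98.TY

/-- one of the forms `a m + b` of the type `i` is divisible by `p`, for the primes which do not divide `q` -/
def QL (q : ℕ) (F : ℕ → Finset (ℕ × ℤ)) (i p m : ℕ) : Prop :=
  ¬ p ∣ q ∧ ∃ L ∈ F i, (p : ℤ) ∣ (L.1 : ℤ) * m + L.2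

/-- the union of the conditions -/
def UL (q A p m : ℕ) : Prop :=
  ¬ p ∣ q ∧ ∃ L : ℕ × ℤ, (1 ≤ L.1 ∧ L.1 ≤ A ∧ |L.2| ≤ A) ∧ (p : ℤ) ∣ (L.1 : ℤ) * m + L.2

lemma lin_mod (p m a : ℕ) (b : ℤ) : (p : ℤ) ∣ (a : ℤ) * m + b ↔ (p : ℤ) ∣ (a : ℤ) * (m % p : ℕ) + b := by
  have h : (p : ℤ) ∣ ((a : ℤ) * m + b) - ((a : ℤ) * (m % p : ℕ) + b) := by
    have h1 : ((m : ℤ)) - ((m % p : ℕ) : ℤ) = p * ((m / p : ℕ) : ℤ) := by
      have := Nat.mod_add_div m p
      have h2 : ((m % p : ℕ) : ℤ) + (p : ℤ) * ((m / p : ℕ) : ℤ) = (m : ℤ) := by exact_mod_cast this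
      linarith
    have h3 : ((a : ℤ) * m + b) - ((a : ℤ) * (m % p : ℕ) + b) = p * (a * ((m / p : ℕ) : ℤ)) := by
      linear_combination (a : ℤ) * h1
    rw [h3]
    exact dvd_mul_right _ _
  constructor
  · intro h1
    have h2 := dvd_sub h1 h
    rwa [sub_sub_cancel] at h2
  · intro h1
    have h2 := dvd_add h h1
    rwa [sub_add_cancel] at h2

/-- two solutions of the same linear congruence agree -/
lemma lin_uniq (p a r r' : ℕ) (b : ℤ) (hp : p.Prime) (ha : ¬ p ∣ a) (hr : r < p) (hr' : r' < p)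
    (h : (p : ℤ) ∣ (a : ℤ) * r + b) (h' : (p : ℤ) ∣ (a : ℤ) * r' + b) : r = r' := by
  have h1 : (p : ℤ) ∣ (a : ℤ) * ((r : ℤ) - r') := by
    have := dvd_sub h h'
    have e : ((a : ℤ) * r + b) - ((a : ℤ) * r' + b) = (a : ℤ) * ((r : ℤ) - r') := by ring
    rwa [e] at this
  have hpz : Prime (p : ℤ) := Nat.prime_iff_prime_int.1 hp
  rcases hpz.dvd_or_dvd h1 with h2 | h2
  · exact absurd (Int.natCast_dvd_natCast.1 h2) ha
  · have h3 : (r : ℤ) - r' = 0 := by
      apply Int.eq_zero_of_abs_lt_dvd h2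
      rw [abs_lt]
      constructor <;> omega
    omega

/-- a linear congruence has a solution -/
lemma lin_ex (p a : ℕ) (b : ℤ) (hp : p.Prime) (ha : ¬ p ∣ a) : ∃ r < p, (p : ℤ) ∣ (a : ℤ) * r + b := by
  have hcop : Nat.Coprime a p := ((Nat.Prime.coprime_iff_not_dvd hp).2 ha).symm
  obtain ⟨u, v, huv⟩ : ∃ u v : ℤ, (a : ℤ) * u + p * v = 1 := by
    refine ⟨Nat.gcdA a p, Nat.gcdB a p, ?_⟩
    have := Nat.gcd_eq_gcd_ab a p
    rw [Nat.Coprime] at hcop
    rw [hcop] at this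
    rw [← this]
    rfl
  obtain ⟨r, hr⟩ : ∃ r : ℕ, (r : ℤ) = (-b * u) % p :=
    ⟨((-b * u) % p).toNat, Int.toNat_of_nonneg (Int.emod_nonneg _ (by exact_mod_cast hp.ne_zero))⟩
  refine ⟨r, ?_, ?_⟩
  · have := Int.emod_lt_of_pos (-b * u) (show (0 : ℤ) < p by exact_mod_cast hp.pos)
    rw [← hr] at this
    exact_mod_cast this
  · rw [hr]
    have h1 : (-b * u) % p = -b * u - p * ((-b * u) / p) := by
      have := Int.emod_add_mul_ediv (-b * u) p
      linarith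
    rw [h1]
    have h2 : (a : ℤ) * (-b * u - p * ((-b * u) / p)) + b = p * (b * v - a * ((-b * u) / p)) := by
      linear_combination (-b) * huv
    rw [h2]
    exact dvd_mul_right _ _

/-- the box of the forms -/
noncomputable def box (A : ℕ) : Finset (ℕ × ℤ) := Icc 1 A ×ˢ Icc (-(A : ℤ)) A

lemma mem_box {A : ℕ} {L : ℕ × ℤ} : L ∈ box A ↔ 1 ≤ L.1 ∧ L.1 ≤ A ∧ |L.2| ≤ A := by
  unfold box
  rw [mem_product, mem_Icc, mem_Icc, abs_le]
  tauto

lemma card_box (A : ℕ) : (box A).card = A * (2 * A + 1) := by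
  unfold box
  rw [card_product, Nat.card_Icc, Int.card_Icc]
  congr 1
  omega

lemma nuB_UL (q A p : ℕ) (hp : p.Prime) : nuB (UL q A) p ≤ A * (2 * A + 1) + 1 := by
  classical
  rcases Nat.lt_or_ge A p with h | h
  · unfold nuB
    have hsub : (range p).filter (fun r => UL q A p r) ⊆
        (box A).biUnion (fun L => (range p).filter (fun r : ℕ => (p : ℤ) ∣ (L.1 : ℤ) * r + L.2)) := by
      intro r hr
      rw [mem_filter] at hr
      obtain ⟨h1, _, L, hL, hd⟩ := hr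
      rw [mem_biUnion]
      exact ⟨L, mem_box.2 hL, mem_filter.2 ⟨h1, hd⟩⟩
    refine (card_le_card hsub).trans ((Finset.card_biUnion_le_card_mul _ _ 1 ?_).trans ?_)
    · intro L hL
      rw [mem_box] at hL
      rw [Finset.card_le_one]
      intro a ha b hb
      rw [mem_filter, mem_range] at ha hb
      refine lin_uniq p L.1 a b L.2 hp ?_ ha.1 hb.1 ha.2 hb.2
      intro hd
      have := Nat.le_of_dvd (by omega) hd
      omega
    · rw [card_box]
      omega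
  · have h1 := nuB_le (UL q A) p
    have h2 : A * 1 ≤ A * (2 * A + 1) := Nat.mul_le_mul_left A (by omega)
    omega

/-- a typed system of linear forms -/
structure LinF (A q : ℕ) (F : ℕ → Finset (ℕ × ℤ)) : Prop where
  hA : 1 ≤ A
  bd : ∀ i, ∀ L ∈ F i, 1 ≤ L.1 ∧ L.1 ≤ A ∧ |L.2| ≤ A
  ne : ∀ i, (F i).Nonempty
  same : ∀ i p, p.Prime → ¬ p ∣ q → nuB (QL q F i) p = nuB (QL q F 0) p
  adm : ∀ p, p.Prime → ¬ p ∣ q → nuB (QL q F 0) p < p
  tr : ∀ i j t : ℕ, 1 ≤ t → (∃ L ∈ F i, ∀ L' ∈ F j, (L.1 : ℤ) * (L'.1 * t + L'.2) - L'.1 * L.2 ≠ 0) ∨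
    (∃ L' ∈ F j, ∀ L ∈ F i, (L.1 : ℤ) * (L'.1 * t + L'.2) - L'.1 * L.2 ≠ 0)

variable {A q : ℕ} {F : ℕ → Finset (ℕ × ℤ)}

lemma nuB_QL_dvd (q : ℕ) (F : ℕ → Finset (ℕ × ℤ)) (i p : ℕ) (h : p ∣ q) : nuB (QL q F i) p = 0 := by
  classical
  unfold nuB
  rw [card_eq_zero, filter_eq_empty_iff]
  intro m _ hm
  exact hm.1 h

lemma ts_lin (hF : LinF A q F) : TS (QL q F) (UL q A) (A * (2 * A + 1) + 1) := by
  classical
  have hper : PerB (UL q A) (A * (2 * A + 1) + 1) := by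
    constructor
    · intro p n
      unfold UL
      apply and_congr_right
      intro _
      apply exists_congr
      intro L
      rw [lin_mod]
    · intro p hp
      exact nuB_UL q A p hp
  have hsub : ∀ i p m, QL q F i p m → UL q A p m := by
    rintro i p m ⟨h1, L, hL, hd⟩
    exact ⟨h1, L, hF.bd i L hL, hd⟩
  constructor
  · intro i
    constructor
    · intro p n
      unfold QL
      apply and_congr_right
      intro _
      apply exists_congr
      intro L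
      rw [lin_mod]
    · intro p hp
      refine le_trans ?_ (hper.few p hp)
      unfold nuB
      apply card_le_card
      intro r hr
      rw [mem_filter] at hr ⊢
      exact ⟨hr.1, hsub i p r hr.2⟩
  · exact hper
  · exact hsub
  · intro i p hp
    by_cases h : p ∣ q
    · rw [nuB_QL_dvd q F i p h, nuB_QL_dvd q F 0 p h]
    · exact hF.same i p hp h

lemma res_eq (p m t : ℕ) (a a' : ℕ) (b b' : ℤ) (h : (p : ℤ) ∣ (a : ℤ) * m + b)
    (h' : (p : ℤ) ∣ (a' : ℤ) * (m + t : ℕ) + b') : (p : ℤ) ∣ (a : ℤ) * (a' * t + b') - a' * b := by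
  have h1 := dvd_sub (dvd_mul_of_dvd_right h' (a : ℤ)) (dvd_mul_of_dvd_right h (a' : ℤ))
  have e : (a : ℤ) * ((a' : ℤ) * (m + t : ℕ) + b') - a' * ((a : ℤ) * m + b) =
      (a : ℤ) * (a' * t + b') - a' * b := by
    push_cast
    ring
  rwa [e] at h1

lemma res_bd (A t : ℕ) (a a' : ℕ) (b b' : ℤ) (ha : a ≤ A) (ha' : a' ≤ A)
    (hb : |b| ≤ A) (hb' : |b'| ≤ A) : |(a : ℤ) * (a' * t + b') - a' * b| ≤ A ^ 2 * (t + 2) := by
  have h1 : (a : ℤ) ≤ A := by exact_mod_cast ha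
  have h2 : (a' : ℤ) ≤ A := by exact_mod_cast ha'
  have h3 : (0 : ℤ) ≤ a := by positivity
  have h4 : (0 : ℤ) ≤ a' := by positivity
  have h5 : (0 : ℤ) ≤ t := by positivity
  have h6 : (0 : ℤ) ≤ A := by positivity
  have e1 : |(a : ℤ) * (a' * t + b') - a' * b| ≤ |(a : ℤ) * (a' * t)| + |(a : ℤ) * b'| + |(a' : ℤ) * b| := by
    have e : (a : ℤ) * (a' * t + b') - a' * b = ((a : ℤ) * (a' * t) + (a : ℤ) * b') - a' * b := by ring
    rw [e]
    exact (abs_sub _ _).trans (add_le_add_left (abs_add_le _ _) _)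
  have e2 : |(a : ℤ) * (a' * t)| ≤ A * (A * t) := by
    rw [abs_of_nonneg (by positivity)]
    gcongr
  have e3 : |(a : ℤ) * b'| ≤ A * A := by
    rw [abs_mul, abs_of_nonneg h3]
    gcongr
  have e4 : |(a' : ℤ) * b| ≤ A * A := by
    rw [abs_mul, abs_of_nonneg h4]
    gcongr
  calc _ ≤ _ := e1
    _ ≤ A * (A * t) + A * A + A * A := by linarith
    _ = A ^ 2 * (t + 2) := by ring

lemma not_dvd_of_lt (p : ℕ) (x : ℤ) (hx : x ≠ 0) (hlt : |x| < p) : ¬ (p : ℤ) ∣ x := by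
  intro hd
  exact hx (Int.eq_zero_of_abs_lt_dvd hd hlt)

/-- **Typed systems of linear forms are admissible for the law.** -/
theorem abs_lin (hq : 1 ≤ q) (hF : LinF A q F) :
    AbsS (A * (2 * A + 1) + 1) (2 * A ^ 2) q (q + A ^ 2 * (2 * A ^ 2 + 2)) ((A * (2 * A + 1)) * (A * (2 * A + 1)))
      (2 * A ^ 2 + 2) (QL q F) (UL q A) (Icc 1 (2 * A ^ 2)) := by
  classical
  have hts := ts_lin hF
  have hA := hF.hA
  have hAA : A ≤ A ^ 2 := by nlinarith
  have hbig : ∀ p : ℕ, q + A ^ 2 * (2 * A ^ 2 + 2) < p → ¬ p ∣ q ∧ A < p := by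
    intro p hp
    have h1 : A ^ 2 * 1 ≤ A ^ 2 * (2 * A ^ 2 + 2) := Nat.mul_le_mul_left _ (by omega)
    refine ⟨fun hd => ?_, by omega⟩
    have := Nat.le_of_dvd hq hd
    omega
  refine ⟨hts, ?_, ?_, ?_, ?_, ?_, ?_⟩
  · intro p hp
    by_cases h : p ∣ q
    · rw [nuB_QL_dvd q F 0 p h]
      exact hp.pos
    · exact hF.adm p hp h
  · rintro p _ hpq i m ⟨h1, _⟩
    exact h1 hpq
  · rw [Nat.card_Icc]
    omega
  · intro p hp hpp
    obtain ⟨h1, h2⟩ := hbig p hpp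
    obtain ⟨L, hL⟩ := hF.ne 0
    obtain ⟨b1, b2, b3⟩ := hF.bd 0 L hL
    obtain ⟨r, hr, hd⟩ := lin_ex p L.1 L.2 hp (fun hd => by
      have := Nat.le_of_dvd (by omega) hd
      omega)
    unfold nuB
    rw [Nat.one_le_iff_ne_zero, Finset.card_ne_zero]
    exact ⟨r, mem_filter.2 ⟨mem_range.2 hr, h1, L, hL, hd⟩⟩
  · intro t htE ht i j p hp hpp
    rw [mem_Icc] at htE
    obtain ⟨h1, h2⟩ := hbig p hpp
    rcases hF.tr i j t ht with ⟨L, hL, hne⟩ | ⟨L', hL', hne⟩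
    · obtain ⟨b1, b2, b3⟩ := hF.bd i L hL
      obtain ⟨r, hr, hd⟩ := lin_ex p L.1 L.2 hp (fun hd => by
        have := Nat.le_of_dvd (by omega) hd
        omega)
      have hnot : ¬ QL q F j p (r + t) := by
        rintro ⟨_, L', hL', hd'⟩
        obtain ⟨c1, c2, c3⟩ := hF.bd j L' hL'
        have h3 := res_eq p r t L.1 L'.1 L.2 L'.2 hd hd'
        have h4 := res_bd A t L.1 L'.1 L.2 L'.2 b2 c2 b3 c3
        refine not_dvd_of_lt p _ (hne L' hL') (lt_of_le_of_lt h4 ?_) h3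
        have h5 : A ^ 2 * (t + 2) ≤ A ^ 2 * (2 * A ^ 2 + 2) := Nat.mul_le_mul_left _ (by omega)
        have h6 : A ^ 2 * (t + 2) < p := by omega
        exact_mod_cast h6
      have h3 : nuB (QL q F 0) p = nuB (fun p m => QL q F j p (m + t)) p := by
        rw [nuB_shift' (QL q F j) _ (hts.per j) t p, hts.same j p hp]
      rw [h3]
      unfold nuB
      rw [← Finset.card_insert_of_notMem (s := (range p).filter (fun m => QL q F j p (m + t))) (a := r) (by
        rw [mem_filter]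
        rintro ⟨_, h4⟩
        exact hnot h4)]
      apply card_le_card
      intro x hx
      rw [mem_insert] at hx
      rw [mem_filter]
      rcases hx with rfl | hx
      · exact ⟨mem_range.2 hr, Or.inl ⟨h1, L, hL, hd⟩⟩
      · rw [mem_filter] at hx
        exact ⟨hx.1, Or.inr hx.2⟩
    · obtain ⟨c1, c2, c3⟩ := hF.bd j L' hL'
      obtain ⟨r, hr, hd0⟩ := lin_ex p L'.1 (L'.1 * t + L'.2) hp (fun hd => by
        have := Nat.le_of_dvd (by omega) hd
        omega)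
      have hd : (p : ℤ) ∣ (L'.1 : ℤ) * (r + t : ℕ) + L'.2 := by
        have e : (L'.1 : ℤ) * (r + t : ℕ) + L'.2 = (L'.1 : ℤ) * r + (L'.1 * t + L'.2) := by
          push_cast
          ring
        rw [e]
        exact hd0
      have hnot : ¬ QL q F i p r := by
        rintro ⟨_, L, hL, hd'⟩
        obtain ⟨b1, b2, b3⟩ := hF.bd i L hL
        have h3 := res_eq p r t L.1 L'.1 L.2 L'.2 hd' hd
        have h4 := res_bd A t L.1 L'.1 L.2 L'.2 b2 c2 b3 c3
        refine not_dvd_of_lt p _ (hne L hL) (lt_of_le_of_lt h4 ?_) h3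
        have h5 : A ^ 2 * (t + 2) ≤ A ^ 2 * (2 * A ^ 2 + 2) := Nat.mul_le_mul_left _ (by omega)
        have h6 : A ^ 2 * (t + 2) < p := by omega
        exact_mod_cast h6
      rw [← hts.same i p hp]
      unfold nuB
      rw [← Finset.card_insert_of_notMem (s := (range p).filter (fun m => QL q F i p m)) (a := r) (by
        rw [mem_filter]
        rintro ⟨_, h4⟩
        exact hnot h4)]
      apply card_le_card
      intro x hx
      rw [mem_insert] at hx
      rw [mem_filter]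
      rcases hx with rfl | hx
      · exact ⟨mem_range.2 hr, Or.inr ⟨h1, L', hL', hd⟩⟩
      · rw [mem_filter] at hx
        exact ⟨hx.1, Or.inl hx.2⟩
  · intro T y t hT ht1 htT htE F' hF'
    rw [mem_Icc] at htE
    have ht2 : 2 * A ^ 2 < t := by omega
    have hsub : F' ⊆ (box A ×ˢ box A).biUnion (fun X => F'.filter (fun p : ℕ =>
        (p : ℤ) ∣ (X.1.1 : ℤ) * (X.2.1 * t + X.2.2) - X.2.1 * X.1.2)) := by
      intro p hp
      obtain ⟨_, _, m, ⟨_, L, hL, hd⟩, _, L', hL', hd'⟩ := hF' p hp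
      rw [mem_biUnion]
      refine ⟨(L, L'), mem_product.2 ⟨mem_box.2 hL, mem_box.2 hL'⟩, mem_filter.2 ⟨hp, ?_⟩⟩
      exact res_eq p m t L.1 L'.1 L.2 L'.2 hd hd'
    refine (card_le_card hsub).trans ((Finset.card_biUnion_le_card_mul _ _ 1 ?_).trans ?_)
    · rintro ⟨L, L'⟩ hX
      rw [mem_product, mem_box, mem_box] at hX
      obtain ⟨⟨a1, a2, a3⟩, c1, c2, c3⟩ := hX
      simp only at a1 a2 a3 c1 c2 c3 ⊢
      rw [Finset.card_le_one]
      intro x hx z hz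
      rw [mem_filter] at hx hz
      obtain ⟨x1, x2, _⟩ := hF' x hx.1
      obtain ⟨z1, z2, _⟩ := hF' z hz.1
      by_contra hxz
      obtain ⟨N, hN⟩ : ∃ N : ℤ, N = (L.1 : ℤ) * (L'.1 * t + L'.2) - L'.1 * L.2 := ⟨_, rfl⟩
      rw [← hN] at hx hz
      have hbd := res_bd A t L.1 L'.1 L.2 L'.2 a2 c2 a3 c3
      rw [← hN] at hbd
      have hN0 : N ≠ 0 := by
        have e1 : (1 : ℤ) ≤ L.1 := by exact_mod_cast a1
        have e2 : (1 : ℤ) ≤ L'.1 := by exact_mod_cast c1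
        have e3 : (L.1 : ℤ) ≤ A := by exact_mod_cast a2
        have e4 : (L'.1 : ℤ) ≤ A := by exact_mod_cast c2
        have e5 : (2 * (A : ℤ) ^ 2) < t := by exact_mod_cast ht2
        have e6 : (t : ℤ) ≤ L.1 * L'.1 * t := by nlinarith [mul_nonneg (sub_nonneg.2 e1) (sub_nonneg.2 e2)]
        rw [abs_le] at a3 c3
        have e7 : -((A : ℤ) * A) ≤ L.1 * L'.2 := by nlinarith
        have e8 : (L'.1 : ℤ) * L.2 ≤ A * A := by nlinarith
        have e9 : 0 < N := by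
          rw [hN]
          nlinarith
        exact e9.ne'
      have hcop : IsCoprime (x : ℤ) (z : ℤ) := by
        rw [Nat.isCoprime_iff_coprime]
        exact (Nat.coprime_primes (mem_pz.1 x1).2 (mem_pz.1 z1).2).2 hxz
      have h5 : ((x : ℤ) * z) ∣ N := hcop.mul_dvd hx.2 hz.2
      have h6 := Int.le_of_dvd (abs_pos.2 hN0) ((dvd_abs _ _).2 h5)
      have h7 : ((T : ℤ) + 1) * (T + 1) ≤ x * z := by
        have e1 : (T : ℤ) + 1 ≤ x := by exact_mod_cast x2
        have e2 : (T : ℤ) + 1 ≤ z := by exact_mod_cast z2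
        exact mul_le_mul e1 e2 (by positivity) (by positivity)
      have h8 : (A : ℤ) ^ 2 * (t + 2) ≤ A ^ 2 * (T + 2) := by
        have e1 : (t : ℤ) ≤ T := by exact_mod_cast htT
        gcongr
      have h9 : 2 * (A : ℤ) ^ 2 + 2 ≤ T := by exact_mod_cast hT
      have h10 : (0 : ℤ) ≤ (A : ℤ) ^ 2 := by positivity
      nlinarith
    · rw [card_product, card_box, mul_one]

end Pool.Agent.U98.TZ
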