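import Pool.Agent.U98.TZ.C1

set_option autoImplicit false

/-!
# The law after the removal of rare elements; bounds for the density
-/

namespace Pool.Agent.U98.TZ

open Finset Filter Pool.Agent.H373R2.T7 Pool.Agent.W123.RP Pool.Agent.W123.RU Pool.Agent.TH464.PO Pool.Agent.U98.TY
open Pool.Agent.R463.PP (Pat GB sq gp Ev nx)

variable {c e q p1 Dc T1 : ℕ} {Q : ℕ → ℕ → ℕ → Prop} {U : ℕ → ℕ → Prop} {E : Finset ℕ}

/-- the density times the length is large -/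
lemma large_VY (Q0 : ℕ → ℕ → Prop) (c : ℕ) (hQ : PerB Q0 c) (hadm : ∀ p : ℕ, p.Prime → nuB Q0 p < p) (M : ℝ)
    (hM : 0 < M) : ∃ y1 : ℕ, ∀ y : ℕ, y1 ≤ y → ∀ Y : ℕ, y ^ 1 ≤ Y → M ≤ Vq Q0 y * Y := by
  obtain ⟨v, hv, hVlow⟩ := V_lower_unif c
  have hlog : Tendsto (fun y : ℕ => Real.log (y : ℝ)) atTop atTop :=
    Real.tendsto_log_atTop.comp tendsto_natCast_atTop_atTop
  have hev := ((logpow_le c (1 / (1 / M * v)) (by positivity)).and (hlog.eventually_gt_atTop 0)).and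
    (eventually_ge_atTop 2)
  obtain ⟨y1, hy1⟩ := eventually_atTop.1 hev
  refine ⟨y1, ?_⟩
  intro y hy Y hY
  obtain ⟨⟨g1, g2⟩, g3⟩ := hy1 y hy
  have hlow := hVlow Q0 hQ hadm y g3
  have hV0 : 0 < Vq Q0 y := Vq_pos Q0 hadm y
  obtain ⟨V, hV⟩ : ∃ V, V = Vq Q0 y := ⟨_, rfl⟩
  obtain ⟨L, hL⟩ : ∃ L : ℝ, L = Real.log y := ⟨_, rfl⟩
  rw [← hV, ← hL] at hlow
  rw [← hL] at g1 g2
  rw [← hV] at hV0 ⊢
  have hLc : 0 < L ^ c := pow_pos g2 c
  have hvL : v ≤ V * L ^ c := by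
    rw [div_le_iff₀ hLc] at hlow
    exact hlow
  have hy0 : (0 : ℝ) < y := by exact_mod_cast (by omega : 0 < y)
  have hyY : (y : ℝ) ≤ Y := by
    rw [pow_one] at hY
    exact_mod_cast hY
  rw [div_mul_eq_mul_div, one_mul, div_le_iff₀ (by positivity)] at g1
  have h6 : L ^ c * 1 ≤ L ^ c * (1 / M * y * V) := by
    calc L ^ c * 1 ≤ y * (1 / M * v) := by linarith
      _ ≤ y * (1 / M * (V * L ^ c)) := by gcongr
      _ = _ := by ring
  have h7 := le_of_mul_le_mul_left h6 hLc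
  have h8 : M ≤ V * y := by
    have : 1 / M * y * V = V * y / M := by ring
    rw [this, le_div_iff₀ hM, one_mul] at h7
    exact h7
  exact h8.trans (mul_le_mul_of_nonneg_left hyY hV0.le)

open Classical in
/-- **The law after the removal of rare elements.** -/
theorem law_pert (l : ℕ) (hc : 1 ≤ c) (hq : 1 ≤ q) (hS : AbsV c e q p1 Dc T1 Q U E) (B : Finset ℕ)
    (hB : B ⊆ range q) (hB1 : 1 ≤ B.card) (ε : ℝ) (hε : 0 < ε) :
    ∃ ε1 : ℝ, 0 < ε1 ∧ ∃ K y1 : ℕ, ∀ y : ℕ, y1 ≤ y → ∀ Z Y : ℕ, y ^ K ≤ Y →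
      ∀ G' : ℕ → Prop, (∀ m, G' m → GB (GT Q q y) q B m) →
      (∀ F : Finset ℕ, F ⊆ Ioc Z (Z + Y) → (∀ m ∈ F, GB (GT Q q y) q B m ∧ ¬ G' m) →
        (F.card : ℝ) ≤ ε1 * (Vq (Q 0) y * Y)) →
      ∀ (S : ℕ → Finset ℕ) (s T : ℕ → ℕ), (∀ j ≤ l, S j ⊆ B) →
      (∀ j < l, s j ≤ T j) → ∀ R d : ℝ, R = B.card → d = R / q * Vq (Q 0) y →
      |(cS G' q l S s T Z Y : ℝ) -
        d * Y * (∏ j ∈ range (l + 1), ((S j).card : ℝ) / R) *
          ∏ j ∈ range l, (Real.exp (-(d * s j)) - Real.exp (-(d * T j)))| ≤ ε * (d * Y) := by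
  have hR1 : (1 : ℝ) ≤ B.card := by exact_mod_cast hB1
  have hq0 : (0 : ℝ) < q := by exact_mod_cast hq
  obtain ⟨K, y1, h⟩ := law_absVS l hc hq hS B hB hB1 (ε / 2) (by positivity)
  obtain ⟨ρ, hρ⟩ : ∃ ρ : ℝ, ρ = (B.card : ℝ) / q := ⟨_, rfl⟩
  have hρ0 : 0 < ρ := by rw [hρ]; positivity
  obtain ⟨y2, h2⟩ := large_VY (Q 0) c (hS.ts.per 0) hS.adm (((l + 1) * l + 1) / (ε / 4 * ρ)) (by positivity)
  refine ⟨ε / (4 * (l + 1)) * ρ, by positivity, K + 1, max (max y1 y2) 1, ?_⟩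
  intro y hy Z Y hY G' hG' hW S s T hSB hsT R d hR hd
  have hy1 : y1 ≤ y := (le_max_left _ _).trans ((le_max_left _ _).trans hy)
  have hy2 : y2 ≤ y := (le_max_right _ _).trans ((le_max_left _ _).trans hy)
  have hy3 : 1 ≤ y := (le_max_right _ _).trans hy
  have hYK : y ^ K ≤ Y := (Nat.pow_le_pow_right hy3 (by omega)).trans hY
  have hY1 : y ^ 1 ≤ Y := (Nat.pow_le_pow_right hy3 (by omega)).trans hY
  have hmain := h y hy1 Z Y hYK S s T hSB hsT R d hR hd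
  have hp := pert (GB (GT Q q y) q B) G' hG' l (fun j m => m % q ∈ S j) s T Z Y
  have e1 : cF G' l (fun j m => m % q ∈ S j) s T Z Y = cS G' q l S s T Z Y := rfl
  have e2 : cF (GB (GT Q q y) q B) l (fun j m => m % q ∈ S j) s T Z Y =
      cS (GB (GT Q q y) q B) q l S s T Z Y := rfl
  rw [e1, e2] at hp
  have hbig := h2 y hy2 Y hY1
  obtain ⟨V, hV⟩ : ∃ V, V = Vq (Q 0) y := ⟨_, rfl⟩
  rw [← hV] at hbig hd hW
  have hdρ : d = ρ * V := by rw [hd, hR, hρ]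
  have hW' := hW ((Ioc Z (Z + Y)).filter (fun m => GB (GT Q q y) q B m ∧ ¬ G' m)) (filter_subset _ _) (by
    intro m hm
    rw [mem_filter] at hm
    exact hm.2)
  have hl0 : (0 : ℝ) < (l : ℝ) + 1 := by positivity
  have h3 : ((l : ℝ) + 1) * (((Ioc Z (Z + Y)).filter (fun m => GB (GT Q q y) q B m ∧ ¬ G' m)).card : ℝ) ≤
      ε / 4 * (d * Y) := by
    calc ((l : ℝ) + 1) * _ ≤ (l + 1) * (ε / (4 * (l + 1)) * ρ * (V * Y)) :=
          mul_le_mul_of_nonneg_left hW' hl0.le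
      _ = ε / 4 * (ρ * V * Y) := by field_simp
      _ = ε / 4 * (d * Y) := by rw [hdρ]
  have h4 : ((l : ℝ) + 1) * l ≤ ε / 4 * (d * Y) := by
    rw [div_le_iff₀ (by positivity)] at hbig
    have : ε / 4 * (d * Y) = V * Y * (ε / 4 * ρ) := by rw [hdρ]; ring
    rw [this]
    linarith
  have h5 : |(cS G' q l S s T Z Y : ℝ) - cS (GB (GT Q q y) q B) q l S s T Z Y| ≤ ε / 2 * (d * Y) := by
    refine hp.trans ?_
    rw [mul_add]
    have : ε / 2 * (d * Y) = ε / 4 * (d * Y) + ε / 4 * (d * Y) := by ring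
    rw [this]
    refine add_le_add ?_ h4
    convert h3
  obtain ⟨g, hg⟩ : ∃ g, g = d * Y * (∏ j ∈ range (l + 1), ((S j).card : ℝ) / R) *
          ∏ j ∈ range l, (Real.exp (-(d * s j)) - Real.exp (-(d * T j))) := ⟨_, rfl⟩
  rw [← hg] at hmain ⊢
  calc |(cS G' q l S s T Z Y : ℝ) - g| = |((cS G' q l S s T Z Y : ℝ) - cS (GB (GT Q q y) q B) q l S s T Z Y) +
        ((cS (GB (GT Q q y) q B) q l S s T Z Y : ℝ) - g)| := by ring_nf
    _ ≤ ε / 2 * (d * Y) + ε / 2 * (d * Y) := (abs_add_le _ _).trans (add_le_add h5 hmain)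
    _ = ε * (d * Y) := by ring

/-- a bound for the density from another system with fewer classes modulo large primes -/
lemma van_of (Q0 Q1 : ℕ → ℕ → Prop) (p2 : ℕ) (hadm : ∀ p : ℕ, p.Prime → nuB Q1 p < p)
    (h : ∀ p : ℕ, p.Prime → p2 < p → nuB Q1 p ≤ nuB Q0 p)
    (hV : ∃ Cv : ℝ, 0 < Cv ∧ ∀ y : ℕ, 3 ≤ y → Vq Q1 y ≤ Cv / Real.log y) :
    ∃ Cv : ℝ, 0 < Cv ∧ ∀ y : ℕ, 3 ≤ y → Vq Q0 y ≤ Cv / Real.log y := by
  obtain ⟨Cv, hCv, hb⟩ := hV
  have hV2 : 0 < Vq Q1 p2 := Vq_pos Q1 hadm p2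
  refine ⟨Cv / Vq Q1 p2 + Real.log p2 + 1, by positivity, ?_⟩
  intro y hy
  have hlog : 0 < Real.log y := Real.log_pos (by exact_mod_cast (by omega : 1 < y))
  rw [le_div_iff₀ hlog]
  have hlp2 : 0 ≤ Real.log p2 := Real.log_natCast_nonneg p2
  rcases Nat.lt_or_ge y p2 with h1 | h1
  · have h2 : Vq Q0 y ≤ 1 := Vq_le_one Q0 y
    have h3 : 0 ≤ Vq Q0 y := Vq_nonneg Q0 y
    have h4 : Real.log y ≤ Real.log p2 :=
      Real.log_le_log (by exact_mod_cast (by omega : 0 < y)) (by exact_mod_cast h1.le)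
    have h5 : 0 ≤ Cv / Vq Q1 p2 := by positivity
    nlinarith
  · have hsplit : Vq Q1 y = Vq Q1 p2 * ∏ p ∈ (pz y).filter (fun p => p2 < p), (1 - (nuB Q1 p : ℝ) / p) := by
      unfold Vq
      rw [← Finset.prod_filter_mul_prod_filter_not (pz y) (fun p => p ≤ p2)]
      congr 1
      · apply Finset.prod_congr _ (fun _ _ => rfl)
        ext p
        rw [mem_filter, mem_pz, mem_pz]
        constructor
        · rintro ⟨⟨h1, h2⟩, h3⟩
          exact ⟨h3, h2⟩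
        · rintro ⟨h2, h3⟩
          exact ⟨⟨h2.trans h1, h3⟩, h2⟩
      · apply Finset.prod_congr _ (fun _ _ => rfl)
        ext p
        rw [mem_filter, mem_filter, not_le]
    have h2 : Vq Q0 y ≤ ∏ p ∈ (pz y).filter (fun p => p2 < p), (1 - (nuB Q1 p : ℝ) / p) := by
      unfold Vq
      rw [Finset.prod_filter]
      apply Finset.prod_le_prod
      · intro p hp
        exact one_sub_nonneg _ p (mem_pz.1 hp).2
      · intro p hp
        have hpp := (mem_pz.1 hp).2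
        have hp0 : (0 : ℝ) < p := by exact_mod_cast hpp.pos
        split_ifs with h3
        · apply sub_le_sub_left
          exact div_le_div_of_nonneg_right (by exact_mod_cast h p hpp h3) hp0.le
        · have : 0 ≤ (nuB Q0 p : ℝ) / p := by positivity
          linarith
    have h3 := hb y hy
    rw [hsplit, le_div_iff₀ hlog] at h3
    obtain ⟨P, hP⟩ : ∃ P, P = ∏ p ∈ (pz y).filter (fun p => p2 < p), (1 - (nuB Q1 p : ℝ) / p) := ⟨_, rfl⟩
    rw [← hP] at h2 h3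
    have h4 : P * Real.log y ≤ Cv / Vq Q1 p2 := by
      rw [le_div_iff₀ hV2]
      linarith
    calc Vq Q0 y * Real.log y ≤ P * Real.log y := mul_le_mul_of_nonneg_right h2 hlog.le
      _ ≤ Cv / Vq Q1 p2 := h4
      _ ≤ _ := by linarith

/-- few large primes divide a number -/
lemma few_primes (T k : ℕ) (N : ℕ) (hN : 0 < N) (hNT : N < (T + 1) ^ (k + 1)) (F : Finset ℕ)
    (hF : ∀ p ∈ F, p.Prime ∧ T < p ∧ p ∣ N) : F.card ≤ k := by
  by_contra hcon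
  rw [not_le] at hcon
  have h1 : ∏ p ∈ F, p ∣ N := by
    apply Finset.prod_primes_dvd
    · intro p hp
      exact (hF p hp).1.prime
    · intro p hp
      exact (hF p hp).2.2
  have h2 : (T + 1) ^ F.card ≤ ∏ p ∈ F, p := Finset.pow_card_le_prod _ _ _ (fun p hp => (hF p hp).2.1)
  have h3 := Nat.le_of_dvd hN h1
  have h4 : (T + 1) ^ (k + 1) ≤ (T + 1) ^ F.card := Nat.pow_le_pow_right (by omega) hcon
  omega

end Pool.Agent.U98.TZ
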