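import Pool.Agent.U98.TZ.B4
import Pool.Agent.U98.TZ.C2

set_option autoImplicit false

/-!
# Several systems of linear forms at the same integer

The kinds `κ < r` are sets of linear forms. The integer `x = r n + κ` encodes the kind `κ` at `n`.
-/

namespace Pool.Agent.U98.TZ

open Finset Filter Pool.Agent.H373R2.T7 Pool.Agent.W123.RP Pool.Agent.W123.RU Pool.Agent.TH464.PO Pool.Agent.U98.TY
open Pool.Agent.R463.PP (Pat GB sq gp Ev nx)

/-- one of the forms of `S` is divisible by `p` -/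
def QS (S : Finset (ℕ × ℤ)) (p n : ℕ) : Prop := ∃ L ∈ S, (p : ℤ) ∣ (L.1 : ℤ) * n + L.2

/-- finitely many kinds with the same local densities -/
structure Kinds (A q r : ℕ) (K : ℕ → Finset (ℕ × ℤ)) (ω : ℕ → ℕ) : Prop where
  hA : 1 ≤ A
  hr : 1 ≤ r
  rq : ∀ p : ℕ, p.Prime → p ∣ r → p ∣ q
  bd : ∀ κ < r, ∀ L ∈ K κ, 1 ≤ L.1 ∧ L.1 ≤ A ∧ 0 ≤ L.2 ∧ L.2 ≤ A
  base : ∀ κ < r, (1, 0) ∈ K κ
  om : ∀ κ < r, ∀ p : ℕ, p.Prime → ¬ p ∣ q → nuB (QS (K κ)) p = ω p
  adm : ∀ p : ℕ, p.Prime → ¬ p ∣ q → ω p < p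
  dist : ∀ κ < r, ∀ κ' < r, κ ≠ κ' → (∃ L ∈ K κ, ∀ L' ∈ K κ', (L.1 : ℤ) * L'.2 - L'.1 * L.2 ≠ 0) ∨
    (∃ L' ∈ K κ', ∀ L ∈ K κ, (L.1 : ℤ) * L'.2 - L'.1 * L.2 ≠ 0)

/-- the encoded forms -/
def KF (r : ℕ) (K : ℕ → Finset (ℕ × ℤ)) (τ : ℕ) : Finset (ℕ × ℤ) :=
  (K (τ % r)).image (fun L => (L.1, L.2 * r - L.1 * (τ % r : ℕ)))

variable {A q r : ℕ} {K : ℕ → Finset (ℕ × ℤ)} {ω : ℕ → ℕ}

lemma mem_KF {τ : ℕ} {L' : ℕ × ℤ} :
    L' ∈ KF r K τ ↔ ∃ L ∈ K (τ % r), L' = (L.1, L.2 * r - L.1 * (τ % r : ℕ)) := by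
  unfold KF
  rw [mem_image]
  constructor
  · rintro ⟨L, hL, rfl⟩
    exact ⟨L, hL, rfl⟩
  · rintro ⟨L, hL, rfl⟩
    exact ⟨L, hL, rfl⟩

/-- divisibility of the encoded forms -/
lemma enc_dvd (p n κ : ℕ) (hp : p.Prime) (hpr : ¬ p ∣ r) (a : ℕ) (b : ℤ) :
    (p : ℤ) ∣ (a : ℤ) * (r * n + κ : ℕ) + (b * r - a * κ) ↔ (p : ℤ) ∣ (a : ℤ) * n + b := by
  have e : (a : ℤ) * (r * n + κ : ℕ) + (b * r - a * κ) = r * ((a : ℤ) * n + b) := by
    push_cast
    ring
  rw [e]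
  constructor
  · intro h
    rcases (Nat.prime_iff_prime_int.1 hp).dvd_or_dvd h with h1 | h1
    · exact absurd (Int.natCast_dvd_natCast.1 h1) hpr
    · exact h1
  · intro h
    exact dvd_mul_of_dvd_right h _

lemma prime_rq (hK : Kinds A q r K ω) (p : ℕ) (hp : p.Prime) : p ∣ r * q ↔ p ∣ q := by
  constructor
  · intro h
    rcases hp.dvd_mul.1 h with h1 | h1
    · exact hK.rq p hp h1
    · exact h1
  · intro h
    exact dvd_mul_of_dvd_right h _

lemma nuB_enc (hK : Kinds A q r K ω) (i p : ℕ) (hp : p.Prime) (hpq : ¬ p ∣ r * q) :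
    nuB (QL (r * q) (KF r K) i) p = ω p := by
  classical
  have hr := hK.hr
  have hpr : ¬ p ∣ r := fun h => hpq (dvd_mul_of_dvd_left h _)
  have hpq' : ¬ p ∣ q := fun h => hpq (dvd_mul_of_dvd_right h _)
  obtain ⟨κ, hκ⟩ : ∃ κ, κ = i % r := ⟨_, rfl⟩
  have hκr : κ < r := by rw [hκ]; exact Nat.mod_lt _ hr
  have key : ∀ n, QL (r * q) (KF r K) i p (r * n + κ) ↔ QS (K κ) p n := by
    intro n
    unfold QL QS
    constructor
    · rintro ⟨_, L', hL', hd⟩
      obtain ⟨L, hL, rfl⟩ := mem_KF.1 hL'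
      rw [← hκ] at hL hd
      exact ⟨L, hL, (enc_dvd p n κ hp hpr L.1 L.2).1 hd⟩
    · rintro ⟨L, hL, hd⟩
      refine ⟨hpq, (L.1, L.2 * r - L.1 * (i % r : ℕ)), mem_KF.2 ⟨L, by rw [← hκ]; exact hL, rfl⟩, ?_⟩
      rw [← hκ]
      exact (enc_dvd p n κ hp hpr L.1 L.2).2 hd
  have hper : ∀ m, QL (r * q) (KF r K) i p m ↔ QL (r * q) (KF r K) i p (m % p) := by
    intro m
    unfold QL
    apply and_congr_right
    intro _
    apply exists_congr
    intro L
    rw [lin_mod]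
  rw [← hK.om κ hκr p hp hpq']
  unfold nuB
  symm
  apply Finset.card_nbij (fun n => (r * n + κ) % p)
  · intro n hn
    rw [Finset.mem_coe, mem_filter, mem_range] at hn
    rw [Finset.mem_coe, mem_filter, mem_range]
    refine ⟨Nat.mod_lt _ hp.pos, ?_⟩
    rw [← hper, key]
    exact hn.2
  · intro n hn n' hn' h
    rw [Finset.mem_coe, mem_filter, mem_range] at hn hn'
    simp only at h
    have h1 : r * n + κ ≡ r * n' + κ [MOD p] := h
    have h2 : r * n ≡ r * n' [MOD p] := Nat.ModEq.add_right_cancel' κ h1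
    have h3 : n ≡ n' [MOD p] := Nat.ModEq.cancel_left_of_coprime
      ((Nat.Prime.coprime_iff_not_dvd hp).2 hpr) h2
    exact Nat.ModEq.eq_of_lt_of_lt h3 hn.1 hn'.1
  · intro x hx
    rw [Finset.mem_coe, mem_filter, mem_range] at hx
    obtain ⟨n, hn, hd⟩ := lin_ex p r (κ - x : ℤ) hp hpr
    have h1 : (r * n + κ) % p = x := by
      have h2 : (p : ℤ) ∣ ((r * n + κ : ℕ) : ℤ) - x := by
        have e : ((r * n + κ : ℕ) : ℤ) - x = (r : ℤ) * n + (κ - x) := by push_cast; ring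
        rw [e]
        exact hd
      have h3 : x ≡ r * n + κ [MOD p] := (Nat.modEq_iff_dvd).2 h2
      have h4 : x % p = (r * n + κ) % p := h3
      rw [← h4, Nat.mod_eq_of_lt hx.1]
    refine ⟨n, ?_, h1⟩
    rw [Finset.mem_coe, mem_filter, mem_range]
    refine ⟨hn, ?_⟩
    rw [← key, hper, h1]
    exact hx.2

/-- **The encoded system satisfies the conditions.** -/
lemma linF_kinds (hK : Kinds A q r K ω) : LinF (2 * A * r) (r * q) (KF r K) where
  hA := by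
    have := hK.hA
    have := hK.hr
    have : 1 * 1 ≤ (2 * A) * r := Nat.mul_le_mul (by omega) (by omega)
    omega
  bd := by
    intro i L' hL'
    obtain ⟨L, hL, rfl⟩ := mem_KF.1 hL'
    have hr := hK.hr
    have hκr : i % r < r := Nat.mod_lt _ hr
    obtain ⟨b1, b2, b3, b4⟩ := hK.bd _ hκr L hL
    have h1 : A * 1 ≤ A * r := Nat.mul_le_mul_left _ hr
    have h2 : 2 * A * r = A * r + A * r := by ring
    refine ⟨b1, by omega, ?_⟩
    have c1 : L.2 * r ≤ A * r := mul_le_mul_of_nonneg_right b4 (by positivity)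
    have c2 : 0 ≤ L.2 * r := mul_nonneg b3 (by positivity)
    have c3 : (L.1 : ℤ) * (i % r : ℕ) ≤ A * r := by
      have e1 : (L.1 : ℤ) ≤ A := by exact_mod_cast b2
      have e2 : ((i % r : ℕ) : ℤ) ≤ r := by exact_mod_cast hκr.le
      exact mul_le_mul e1 e2 (by positivity) (by positivity)
    have c4 : 0 ≤ (L.1 : ℤ) * (i % r : ℕ) := by positivity
    show |L.2 * r - L.1 * (i % r : ℕ)| ≤ ((2 * A * r : ℕ) : ℤ)
    rw [abs_le]
    have e3 : ((2 * A * r : ℕ) : ℤ) = A * r + A * r := by push_cast; ring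
    rw [e3]
    constructor <;> linarith
  ne := by
    intro i
    refine ⟨_, mem_KF.2 ⟨(1, 0), hK.base _ (Nat.mod_lt _ hK.hr), rfl⟩⟩
  same := by
    intro i p hp hpq
    rw [nuB_enc hK i p hp hpq, nuB_enc hK 0 p hp hpq]
  adm := by
    intro p hp hpq
    rw [nuB_enc hK 0 p hp hpq]
    exact hK.adm p hp (fun h => hpq (dvd_mul_of_dvd_right h _))
  tr := by
    intro i j t ht
    have hr := hK.hr
    have hκ : i % r < r := Nat.mod_lt _ hr
    have hκ' : j % r < r := Nat.mod_lt _ hr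
    obtain ⟨κ, hκd⟩ : ∃ κ, κ = i % r := ⟨_, rfl⟩
    obtain ⟨κ', hκd'⟩ : ∃ κ', κ' = j % r := ⟨_, rfl⟩
    rw [← hκd] at hκ
    rw [← hκd'] at hκ'
    have hr0 : (1 : ℤ) ≤ r := by exact_mod_cast hr
    have key : ∀ L L' : ℕ × ℤ, (L.1 : ℤ) * (L'.1 * t + (L'.2 * r - L'.1 * κ')) - L'.1 * (L.2 * r - L.1 * κ) =
        L.1 * L'.1 * (t + κ - κ') + r * (L.1 * L'.2 - L'.1 * L.2) := by
      intro L L'
      ring
    rcases lt_trichotomy ((t : ℤ) + κ - κ') 0 with h | h | h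
    · right
      refine ⟨(1, 0 * r - (1 : ℕ) * (j % r : ℕ)), mem_KF.2 ⟨(1, 0), hK.base _ (by rw [← hκd']; exact hκ'), rfl⟩, ?_⟩
      intro L1 hL1
      obtain ⟨L, hL, rfl⟩ := mem_KF.1 hL1
      rw [← hκd] at hL
      obtain ⟨b1, b2, b3, b4⟩ := hK.bd κ hκ L hL
      have e1 : (1 : ℤ) ≤ L.1 := by exact_mod_cast b1
      have e := key L (1, 0)
      simp only at e ⊢
      rw [← hκd, ← hκd']
      rw [e]
      have e2 : (L.1 : ℤ) * ((t : ℤ) + κ - κ') < 0 := by nlinarith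
      have e3 : 0 ≤ (r : ℤ) * L.2 := mul_nonneg (by linarith) b3
      intro hcon
      push_cast at hcon
      linarith
    · have hne : κ ≠ κ' := by
        rintro rfl
        have : (t : ℤ) = 0 := by linarith
        omega
      rcases hK.dist κ hκ κ' hκ' hne with ⟨L, hL, hd⟩ | ⟨L', hL', hd⟩
      · left
        refine ⟨_, mem_KF.2 ⟨L, by rw [← hκd]; exact hL, rfl⟩, ?_⟩
        intro L1 hL1
        obtain ⟨L', hL', rfl⟩ := mem_KF.1 hL1
        rw [← hκd'] at hL'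
        have e := key L L'
        simp only
        rw [← hκd, ← hκd', e, h, mul_zero, zero_add]
        exact mul_ne_zero (by linarith) (hd L' hL')
      · right
        refine ⟨_, mem_KF.2 ⟨L', by rw [← hκd']; exact hL', rfl⟩, ?_⟩
        intro L1 hL1
        obtain ⟨L, hL, rfl⟩ := mem_KF.1 hL1
        rw [← hκd] at hL
        have e := key L L'
        simp only
        rw [← hκd, ← hκd', e, h, mul_zero, zero_add]
        exact mul_ne_zero (by linarith) (hd L hL)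
    · left
      refine ⟨(1, 0 * r - (1 : ℕ) * (i % r : ℕ)), mem_KF.2 ⟨(1, 0), hK.base _ (by rw [← hκd]; exact hκ), rfl⟩, ?_⟩
      intro L1 hL1
      obtain ⟨L', hL', rfl⟩ := mem_KF.1 hL1
      rw [← hκd'] at hL'
      obtain ⟨b1, b2, b3, b4⟩ := hK.bd κ' hκ' L' hL'
      have e1 : (1 : ℤ) ≤ L'.1 := by exact_mod_cast b1
      have e := key (1, 0) L'
      simp only at e ⊢
      rw [← hκd, ← hκd']
      rw [e]
      have e2 : 0 < (L'.1 : ℤ) * ((t : ℤ) + κ - κ') := by nlinarith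
      have e3 : 0 ≤ (r : ℤ) * L'.2 := mul_nonneg (by linarith) b3
      intro hcon
      push_cast at hcon
      linarith

/-- a system with a bound for the local densities satisfies the bound for the density -/
lemma AbsS.toV {c e q p1 Dc T1 : ℕ} {Q : ℕ → ℕ → ℕ → Prop} {U : ℕ → ℕ → Prop} {E : Finset ℕ}
    (h : AbsS c e q p1 Dc T1 Q U E) : AbsV c e q p1 Dc T1 Q U E where
  ts := h.ts
  adm := h.adm
  cop := h.cop
  hE := h.hE
  van := by
    obtain ⟨Cv, hCv, hb⟩ := Vq_upper (Q 0) 1 p1 (fun p hp hpq => h.one p hp hpq)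
    refine ⟨Cv, hCv, ?_⟩
    intro y hy
    have := hb y (by omega)
    rw [pow_one] at this
    exact this
  pair := h.pair
  coll := h.coll

/-- the kind `κ` at `n` -/
def Hs (K : ℕ → Finset (ℕ × ℤ)) (y κ n : ℕ) : Prop :=
  ∀ L ∈ K κ, ∀ p : ℕ, p.Prime → p ≤ y → ¬ (p : ℤ) ∣ (L.1 : ℤ) * n + L.2

open Classical in
/-- the possible residues of the kind `κ` in the set `C` -/
noncomputable def Rk (K : ℕ → Finset (ℕ × ℤ)) (q κ : ℕ) (C : Finset ℕ) : Finset ℕ :=
  (range q).filter (fun c : ℕ => c ∈ C ∧ ∀ p : ℕ, p.Prime → p ∣ q → ∀ L ∈ K κ, ¬ (p : ℤ) ∣ (L.1 : ℤ) * c + L.2)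

open Classical in
/-- the encoded residues -/
noncomputable def Bk (K : ℕ → Finset (ℕ × ℤ)) (q r : ℕ) : Finset ℕ :=
  (range (r * q)).filter (fun τ : ℕ => τ / r ∈ Rk K q (τ % r) (range q))

lemma Bk_sub (K : ℕ → Finset (ℕ × ℤ)) (q r : ℕ) : Bk K q r ⊆ range (r * q) := by
  classical
  unfold Bk
  exact filter_subset _ _

lemma gb_kinds (hq : 1 ≤ q) (hK : Kinds A q r K ω) (y : ℕ) (hqy : q ≤ y) (x : ℕ) :
    GB (GT (QL (r * q) (KF r K)) (r * q) y) (r * q) (Bk K q r) x ↔ Hs K y (x % r) (x / r) := by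
  classical
  have hr := hK.hr
  have hrq : 0 < r * q := Nat.mul_pos hr hq
  have hx : x = r * (x / r) + x % r := (Nat.div_add_mod x r).symm
  have hm1 : x % (r * q) % r = x % r := Nat.mod_mod_of_dvd x (dvd_mul_right r q)
  have hm2 : x % (r * q) / r = (x / r) % q := Nat.mod_mul_right_div_self x r q
  have hkf : KF r K (x % (r * q)) = KF r K x := by
    unfold KF
    rw [hm1]
  unfold GB Bk GT Sf
  rw [mem_filter, mem_range, hm2, hm1]
  unfold Rk
  rw [mem_filter, mem_range]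
  unfold QL Hs
  rw [hkf]
  constructor
  · rintro ⟨⟨-, -, -, h1⟩, h2⟩ L hL p hp hpy
    by_cases hpq : p ∣ q
    · rw [← lin_mod' p q (x / r) L.1 L.2 hpq]
      exact h1 p hp hpq L hL
    · intro hd
      have hnrq : ¬ p ∣ r * q := by rw [prime_rq hK p hp]; exact hpq
      refine h2 p (mem_pz.2 ⟨hpy, hp⟩) ⟨hnrq, _, mem_KF.2 ⟨L, hL, rfl⟩, ?_⟩
      have hpr : ¬ p ∣ r := fun h => hnrq (dvd_mul_of_dvd_left h _)
      have h3 := (enc_dvd (r := r) p (x / r) (x % r) hp hpr L.1 L.2).2 hd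
      rw [← hx] at h3
      exact h3
  · intro h1
    have hmq : x / r % q < q := Nat.mod_lt _ hq
    refine ⟨⟨Nat.mod_lt _ hrq, hmq, hmq, ?_⟩, ?_⟩
    · intro p hp hpq L hL
      rw [lin_mod' p q (x / r) L.1 L.2 hpq]
      exact h1 L hL p hp ((Nat.le_of_dvd hq hpq).trans hqy)
    · rintro p hp ⟨hnrq, L', hL', hd⟩
      obtain ⟨L, hL, rfl⟩ := mem_KF.1 hL'
      have hpp := (mem_pz.1 hp).2
      have hpr : ¬ p ∣ r := fun h => hnrq (dvd_mul_of_dvd_left h _)
      simp only at hd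
      have h3 : (p : ℤ) ∣ (L.1 : ℤ) * (r * (x / r) + x % r : ℕ) + (L.2 * r - L.1 * (x % r : ℕ)) := by
        rw [← hx]
        exact hd
      exact h1 L hL p hpp (mem_pz.1 hp).1 ((enc_dvd (r := r) p (x / r) (x % r) hpp hpr L.1 L.2).1 h3)

lemma Vq_kinds (hK : Kinds A q r K ω) (y : ℕ) : Vq (QL (r * q) (KF r K) 0) y =
    ∏ p ∈ (Icc 1 y).filter (fun p => p.Prime ∧ ¬ p ∣ q), (1 - (ω p : ℝ) / p) := by
  rw [Vq_lin]
  have h1 : (Icc 1 y).filter (fun p => p.Prime ∧ ¬ p ∣ r * q) = (Icc 1 y).filter (fun p => p.Prime ∧ ¬ p ∣ q) := by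
    ext p
    rw [mem_filter, mem_filter]
    constructor
    · rintro ⟨a, b, c⟩
      rw [prime_rq hK p b] at c
      exact ⟨a, b, c⟩
    · rintro ⟨a, b, c⟩
      rw [← prime_rq hK p b] at c
      exact ⟨a, b, c⟩
  rw [h1]
  apply prod_congr rfl
  intro p hp
  rw [mem_filter] at hp
  rw [nuB_enc hK 0 p hp.2.1 (by rw [prime_rq hK p hp.2.1]; exact hp.2.2)]

/-- the number of the encoded residues of the kind `κ` in `C` -/
lemma card_enc (hr : 1 ≤ r) (κ : ℕ) (hκ : κ < r) (C : Finset ℕ) :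
    ((Bk K q r).filter (fun τ => τ % r = κ ∧ τ / r ∈ C)).card = (Rk K q κ C).card := by
  classical
  symm
  apply Finset.card_nbij (fun c => r * c + κ)
  · intro c hc
    unfold Rk at hc
    rw [Finset.mem_coe, mem_filter, mem_range] at hc
    unfold Bk Rk
    rw [Finset.mem_coe, mem_filter, mem_filter, mem_filter, mem_range]
    have h1 : (r * c + κ) % r = κ := by rw [Nat.mul_add_mod, Nat.mod_eq_of_lt hκ]
    have h2 : (r * c + κ) / r = c := by
      rw [Nat.mul_add_div (by omega), Nat.div_eq_of_lt hκ, add_zero]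
    simp only
    rw [h1, h2]
    have h3 : r * c + κ < r * q := by
      calc r * c + κ < r * c + r := by omega
        _ = r * (c + 1) := by ring
        _ ≤ r * q := Nat.mul_le_mul_left _ (by omega)
    exact ⟨⟨h3, mem_range.2 hc.1, mem_range.2 hc.1, hc.2.2⟩, rfl, hc.2.1⟩
  · intro c _ c' _ h
    simp only at h
    have h1 : r * c = r * c' := by omega
    exact Nat.eq_of_mul_eq_mul_left (by omega) h1
  · intro τ hτ
    unfold Bk Rk at hτ
    rw [Finset.mem_coe, mem_filter, mem_filter, mem_filter] at hτ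
    obtain ⟨⟨a1, a2, a3, a4⟩, a5, a6⟩ := hτ
    refine ⟨τ / r, ?_, ?_⟩
    · unfold Rk
      rw [Finset.mem_coe, mem_filter]
      rw [a5] at a4
      exact ⟨a2, a6, a4⟩
    · simp only
      rw [← a5]
      exact Nat.div_add_mod τ r

/-- the total number of the encoded residues -/
lemma card_Bk (hr : 1 ≤ r) : (Bk K q r).card = ∑ κ ∈ range r, (Rk K q κ (range q)).card := by
  classical
  rw [Finset.card_eq_sum_card_fiberwise (f := fun τ => τ % r) (t := range r) (fun τ _ => by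
    rw [Finset.mem_coe, mem_range]
    exact Nat.mod_lt _ hr)]
  apply Finset.sum_congr rfl
  intro κ hκ
  rw [mem_range] at hκ
  rw [← card_enc (K := K) (q := q) hr κ hκ (range q)]
  congr 1
  apply filter_congr
  intro τ hτ
  unfold Bk at hτ
  rw [mem_filter, mem_range] at hτ
  have h1 : τ / r ∈ range q := by
    have := hτ.2
    unfold Rk at this
    rw [mem_filter] at this
    exact this.1
  simp only [h1, and_true]

end Pool.Agent.U98.TZ
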