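import Pool.Agent.U98.TZ.B5

set_option autoImplicit false

/-!
# The joint law of kinds, residues and distances
-/

namespace Pool.Agent.U98.TZ

open Finset Filter Pool.Agent.H373R2.T7 Pool.Agent.W123.RP Pool.Agent.W123.RU Pool.Agent.TH464.PO Pool.Agent.U98.TY
open Pool.Agent.R463.PP (GB)

/-! ### numerical lemmas -/

lemma exp_close (x y : ℝ) (hx : 0 ≤ x) (hy : 0 ≤ y) : |Real.exp (-x) - Real.exp (-y)| ≤ |x - y| := by
  have key : ∀ a b : ℝ, 0 ≤ a → a ≤ b → Real.exp (-a) - Real.exp (-b) ≤ b - a := by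
    intro a b ha hab
    have h1 : Real.exp (-b) = Real.exp (-a) * Real.exp (-(b - a)) := by
      rw [← Real.exp_add]
      congr 1
      ring
    have h2 : 1 - (b - a) ≤ Real.exp (-(b - a)) := by
      have := Real.add_one_le_exp (-(b - a))
      linarith
    have h3 : Real.exp (-a) ≤ 1 := Real.exp_le_one_iff.2 (by linarith)
    have h4 := Real.exp_pos (-a)
    rw [h1]
    nlinarith
  rcases le_total x y with h | h
  · have h1 := key x y hx h
    have h2 : Real.exp (-y) ≤ Real.exp (-x) := Real.exp_le_exp.2 (by linarith)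
    rw [abs_of_nonneg (by linarith), abs_of_nonpos (by linarith)]
    linarith
  · have h1 := key y x hy h
    have h2 : Real.exp (-x) ≤ Real.exp (-y) := Real.exp_le_exp.2 (by linarith)
    rw [abs_of_nonpos (by linarith), abs_of_nonneg (by linarith)]
    linarith

lemma prod_close (l : ℕ) (a b : ℕ → ℝ) (δ : ℝ) (ha : ∀ j < l, 0 ≤ a j ∧ a j ≤ 1) (hb : ∀ j < l, 0 ≤ b j ∧ b j ≤ 1)
    (h : ∀ j < l, |a j - b j| ≤ δ) : |∏ j ∈ range l, a j - ∏ j ∈ range l, b j| ≤ l * δ := by
  induction l with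
  | zero => simp
  | succ l ih =>
    have h1 := ih (fun j hj => ha j (by omega)) (fun j hj => hb j (by omega)) (fun j hj => h j (by omega))
    rw [prod_range_succ, prod_range_succ]
    obtain ⟨x, hx⟩ : ∃ x, x = ∏ j ∈ range l, a j := ⟨_, rfl⟩
    obtain ⟨z, hz⟩ : ∃ z, z = ∏ j ∈ range l, b j := ⟨_, rfl⟩
    rw [← hx, ← hz] at h1 ⊢
    have hx0 : 0 ≤ x := by
      rw [hx]
      apply prod_nonneg
      intro j hj
      rw [mem_range] at hj
      exact (ha j (by omega)).1
    have hx1 : x ≤ 1 := by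
      rw [hx]
      apply prod_le_one
      · intro j hj
        rw [mem_range] at hj
        exact (ha j (by omega)).1
      · intro j hj
        rw [mem_range] at hj
        exact (ha j (by omega)).2
    have h2 := h l (by omega)
    obtain ⟨b0, b1⟩ := hb l (by omega)
    have e : x * a l - z * b l = x * (a l - b l) + (x - z) * b l := by ring
    rw [e]
    refine (abs_add_le _ _).trans ?_
    rw [abs_mul, abs_mul, abs_of_nonneg hx0, abs_of_nonneg b0]
    have h3 : x * |a l - b l| ≤ δ := by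
      calc x * |a l - b l| ≤ 1 * |a l - b l| := mul_le_mul_of_nonneg_right hx1 (abs_nonneg _)
        _ ≤ δ := by rw [one_mul]; exact h2
    have h4 : |x - z| * b l ≤ l * δ := by
      calc |x - z| * b l ≤ |x - z| * 1 := mul_le_mul_of_nonneg_left b1 (abs_nonneg _)
        _ ≤ l * δ := by rw [mul_one]; exact h1
    push_cast
    linarith

/-! ### the encoding -/

/-- some kind at `n` -/
def Nk (r : ℕ) (M : ℕ → ℕ → Prop) (n : ℕ) : Prop := ∃ κ < r, M κ n

/-- the encoded elements -/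
def Gk (r : ℕ) (M : ℕ → ℕ → Prop) (x : ℕ) : Prop := M (x % r) (x / r)

variable {r : ℕ} {M : ℕ → ℕ → Prop}

lemma gk_enc (n κ : ℕ) (hκ : κ < r) : Gk r M (r * n + κ) ↔ M κ n := by
  unfold Gk
  have h1 : (r * n + κ) % r = κ := by rw [Nat.mul_add_mod, Nat.mod_eq_of_lt hκ]
  have h2 : (r * n + κ) / r = n := by rw [Nat.mul_add_div (by omega), Nat.div_eq_of_lt hκ, add_zero]
  rw [h1, h2]

lemma nk_of_gk (hr : 1 ≤ r) (x : ℕ) (h : Gk r M x) : Nk r M (x / r) := ⟨x % r, Nat.mod_lt _ hr, h⟩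

/-- the successor of an encoded element -/
lemma nxt_dec (hr : 1 ≤ r) (hu : ∀ κ < r, ∀ κ' < r, ∀ n, M κ n → M κ' n → κ = κ') (x : ℕ) (hx : Gk r M x)
    (hlt : x < nxt (Gk r M) x) : nxt (Nk r M) (x / r) = nxt (Gk r M) x / r ∧ x / r < nxt (Gk r M) x / r := by
  obtain ⟨x', hx'⟩ : ∃ x', x' = nxt (Gk r M) x := ⟨_, rfl⟩
  have hG : Gk r M x' := by rw [hx']; exact nxt_mem _ _ hlt
  rw [← hx'] at hlt ⊢
  have hdx := Nat.div_add_mod x r
  have hdx' := Nat.div_add_mod x' r
  have hmx : x % r < r := Nat.mod_lt _ hr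
  have hmx' : x' % r < r := Nat.mod_lt _ hr
  have h1 : x / r < x' / r := by
    rcases Nat.lt_or_ge (x / r) (x' / r) with h | h
    · exact h
    · exfalso
      have h2 : x / r = x' / r := le_antisymm (Nat.div_le_div_right hlt.le) h
      have h3 : x % r = x' % r := by
        apply hu _ hmx _ hmx' (x / r) hx
        rw [h2]
        exact hG
      rw [← h2, ← h3] at hdx'
      omega
  refine ⟨?_, h1⟩
  apply le_antisymm
  · exact nxt_le _ _ _ h1 (nk_of_gk hr x' hG)
  · have h2 := nxt_lt _ _ _ h1 (nk_of_gk hr x' hG)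
    obtain ⟨κ, hκ, hM⟩ := nxt_mem _ _ h2
    obtain ⟨m, hm⟩ : ∃ m, m = nxt (Nk r M) (x / r) := ⟨_, rfl⟩
    rw [← hm] at h2 hM ⊢
    have h3 : x < r * m + κ := by
      have : r * (x / r + 1) ≤ r * m := Nat.mul_le_mul_left _ h2
      rw [Nat.mul_add] at this
      omega
    have h4 := nxt_le (Gk r M) x (r * m + κ) h3 ((gk_enc m κ hκ).2 hM)
    rw [← hx'] at h4
    have h5 : x' / r ≤ (r * m + κ) / r := Nat.div_le_div_right h4
    have h6 : (r * m + κ) / r = m := by rw [Nat.mul_add_div (by omega), Nat.div_eq_of_lt hκ, add_zero]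
    rw [h6] at h5
    exact h5

/-- the encoded successor -/
lemma nxt_enc (hr : 1 ≤ r) (hu : ∀ κ < r, ∀ κ' < r, ∀ n, M κ n → M κ' n → κ = κ') (n κ κ' : ℕ) (hκ : κ < r)
    (hκ' : κ' < r) (hM : M κ n) (hlt : n < nxt (Nk r M) n) (hM' : M κ' (nxt (Nk r M) n)) :
    nxt (Gk r M) (r * n + κ) = r * nxt (Nk r M) n + κ' := by
  obtain ⟨m, hm⟩ : ∃ m, m = nxt (Nk r M) n := ⟨_, rfl⟩
  rw [← hm] at hlt hM' ⊢
  have hG : Gk r M (r * n + κ) := (gk_enc n κ hκ).2 hM
  have h3 : r * n + κ < r * m + κ' := by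
    have : r * (n + 1) ≤ r * m := Nat.mul_le_mul_left _ hlt
    rw [Nat.mul_add] at this
    omega
  have h4 := nxt_lt (Gk r M) _ _ h3 ((gk_enc m κ' hκ').2 hM')
  have h5 := nxt_dec hr hu (r * n + κ) hG h4
  have h6 : (r * n + κ) / r = n := by rw [Nat.mul_add_div (by omega), Nat.div_eq_of_lt hκ, add_zero]
  rw [h6, ← hm] at h5
  have h7 := nxt_mem _ _ h4
  have h8 : nxt (Gk r M) (r * n + κ) % r = κ' := by
    apply hu _ (Nat.mod_lt _ hr) _ hκ' m
    · rw [h5.1]
      exact h7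
    · exact hM'
  have h9 := Nat.div_add_mod (nxt (Gk r M) (r * n + κ)) r
  rw [← h5.1, h8] at h9
  exact h9.symm

/-- the patterns with kinds `σ j` and residues in `C j` -/
noncomputable def cK (r q l : ℕ) (M : ℕ → ℕ → Prop) (σ : ℕ → ℕ) (C : ℕ → Finset ℕ) (s T : ℕ → ℕ) (Z Y : ℕ) : ℕ :=
  Set.ncard {n : ℕ | Z < n ∧ n ≤ Z + Y ∧ Nk r M n ∧
    (∀ j ≤ l, M (σ j) ((nxt (Nk r M))^[j] n) ∧ (nxt (Nk r M))^[j] n % q ∈ C j) ∧
    ∀ j < l, s j < (nxt (Nk r M))^[j + 1] n - (nxt (Nk r M))^[j] n ∧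
      (nxt (Nk r M))^[j + 1] n - (nxt (Nk r M))^[j] n ≤ T j}

/-- the bounds for the encoded distances -/
def se (r : ℕ) (σ s : ℕ → ℕ) (j : ℕ) : ℕ := r * s j + (r - 1) + σ (j + 1) - σ j

lemma dist_enc (r a b s κ κ' : ℕ) (hab : a < b) (hκ : κ < r) (hκ' : κ' < r) :
    (r * s + (r - 1) + κ' - κ < (r * b + κ') - (r * a + κ) ↔ s < b - a) ∧
    ((r * b + κ') - (r * a + κ) ≤ r * s + (r - 1) + κ' - κ ↔ b - a ≤ s) := by
  obtain ⟨e, rfl⟩ : ∃ e, b = a + e := ⟨b - a, by omega⟩
  have he : 1 ≤ e := by omega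
  have h1 : r * (a + e) = r * a + r * e := by ring
  have h2 : a + e - a = e := by omega
  have h3 : r * 1 ≤ r * e := Nat.mul_le_mul_left _ he
  rw [h1, h2]
  constructor
  · constructor
    · intro h
      by_contra hcon
      have : r * e ≤ r * s := Nat.mul_le_mul_left _ (by omega)
      omega
    · intro h
      have : r * (s + 1) ≤ r * e := Nat.mul_le_mul_left _ h
      rw [Nat.mul_add] at this
      omega
  · constructor
    · intro h
      by_contra hcon
      have : r * (s + 1) ≤ r * e := Nat.mul_le_mul_left _ (by omega)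
      rw [Nat.mul_add] at this
      omega
    · intro h
      have : r * e ≤ r * s := Nat.mul_le_mul_left _ h
      omega

/-- **The encoded count.** -/
lemma count_enc (hr : 1 ≤ r) (hu : ∀ κ < r, ∀ κ' < r, ∀ n, M κ n → M κ' n → κ = κ') (q l : ℕ) (σ : ℕ → ℕ)
    (hσ : ∀ j ≤ l, σ j < r) (C : ℕ → Finset ℕ) (s T : ℕ → ℕ) (Z Y : ℕ) :
    cF (Gk r M) l (fun j x => x % r = σ j ∧ (x / r) % q ∈ C j) (se r σ s) (se r σ T) (r * Z + (r - 1)) (r * Y) =
      cK r q l M σ C s T Z Y := by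
  unfold cF cK
  symm
  rw [← Set.ncard_image_of_injective _ (f := fun n : ℕ => r * n + σ 0) (fun a b h => by
    simp only at h
    have h1 : r * a = r * b := by omega
    exact Nat.eq_of_mul_eq_mul_left (by omega) h1)]
  symm
  congr 1
  have hσ0 : σ 0 < r := hσ 0 (Nat.zero_le _)
  ext x
  rw [Set.mem_image]
  simp only [Set.mem_ofPred_eq]
  constructor
  · rintro ⟨x1, x2, x3, x4, x5⟩
    have hx0 : x % r = σ 0 := (x4 0 (Nat.zero_le _)).1
    have hxd := Nat.div_add_mod x r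
    rw [hx0] at hxd
    have hup : Up (Gk r M) l x := ⟨x3, fun j hj => by have := (x5 j hj).1; omega⟩
    have hall : ∀ j ≤ l, (nxt (Gk r M))^[j] x / r = (nxt (Nk r M))^[j] (x / r) := by
      intro j
      induction j with
      | zero => intro _; rfl
      | succ j ih =>
        intro hj
        have h1 := hup.2 j (by omega)
        have h2 := hup.mem j (by omega)
        rw [Function.iterate_succ_apply'] at h1 ⊢
        have h3 := nxt_dec hr hu _ h2 h1
        rw [← h3.1, ih (by omega), Function.iterate_succ_apply']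
    refine ⟨x / r, ⟨?_, ?_, nk_of_gk hr x x3, ?_, ?_⟩, hxd⟩
    · by_contra hcon
      have : r * (x / r) ≤ r * Z := Nat.mul_le_mul_left _ (by omega)
      omega
    · by_contra hcon
      have : r * (Z + Y + 1) ≤ r * (x / r) := Nat.mul_le_mul_left _ (by omega)
      rw [Nat.mul_add, Nat.mul_add] at this
      omega
    · intro j hj
      obtain ⟨h1, h2⟩ := x4 j hj
      have h3 : M ((nxt (Gk r M))^[j] x % r) ((nxt (Gk r M))^[j] x / r) := hup.mem j hj
      rw [h1, hall j hj] at h3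
      rw [hall j hj] at h2
      exact ⟨h3, h2⟩
    · intro j hj
      have h1 := x5 j hj
      have h2 := hup.2 j hj
      have e0 := Function.iterate_succ_apply' (nxt (Gk r M)) j x
      rw [e0] at h2
      have h3 := nxt_dec hr hu _ (hup.mem j hj.le) h2
      rw [← e0] at h3
      have e1 := Nat.div_add_mod ((nxt (Gk r M))^[j] x) r
      have e2 := Nat.div_add_mod ((nxt (Gk r M))^[j + 1] x) r
      rw [(x4 j hj.le).1, hall j hj.le] at e1
      rw [(x4 (j + 1) hj).1, hall (j + 1) hj] at e2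
      rw [hall j hj.le, hall (j + 1) hj] at h3
      have h4 := dist_enc r ((nxt (Nk r M))^[j] (x / r)) ((nxt (Nk r M))^[j + 1] (x / r)) (s j) (σ j) (σ (j + 1))
        h3.2 (hσ j hj.le) (hσ (j + 1) hj)
      have h5 := dist_enc r ((nxt (Nk r M))^[j] (x / r)) ((nxt (Nk r M))^[j + 1] (x / r)) (T j) (σ j) (σ (j + 1))
        h3.2 (hσ j hj.le) (hσ (j + 1) hj)
      rw [← e1, ← e2] at h1
      exact ⟨h4.1.1 h1.1, h5.2.1 h1.2⟩
  · rintro ⟨n, ⟨n1, n2, n3, n4, n5⟩, rfl⟩
    have hup : Up (Nk r M) l n := ⟨n3, fun j hj => by have := (n5 j hj).1; omega⟩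
    have hall : ∀ j ≤ l, (nxt (Gk r M))^[j] (r * n + σ 0) = r * (nxt (Nk r M))^[j] n + σ j := by
      intro j
      induction j with
      | zero => intro _; rfl
      | succ j ih =>
        intro hj
        have h1 := hup.2 j (by omega)
        rw [Function.iterate_succ_apply'] at h1
        rw [Function.iterate_succ_apply', ih (by omega), Function.iterate_succ_apply']
        apply nxt_enc hr hu _ _ _ (hσ j (by omega)) (hσ (j + 1) hj) (n4 j (by omega)).1 h1
        have := (n4 (j + 1) hj).1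
        rw [Function.iterate_succ_apply'] at this
        exact this
    have hm : ∀ j ≤ l, (r * (nxt (Nk r M))^[j] n + σ j) % r = σ j := by
      intro j hj
      rw [Nat.mul_add_mod, Nat.mod_eq_of_lt (hσ j hj)]
    have hd : ∀ j ≤ l, (r * (nxt (Nk r M))^[j] n + σ j) / r = (nxt (Nk r M))^[j] n := by
      intro j hj
      rw [Nat.mul_add_div (by omega), Nat.div_eq_of_lt (hσ j hj), add_zero]
    refine ⟨?_, ?_, (gk_enc n _ hσ0).2 (n4 0 (Nat.zero_le _)).1, ?_, ?_⟩
    · have : r * (Z + 1) ≤ r * n := Nat.mul_le_mul_left _ n1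
      rw [Nat.mul_add] at this
      omega
    · have : r * n ≤ r * (Z + Y) := Nat.mul_le_mul_left _ n2
      rw [Nat.mul_add] at this
      omega
    · intro j hj
      rw [hall j hj, hm j hj, hd j hj]
      exact ⟨rfl, (n4 j hj).2⟩
    · intro j hj
      rw [hall j hj.le, hall (j + 1) hj]
      have h4 := dist_enc r ((nxt (Nk r M))^[j] n) ((nxt (Nk r M))^[j + 1] n) (s j) (σ j) (σ (j + 1))
        (hup.2 j hj) (hσ j hj.le) (hσ (j + 1) hj)
      have h5 := dist_enc r ((nxt (Nk r M))^[j] n) ((nxt (Nk r M))^[j + 1] n) (T j) (σ j) (σ (j + 1))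
        (hup.2 j hj) (hσ j hj.le) (hσ (j + 1) hj)
      exact ⟨h4.1.2 (n5 j hj).1, h5.2.2 (n5 j hj).2⟩

/-! ### the law -/

variable {A q : ℕ} {K : ℕ → Finset (ℕ × ℤ)} {ω : ℕ → ℕ}

open Classical in
/-- **The joint law of kinds, residues and distances.** -/
theorem law_kinds (l : ℕ) (hq : 1 ≤ q) (hK : Kinds A q r K ω) (hB1 : 1 ≤ (Bk K q r).card) (ε : ℝ) (hε : 0 < ε) :
    ∃ ε1 : ℝ, 0 < ε1 ∧ ∃ K0 y1 : ℕ, ∀ y : ℕ, y1 ≤ y → ∀ Z Y : ℕ, y ^ K0 ≤ Y → ∀ V : ℝ,
      V = ∏ p ∈ (Icc 1 y).filter (fun p => p.Prime ∧ ¬ p ∣ q), (1 - (ω p : ℝ) / p) →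
      ∀ M : ℕ → ℕ → Prop, (∀ κ < r, ∀ n, M κ n → Hs K y κ n) →
      (∀ κ < r, ∀ κ' < r, ∀ n, M κ n → M κ' n → κ = κ') →
      (∀ κ < r, ∀ F : Finset ℕ, F ⊆ Ioc Z (Z + Y) → (∀ n ∈ F, Hs K y κ n ∧ ¬ M κ n) →
        (F.card : ℝ) ≤ ε1 * (V * Y)) →
      ∀ (σ : ℕ → ℕ) (C : ℕ → Finset ℕ) (s T : ℕ → ℕ), (∀ j ≤ l, σ j < r) → (∀ j < l, s j ≤ T j) →
      ∀ R D : ℝ, R = (Bk K q r).card → D = R / q * V →
      |(cK r q l M σ C s T Z Y : ℝ) - D * Y * (∏ j ∈ range (l + 1), ((Rk K q (σ j) (C j)).card : ℝ) / R) *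
          ∏ j ∈ range l, (Real.exp (-(D * s j)) - Real.exp (-(D * T j)))| ≤ ε * (D * Y) := by
  have hr := hK.hr
  have hr0 : (0 : ℝ) < r := by exact_mod_cast hr
  have hr1 : (1 : ℝ) ≤ r := by exact_mod_cast hr
  have hrq : 1 ≤ r * q := Nat.mul_pos hr hq
  have hq0 : (0 : ℝ) < q := by exact_mod_cast hq
  have hlin := linF_kinds hK
  have habs := (abs_lin hrq hlin).toV
  obtain ⟨ε1, hε1, K0, y1, h⟩ := law_pert l (by omega) hrq habs (Bk K q r) (Bk_sub K q r) hB1 (ε / 2) (by positivity)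
  obtain ⟨Cv, hCv, hvan⟩ := habs.van
  obtain ⟨R0, hR0⟩ : ∃ R0 : ℝ, R0 = (Bk K q r).card := ⟨_, rfl⟩
  have hR01 : 1 ≤ R0 := by rw [hR0]; exact_mod_cast hB1
  have hlog : Tendsto (fun n : ℕ => Real.log (n : ℝ)) atTop atTop :=
    Real.tendsto_log_atTop.comp tendsto_natCast_atTop_atTop
  obtain ⟨y2, hy2⟩ := eventually_atTop.1 (hlog.eventually_ge_atTop (Cv * (R0 / q) * (4 * l + 1) / (ε / 2)))
  refine ⟨ε1 / r, by positivity, K0, max (max y1 y2) (max q 3), ?_⟩
  intro y hy Z Y hY V hV M hsub hu hrare σ C s T hσ hsT R D hR hD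
  have b1 : y1 ≤ y := (le_max_left _ _).trans ((le_max_left _ _).trans hy)
  have b2 : y2 ≤ y := (le_max_right _ _).trans ((le_max_left _ _).trans hy)
  have b3 : q ≤ y := (le_max_left _ _).trans ((le_max_right _ _).trans hy)
  have b4 : 3 ≤ y := (le_max_right _ _).trans ((le_max_right _ _).trans hy)
  have hVV : Vq (QL (r * q) (KF r K) 0) y = V := by rw [hV]; exact Vq_kinds hK y
  have hV0 : 0 < V := by rw [← hVV]; exact Vq_pos _ habs.adm y
  have hYr : y ^ K0 ≤ r * Y := hY.trans (by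
    calc Y = 1 * Y := (one_mul _).symm
      _ ≤ r * Y := Nat.mul_le_mul_right _ hr)
  have hsub' : ∀ m, Gk r M m → GB (GT (QL (r * q) (KF r K)) (r * q) y) (r * q) (Bk K q r) m := by
    intro m hm
    rw [gb_kinds hq hK y b3]
    exact hsub _ (Nat.mod_lt _ hr) _ hm
  have hrare' : ∀ F : Finset ℕ, F ⊆ Ioc (r * Z + (r - 1)) (r * Z + (r - 1) + r * Y) →
      (∀ m ∈ F, GB (GT (QL (r * q) (KF r K)) (r * q) y) (r * q) (Bk K q r) m ∧ ¬ Gk r M m) →
        (F.card : ℝ) ≤ ε1 * (Vq (QL (r * q) (KF r K) 0) y * ((r * Y : ℕ) : ℝ)) := by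
    intro F hF hF2
    rw [hVV]
    have h1 : F.card = ∑ κ ∈ range r, (F.filter (fun x => x % r = κ)).card :=
      Finset.card_eq_sum_card_fiberwise (f := fun x => x % r) (t := range r) (fun x _ => by
        rw [Finset.mem_coe, mem_range]
        exact Nat.mod_lt _ hr)
    have h2 : ∀ κ ∈ range r, ((F.filter (fun x => x % r = κ)).card : ℝ) ≤ ε1 / r * (V * Y) := by
      intro κ hκ
      rw [mem_range] at hκ
      have h3 : (F.filter (fun x => x % r = κ)).card = ((F.filter (fun x => x % r = κ)).image (fun x => x / r)).card := by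
        rw [card_image_of_injOn]
        intro a ha b hb hab
        rw [Finset.mem_coe, mem_filter] at ha hb
        simp only at hab
        have e1 := Nat.div_add_mod a r
        have e2 := Nat.div_add_mod b r
        rw [← e1, ← e2, hab, ha.2, hb.2]
      rw [h3]
      apply hrare κ hκ
      · intro n hn
        rw [mem_image] at hn
        obtain ⟨x, hx, rfl⟩ := hn
        rw [mem_filter] at hx
        have h4 := hF hx.1
        rw [mem_Ioc] at h4
        have e1 := Nat.div_add_mod x r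
        have e2 : x % r < r := Nat.mod_lt _ hr
        rw [mem_Ioc]
        constructor
        · by_contra hcon
          have : r * (x / r) ≤ r * Z := Nat.mul_le_mul_left _ (by omega)
          omega
        · by_contra hcon
          have : r * (Z + Y + 1) ≤ r * (x / r) := Nat.mul_le_mul_left _ (by omega)
          rw [Nat.mul_add, Nat.mul_add] at this
          omega
      · intro n hn
        rw [mem_image] at hn
        obtain ⟨x, hx, rfl⟩ := hn
        rw [mem_filter] at hx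
        obtain ⟨h4, h5⟩ := hF2 x hx.1
        rw [gb_kinds hq hK y b3] at h4
        unfold Gk at h5
        rw [hx.2] at h4 h5
        exact ⟨h4, h5⟩
    rw [h1]
    push_cast
    refine (Finset.sum_le_sum h2).trans ?_
    rw [Finset.sum_const, card_range, nsmul_eq_mul]
    have h5 : (r : ℝ) * (ε1 / r * (V * Y)) = ε1 * (V * Y) := by field_simp
    rw [h5]
    have h6 : (Y : ℝ) ≤ r * Y := by
      have : (0 : ℝ) ≤ Y := Nat.cast_nonneg _
      nlinarith
    gcongr
  have hDr : D / r = R / ((r * q : ℕ) : ℝ) * Vq (QL (r * q) (KF r K) 0) y := by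
    rw [hVV, hD]
    push_cast
    field_simp
  have hRR : R = R0 := by rw [hR, hR0]
  have hR1 : 1 ≤ R := by rw [hRR]; exact hR01
  have hD0 : 0 < D := by rw [hD]; positivity
  obtain ⟨S, hS⟩ : ∃ S : ℕ → Finset ℕ, S = fun j => (Bk K q r).filter (fun τ => τ % r = σ j ∧ τ / r ∈ C j) := ⟨_, rfl⟩
  have hSB : ∀ j ≤ l, S j ⊆ Bk K q r := by
    intro j _
    rw [hS]
    exact filter_subset _ _
  have hseT : ∀ j < l, se r σ s j ≤ se r σ T j := by
    intro j hj
    unfold se
    have : r * s j ≤ r * T j := Nat.mul_le_mul_left _ (hsT j hj)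
    omega
  have hmain := h y b1 (r * Z + (r - 1)) (r * Y) hYr (Gk r M) hsub' hrare' S (se r σ s) (se r σ T) hSB hseT R (D / r)
    hR hDr
  have hcount : cS (Gk r M) (r * q) l S (se r σ s) (se r σ T) (r * Z + (r - 1)) (r * Y) =
      cK r q l M σ C s T Z Y := by
    rw [← count_enc hr hu q l σ hσ C s T Z Y]
    have := cS_congr (Gk r M) (r * q) l S (fun j x => x % r = σ j ∧ (x / r) % q ∈ C j) (se r σ s) (se r σ T)
      (r * Z + (r - 1)) (r * Y) (by
      intro j _ x hx
      have h1 : x % (r * q) ∈ Bk K q r := (hsub' x hx).1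
      rw [hS]
      simp only
      rw [mem_filter, Nat.mod_mod_of_dvd x (dvd_mul_right r q), Nat.mod_mul_right_div_self]
      exact ⟨fun h2 => ⟨h1, h2⟩, fun h2 => h2.2⟩)
    rw [← this]
    rfl
  rw [hcount] at hmain
  have hcards : ∀ j ∈ range (l + 1), ((S j).card : ℝ) / R = ((Rk K q (σ j) (C j)).card : ℝ) / R := by
    intro j hj
    rw [mem_range] at hj
    have h1 : (S j).card = (Rk K q (σ j) (C j)).card := by
      rw [← card_enc (K := K) (q := q) hr (σ j) (hσ j (by omega)) (C j), hS]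
    rw [h1]
  rw [Finset.prod_congr rfl hcards] at hmain
  have hDY : D / r * ((r * Y : ℕ) : ℝ) = D * Y := by
    push_cast
    field_simp
  rw [hDY] at hmain
  obtain ⟨Pr, hPr⟩ : ∃ Pr, Pr = ∏ j ∈ range (l + 1), ((Rk K q (σ j) (C j)).card : ℝ) / R := ⟨_, rfl⟩
  rw [← hPr] at hmain ⊢
  have hPr0 : 0 ≤ Pr := by
    rw [hPr]
    apply prod_nonneg
    intro j _
    positivity
  have hPr1 : Pr ≤ 1 := by
    rw [hPr]
    apply prod_le_one
    · intro j _
      positivity
    · intro j hj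
      rw [← hcards j hj, div_le_one (by linarith), hR]
      rw [mem_range] at hj
      exact_mod_cast card_le_card (hSB j (by omega))
  -- the products
  obtain ⟨g1, hg1⟩ : ∃ g1, g1 = ∏ j ∈ range l, (Real.exp (-(D / r * (se r σ s j : ℕ))) -
    Real.exp (-(D / r * (se r σ T j : ℕ)))) := ⟨_, rfl⟩
  obtain ⟨g2, hg2⟩ : ∃ g2, g2 = ∏ j ∈ range l, (Real.exp (-(D * s j)) - Real.exp (-(D * T j))) := ⟨_, rfl⟩
  rw [← hg1] at hmain
  rw [← hg2]
  have hse : ∀ (u : ℕ → ℕ), ∀ j < l, 0 ≤ D / r * (se r σ u j : ℕ) - D * u j ∧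
      D / r * (se r σ u j : ℕ) - D * u j ≤ 2 * D := by
    intro u j hj
    have h1 := hσ j (by omega)
    have h2 := hσ (j + 1) (by omega)
    have h3 : ((se r σ u j : ℕ) : ℝ) = r * u j + ((r : ℝ) - 1) + σ (j + 1) - σ j := by
      unfold se
      rw [Nat.cast_sub (by omega)]
      push_cast [Nat.cast_sub hr]
      ring
    have h4 : (σ j : ℝ) ≤ (r : ℝ) - 1 := by
      have : (σ j : ℝ) + 1 ≤ r := by exact_mod_cast h1
      linarith
    have h5 : (σ (j + 1) : ℝ) ≤ (r : ℝ) - 1 := by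
      have : (σ (j + 1) : ℝ) + 1 ≤ r := by exact_mod_cast h2
      linarith
    have h6 : (0 : ℝ) ≤ σ j := Nat.cast_nonneg _
    have h7 : (0 : ℝ) ≤ σ (j + 1) := Nat.cast_nonneg _
    have h8 : D / r * (se r σ u j : ℕ) - D * u j = D / r * ((r : ℝ) - 1 + σ (j + 1) - σ j) := by
      rw [h3]
      field_simp
      ring
    rw [h8]
    have h9 : 0 < D / r := by positivity
    refine ⟨mul_nonneg h9.le (by linarith), ?_⟩
    calc D / r * ((r : ℝ) - 1 + σ (j + 1) - σ j) ≤ D / r * (2 * r) :=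
          mul_le_mul_of_nonneg_left (by linarith) h9.le
      _ = 2 * D := by field_simp
  have hfac : ∀ (u v : ℕ → ℝ), (∀ j < l, 0 ≤ u j ∧ u j ≤ v j) → ∀ j < l,
      0 ≤ Real.exp (-(u j)) - Real.exp (-(v j)) ∧ Real.exp (-(u j)) - Real.exp (-(v j)) ≤ 1 := by
    intro u v huv j hj
    obtain ⟨h1, h2⟩ := huv j hj
    have h3 : Real.exp (-(v j)) ≤ Real.exp (-(u j)) := Real.exp_le_exp.2 (by linarith)
    have h4 : Real.exp (-(u j)) ≤ 1 := Real.exp_le_one_iff.2 (by linarith)
    have h5 := Real.exp_pos (-(v j))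
    constructor <;> linarith
  have hclose : |g1 - g2| ≤ l * (4 * D) := by
    rw [hg1, hg2]
    apply prod_close
    · apply hfac (fun j => D / r * (se r σ s j : ℕ)) (fun j => D / r * (se r σ T j : ℕ))
      intro j hj
      refine ⟨by positivity, mul_le_mul_of_nonneg_left (by exact_mod_cast hseT j hj) (by positivity)⟩
    · apply hfac (fun j => D * s j) (fun j => D * T j)
      intro j hj
      refine ⟨by positivity, mul_le_mul_of_nonneg_left (by exact_mod_cast hsT j hj) hD0.le⟩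
    · intro j hj
      have h1 := hse s j hj
      have h2 := hse T j hj
      have h3 := exp_close (D / r * (se r σ s j : ℕ)) (D * s j) (by positivity) (by positivity)
      have h4 := exp_close (D / r * (se r σ T j : ℕ)) (D * T j) (by positivity) (by positivity)
      rw [abs_of_nonneg h1.1] at h3
      rw [abs_of_nonneg h2.1] at h4
      have e : Real.exp (-(D / r * (se r σ s j : ℕ))) - Real.exp (-(D / r * (se r σ T j : ℕ))) -
          (Real.exp (-(D * s j)) - Real.exp (-(D * T j))) =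
          (Real.exp (-(D / r * (se r σ s j : ℕ))) - Real.exp (-(D * s j))) -
          (Real.exp (-(D / r * (se r σ T j : ℕ))) - Real.exp (-(D * T j))) := by ring
      rw [e]
      refine (abs_sub _ _).trans ?_
      linarith [h1.2, h2.2]
  have hDsmall : (l : ℝ) * (4 * D) ≤ ε / 2 := by
    have h1 := hvan y b4
    rw [hVV] at h1
    have h2 := hy2 y b2
    have hlogy : 0 < Real.log y := Real.log_pos (by exact_mod_cast (by omega : 1 < y))
    rw [le_div_iff₀ hlogy] at h1
    rw [div_le_iff₀ (by positivity)] at h2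
    have h3 : D * (4 * l + 1) * Real.log y ≤ Real.log y * (ε / 2) := by
      calc D * (4 * l + 1) * Real.log y = (R0 / q) * (4 * l + 1) * (V * Real.log y) := by rw [hD, hRR]; ring
        _ ≤ (R0 / q) * (4 * l + 1) * Cv := mul_le_mul_of_nonneg_left h1 (by positivity)
        _ = Cv * (R0 / q) * (4 * l + 1) := by ring
        _ ≤ _ := h2
    have h4 : D * (4 * l + 1) ≤ ε / 2 := by
      have h5 : Real.log y * (D * (4 * l + 1)) ≤ Real.log y * (ε / 2) := by linarith
      exact le_of_mul_le_mul_left h5 hlogy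
    linarith
  have hDY0 : 0 ≤ D * Y := by positivity
  have e : (cK r q l M σ C s T Z Y : ℝ) - D * Y * Pr * g2 =
      ((cK r q l M σ C s T Z Y : ℝ) - D * Y * Pr * g1) + D * Y * Pr * (g1 - g2) := by ring
  rw [e]
  refine (abs_add_le _ _).trans ?_
  have h1 : |D * Y * Pr * (g1 - g2)| ≤ ε / 2 * (D * Y) := by
    rw [abs_mul, abs_of_nonneg (by positivity)]
    calc D * Y * Pr * |g1 - g2| ≤ D * Y * 1 * (ε / 2) := by
          apply mul_le_mul
          · exact mul_le_mul_of_nonneg_left hPr1 hDY0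
          · exact hclose.trans hDsmall
          · exact abs_nonneg _
          · positivity
      _ = ε / 2 * (D * Y) := by ring
  linarith

end Pool.Agent.U98.TZ
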