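import Pool.Agent.U98.TZ.B6

set_option autoImplicit false

/-!
# Rare coincidences for linear forms
-/

namespace Pool.Agent.U98.TZ

open Finset Filter Pool.Agent.H373R2.T7 Pool.Agent.W123.RP Pool.Agent.W123.RU Pool.Agent.TH464.PO Pool.Agent.U98.TY

/-- the conditions of `S` at the primes which do not divide `q` -/
def Q0S (q : ℕ) (S : Finset (ℕ × ℤ)) (p n : ℕ) : Prop := ¬ p ∣ q ∧ QS S p n

/-- the conditions of `S` and of one more form -/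
def Q1S (q p2 : ℕ) (S : Finset (ℕ × ℤ)) (L0 : ℕ × ℤ) (p n : ℕ) : Prop :=
  ¬ p ∣ q ∧ (QS S p n ∨ (p2 < p ∧ (p : ℤ) ∣ (L0.1 : ℤ) * n + L0.2))

lemma perB_sub (q A : ℕ) (Q : ℕ → ℕ → Prop) (hper : ∀ p n, Q p n ↔ Q p (n % p))
    (hsub : ∀ p n, Q p n → UL q A p n) : PerB Q (A * (2 * A + 1) + 1) := by
  classical
  refine ⟨hper, ?_⟩
  intro p hp
  refine le_trans ?_ (nuB_UL q A p hp)
  unfold nuB
  apply card_le_card
  intro r hr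
  rw [mem_filter] at hr ⊢
  exact ⟨hr.1, hsub p r hr.2⟩

lemma QS_mod (S : Finset (ℕ × ℤ)) (p n : ℕ) : QS S p n ↔ QS S p (n % p) := by
  unfold QS
  apply exists_congr
  intro L
  rw [lin_mod]

open Classical in
/-- **One more form without small prime factors is rare.** -/
theorem rare_form (A q p2 : ℕ) (S : Finset (ℕ × ℤ)) (L0 : ℕ × ℤ) (ω : ℕ → ℕ) (hq : 1 ≤ q)
    (hS : ∀ L ∈ S, 1 ≤ L.1 ∧ L.1 ≤ A ∧ |L.2| ≤ A) (hL0 : 1 ≤ L0.1 ∧ L0.1 ≤ A ∧ |L0.2| ≤ A)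
    (hom : ∀ p : ℕ, p.Prime → ¬ p ∣ q → nuB (QS S) p = ω p) (hadm : ∀ p : ℕ, p.Prime → ¬ p ∣ q → ω p < p)
    (hne : ∀ L ∈ S, (L.1 : ℤ) * L0.2 - L0.1 * L.2 ≠ 0) (ε : ℝ) (hε : 0 < ε) :
    ∃ K y1 : ℕ, ∀ y : ℕ, y1 ≤ y → ∀ Z Y : ℕ, y ^ K ≤ Y → ∀ V : ℝ,
      V = ∏ p ∈ (Icc 1 y).filter (fun p => p.Prime ∧ ¬ p ∣ q), (1 - (ω p : ℝ) / p) →
      ∀ F : Finset ℕ, F ⊆ Ioc Z (Z + Y) →
      (∀ n ∈ F, (∀ L ∈ S, ∀ p : ℕ, p.Prime → p ≤ y → ¬ (p : ℤ) ∣ (L.1 : ℤ) * n + L.2) ∧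
        (∀ p : ℕ, p.Prime → p2 < p → p ≤ y → ¬ (p : ℤ) ∣ (L0.1 : ℤ) * n + L0.2)) →
      (F.card : ℝ) ≤ ε * (V * Y) := by
  have h0 : ∀ p, p.Prime → ¬ p ∣ q → nuB (Q0S q S) p = ω p := by
    intro p hp hpq
    rw [← hom p hp hpq]
    apply nuB_congr
    intro r _
    exact ⟨fun h => h.2, fun h => ⟨hpq, h⟩⟩
  have h0' : ∀ p, p ∣ q → nuB (Q0S q S) p = 0 := by
    intro p hpq
    unfold nuB
    rw [card_eq_zero, filter_eq_empty_iff]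
    intro m _ hm
    exact hm.1 hpq
  have hadm' : ∀ p : ℕ, p.Prime → nuB (Q0S q S) p < p := by
    intro p hp
    by_cases h : p ∣ q
    · rw [h0' p h]
      exact hp.pos
    · rw [h0 p hp h]
      exact hadm p hp h
  have hper0 : PerB (Q0S q S) (A * (2 * A + 1) + 1) := by
    apply perB_sub q A
    · intro p n
      unfold Q0S
      rw [QS_mod]
    · rintro p n ⟨h1, L, hL, hd⟩
      exact ⟨h1, L, hS L hL, hd⟩
  have hper1 : PerB (Q1S q p2 S L0) (A * (2 * A + 1) + 1) := by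
    apply perB_sub q A
    · intro p n
      unfold Q1S
      rw [QS_mod, lin_mod]
    · rintro p n ⟨h1, ⟨L, hL, hd⟩ | ⟨_, hd⟩⟩
      · exact ⟨h1, L, hS L hL, hd⟩
      · exact ⟨h1, L0, hL0, hd⟩
  have hge : ∀ p : ℕ, p.Prime → q + p2 + 2 * A ^ 2 < p → nuB (Q0S q S) p + 1 ≤ nuB (Q1S q p2 S L0) p := by
    intro p hp hpp
    have hA1 : A ≤ A ^ 2 := by
      rcases Nat.eq_zero_or_pos A with h | h
      · omega
      · nlinarith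
    have hpq : ¬ p ∣ q := fun hd => by
      have := Nat.le_of_dvd hq hd
      omega
    obtain ⟨r, hr, hd⟩ := lin_ex p L0.1 L0.2 hp (fun hd => by
      have := Nat.le_of_dvd (by omega) hd
      omega)
    unfold nuB
    rw [← Finset.card_insert_of_notMem (s := (range p).filter (fun m => Q0S q S p m)) (a := r) (by
      rw [mem_filter]
      rintro ⟨_, _, L, hL, hd'⟩
      have h3 := res_eq p r 0 L.1 L0.1 L.2 L0.2 hd' (by simpa using hd)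
      obtain ⟨b1, b2, b3⟩ := hS L hL
      obtain ⟨c1, c2, c3⟩ := hL0
      have h4 := res_bd A 0 L.1 L0.1 L.2 L0.2 b2 c2 b3 c3
      have e : (L.1 : ℤ) * (L0.1 * (0 : ℕ) + L0.2) - L0.1 * L.2 = (L.1 : ℤ) * L0.2 - L0.1 * L.2 := by
        push_cast
        ring
      rw [e] at h3 h4
      refine not_dvd_of_lt p _ (hne L hL) (lt_of_le_of_lt h4 ?_) h3
      have h6 : 2 * A ^ 2 < p := by omega
      have h7 : (2 * (A : ℤ) ^ 2) < p := by exact_mod_cast h6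
      push_cast
      linarith)]
    apply card_le_card
    intro x hx
    rw [mem_insert] at hx
    rw [mem_filter]
    rcases hx with rfl | hx
    · exact ⟨mem_range.2 hr, hpq, Or.inr ⟨by omega, hd⟩⟩
    · rw [mem_filter] at hx
      exact ⟨hx.1, hx.2.1, Or.inl hx.2.2⟩
  obtain ⟨K, y1, h⟩ := rare (Q0S q S) (Q1S q p2 S L0) (A * (2 * A + 1) + 1) (q + p2 + 2 * A ^ 2) (by omega)
    hper0 hper1 hadm' hge ε hε
  refine ⟨K, y1, ?_⟩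
  intro y hy Z Y hY V hV F hF hF2
  have hVV : Vq (Q0S q S) y = V := by
    rw [hV]
    unfold Vq
    symm
    have h1 : ∏ p ∈ (Icc 1 y).filter (fun p => p.Prime ∧ ¬ p ∣ q), (1 - (ω p : ℝ) / p) =
        ∏ p ∈ (Icc 1 y).filter (fun p => p.Prime ∧ ¬ p ∣ q), (1 - (nuB (Q0S q S) p : ℝ) / p) := by
      apply prod_congr rfl
      intro p hp
      rw [mem_filter] at hp
      rw [h0 p hp.2.1 hp.2.2]
    rw [h1]
    apply prod_subset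
    · intro p hp
      rw [mem_filter, mem_Icc] at hp
      exact mem_pz.2 ⟨hp.1.2, hp.2.1⟩
    · intro p hp hnot
      obtain ⟨h2, h3⟩ := mem_pz.1 hp
      have h4 : p ∣ q := by
        by_contra hcon
        exact hnot (mem_filter.2 ⟨mem_Icc.2 ⟨h3.one_lt.le, h2⟩, h3, hcon⟩)
      rw [h0' p h4, Nat.cast_zero, zero_div, sub_zero]
  rw [← hVV]
  apply h y hy Z Y hY F hF
  intro m hm
  obtain ⟨h1, h2⟩ := hF2 m hm
  rintro p hp ⟨_, h3⟩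
  obtain ⟨hpy, hpp⟩ := mem_pz.1 hp
  rcases h3 with ⟨L, hL, hd⟩ | ⟨h4, hd⟩
  · exact h1 L hL p hpp hpy hd
  · exact h2 p hpp h4 hpy hd

variable {A q r : ℕ} {K : ℕ → Finset (ℕ × ℤ)} {ω : ℕ → ℕ}

open Classical in
/-- **Two kinds at the same integer are rare.** -/
theorem rare_two (hq : 1 ≤ q) (hK : Kinds A q r K ω) (κ κ' : ℕ) (hκ : κ < r) (hκ' : κ' < r) (hne : κ ≠ κ') (ε : ℝ)
    (hε : 0 < ε) :
    ∃ K0 y1 : ℕ, ∀ y : ℕ, y1 ≤ y → ∀ Z Y : ℕ, y ^ K0 ≤ Y → ∀ V : ℝ,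
      V = ∏ p ∈ (Icc 1 y).filter (fun p => p.Prime ∧ ¬ p ∣ q), (1 - (ω p : ℝ) / p) →
      ∀ F : Finset ℕ, F ⊆ Ioc Z (Z + Y) → (∀ n ∈ F, Hs K y κ n ∧ Hs K y κ' n) →
      (F.card : ℝ) ≤ ε * (V * Y) := by
  have hbd : ∀ κ < r, ∀ L ∈ K κ, 1 ≤ L.1 ∧ L.1 ≤ A ∧ |L.2| ≤ A := by
    intro κ hκ L hL
    obtain ⟨b1, b2, b3, b4⟩ := hK.bd κ hκ L hL
    exact ⟨b1, b2, by rw [abs_of_nonneg b3]; exact b4⟩
  rcases hK.dist κ hκ κ' hκ' hne with ⟨L, hL, hd⟩ | ⟨L', hL', hd⟩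
  · obtain ⟨K0, y1, h⟩ := rare_form A q 0 (K κ') L ω hq (hbd κ' hκ') (hbd κ hκ L hL) (hK.om κ' hκ') hK.adm (by
      intro L' hL' hcon
      apply hd L' hL'
      linarith) ε hε
    refine ⟨K0, y1, ?_⟩
    intro y hy Z Y hY V hV F hF hF2
    apply h y hy Z Y hY V hV F hF
    intro n hn
    exact ⟨(hF2 n hn).2, fun p hp _ hpy => (hF2 n hn).1 L hL p hp hpy⟩
  · obtain ⟨K0, y1, h⟩ := rare_form A q 0 (K κ) L' ω hq (hbd κ hκ) (hbd κ' hκ' L' hL') (hK.om κ hκ) hK.adm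
      (fun L hL => hd L hL) ε hε
    refine ⟨K0, y1, ?_⟩
    intro y hy Z Y hY V hV F hF hF2
    apply h y hy Z Y hY V hV F hF
    intro n hn
    exact ⟨(hF2 n hn).1, fun p hp _ hpy => (hF2 n hn).2 L' hL' p hp hpy⟩

end Pool.Agent.U98.TZ
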